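import Mathlib

/-!
# The stack-sorting map, its depth, and the mean depth of `ρ0`
-/

set_option autoImplicit false

namespace Pool.Agent.Lib.MP_ad84ff_co

/-- The stack algorithm: `stackRun input stack` is the output word when `input` is still to be read
and `stack` (top entry first) is the content of the stack.  If the stack is empty or its top entry
exceeds the next entry of the input, push; otherwise pop; when everything has been read, pop the
rest of the stack. -/
def stackRun : List ℕ → List ℕ → List ℕ
  | [], st => st
  | x :: xs, [] => stackRun xs [x]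
  | x :: xs, y :: st => if x < y then stackRun xs (x :: y :: st) else y :: stackRun (x :: xs) st
termination_by inp st => 2 * inp.length + st.length

/-- The stack-sorting map. -/
def s (w : List ℕ) : List ℕ := stackRun w []

/-- The stack-sorting depth: the least `t` such that `s^t w` is in increasing order. -/
noncomputable def dep (w : List ℕ) : ℕ := sInf {t : ℕ | (s^[t] w).Pairwise (· < ·)}

/-- The permutation `ρ` of `{1, …, n}` as a word. -/
def word {n : ℕ} (ρ : Equiv.Perm (Fin n)) : List ℕ := List.ofFn fun i => (ρ i : ℕ) + 1

/-- The mean depth of `ρ0`. -/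
noncomputable def Dp (n : ℕ) : ℝ :=
  (∑ ρ : Equiv.Perm (Fin n), (dep (word ρ ++ [0]) : ℝ)) / (n.factorial : ℝ)

/-- The mean depth of `ρ`. -/
noncomputable def D (n : ℕ) : ℝ :=
  (∑ ρ : Equiv.Perm (Fin n), (dep (word ρ) : ℝ)) / (n.factorial : ℝ)

end Pool.Agent.Lib.MP_ad84ff_co
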