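import Pool.Agent.Lib.MP_ad84ff_co.Base

/-!
# The stack-sorting depth of `ρ0`: definitions and the packet chain

The proof is in `Paper.md` of this folder.
-/

set_option autoImplicit false

namespace Pool.Agent.Lib.MP_ad84ff_co

/-! ## Words -/

/-- One letter is read: the output so far and the stack (top first). -/
def rd (q : List ℕ × List ℕ) (x : ℕ) : List ℕ × List ℕ :=
  (q.1 ++ q.2.takeWhile (fun y => decide (y ≤ x)), x :: q.2.dropWhile (fun y => decide (y ≤ x)))

/-- Output and stack after reading a word. -/
def rds (w : List ℕ) : List ℕ × List ℕ := w.foldl rd ([], [])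

/-- The output of the stack algorithm before the final flush. -/
def T (w : List ℕ) : List ℕ := (rds w).1

/-! ## The chain -/

/-- A state: the list of packets `(level, size)`. -/
abbrev St := List (ℕ × ℕ)

/-- Put the packet `F` in front of a state, merging it with the first packet if that packet has
just jumped to the level above `F`. -/
def glue (F : ℕ × ℕ) : St → St
  | [] => [F]
  | G :: ρ => if G.1 = F.1 + 1 then (G.1, F.2 + G.2) :: ρ else F :: G :: ρ

/-- The successors of a state with their multiplicities. -/
def succ : St → List (ℕ × St)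
  | [] => [(1, [(1, 1)])]
  | F :: τ => (F.2, (F.1 + 1, F.2 + 1) :: τ) :: (succ τ).map fun x => (x.1, glue F x.2)

/-- The state after the insertion of a new minimum at slot `p`. -/
def step : St → ℕ → St
  | [], _ => [(1, 1)]
  | F :: τ, p => if p < F.2 then (F.1 + 1, F.2 + 1) :: τ else glue F (step τ (p - F.2))

/-- Weighted sum over a list of states with multiplicities. -/
def W (l : List (ℕ × St)) (f : St → ℝ) : ℝ := (l.map fun x => (x.1 : ℝ) * f x.2).sum

/-- The mean of `f` over the state of a random word of length `n`. -/
noncomputable def M : ℕ → (St → ℝ) → ℝ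
  | 0, f => f []
  | n + 1, f => M n fun σ => W (succ σ) f / ((n : ℝ) + 1)

/-- Level of the first packet (`0` if there is none). -/
def top : St → ℕ
  | [] => 0
  | F :: _ => F.1

/-- Size of the first packet (`0` if there is none). -/
def front : St → ℕ
  | [] => 0
  | F :: _ => F.2

/-- The states of words of length `n`. -/
structure Good (n : ℕ) (σ : St) : Prop where
  /-- the sizes sum to `n` -/
  sum : (σ.map Prod.snd).sum = n
  /-- levels and sizes are positive and the level is at most the size -/
  pos : ∀ F ∈ σ, 1 ≤ F.1 ∧ F.1 ≤ F.2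
  /-- the levels are nonincreasing -/
  anti : σ.Pairwise fun F G => G.1 ≤ F.1

/-- Sum over the merges (choices of a packet after the first one which has the same level as the
first one) of the weight times `φ f`, where `f` is what the merge adds to the size of the first
packet. -/
def ms (φ : ℕ → ℝ) : St → ℝ
  | [] => 0
  | F :: τ =>
    ((succ τ).map fun x => if top x.2 = F.1 + 1 then (x.1 : ℝ) * φ (front x.2) else 0).sum

/-- The total weight of the merges. -/
def tie (σ : St) : ℝ := ms (fun _ => 1) σ

/-- The gain of the merges. -/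
def gain (σ : St) : ℝ := ms (fun k => (k : ℝ)) σ

/-- The weight of the light merges. -/
noncomputable def light (σ : St) : ℝ := ms (fun k => if front σ < 2 * k then 1 else 0) σ

/-- The weight of the heavy merges. -/
noncomputable def heavy (σ : St) : ℝ := ms (fun k => if 2 * k ≤ front σ then 1 else 0) σ

/-- `σ_n`. -/
noncomputable def sig (n : ℕ) : ℝ := M n (fun σ => (front σ : ℝ)) / ((n : ℝ) + 1)

/-- `ε_n`. -/
noncomputable def eps (n : ℕ) : ℝ := M n tie / ((n : ℝ) + 1)

/-! ## The potentials -/

/-- Level gap between the first and the second packet. -/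
def gap : St → ℕ
  | [] => 0
  | F :: τ => F.1 - top τ

/-- Size of the second packet. -/
def sec : St → ℕ
  | [] => 0
  | _ :: τ => front τ

/-- The potential against heavy merges. -/
noncomputable def pot (σ : St) : ℝ :=
  if σ ≠ [] ∧ 2 * (sec σ + gap σ) ≤ front σ then (1 / 2) ^ (gap σ + 1) else 0

/-- Harmonic potential `H_{s₁ - 1} - H_n`. -/
noncomputable def harm (n : ℕ) (σ : St) : ℝ :=
  ((harmonic (front σ - 1) : ℚ) : ℝ) - ((harmonic n : ℚ) : ℝ)

/-- Upper half of the beta integral. -/
noncomputable def J (a b : ℕ) : ℝ := ∫ x in (1 / 2 : ℝ)..1, x ^ (a - 1) * (1 - x) ^ (b - 1)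

/-- `1 / B(a, b)`. -/
noncomputable def Binv (a b : ℕ) : ℝ :=
  ((a + b - 1).factorial : ℝ) / (((a - 1).factorial : ℝ) * ((b - 1).factorial : ℝ))

/-- The potential of the upper bound. -/
noncomputable def wpot (a b g : ℕ) : ℝ :=
  Binv a b * (J a (b + 1) - J (a - min g (a - 1)) (b + 1 + min g (a - 1)))

/-- The two body potential of the lower bound. -/
noncomputable def ee (S : ℕ) (a c g : ℕ) : ℝ :=
  if g = 0 then 1 else if S ≤ a then 0 else
    ((a : ℝ) * ee S (a + 1) c (g + 1) + ((c : ℝ) + 1) * ee S a (c + 1) (g - 1)) / ((a : ℝ) + c + 1)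
termination_by (S - a, g)
decreasing_by
  · left; omega
  · right; omega

/-- The potential of the lower bound. -/
noncomputable def vpot (S : ℕ) (σ : St) : ℝ :=
  (front σ : ℝ) + (sec σ : ℝ) * ee S (front σ) (sec σ) (gap σ + 1)

end Pool.Agent.Lib.MP_ad84ff_co
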