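import Pool.Agent.Lib.MP_ad84ff_co.Nu2

section

set_option autoImplicit false

namespace Pool.Agent.Lib.MP_ad84ff_co

/-- Weighted sum over a tree. -/
noncomputable def BT.ws (f : St → ℝ) : BT → ℝ
  | .leaf => 0
  | .node l _ c σ r => BT.ws f l + (c : ℝ) * f σ + BT.ws f r

theorem fN_eq {α : Type} (n : ℕ) (k : ℕ → α) : fN n k = k n := by
  cases n <;> rfl

theorem fS_eq {α : Type} (s : St) (k : St → α) : fS s k = k s := by
  induction s generalizing k with
  | nil => rfl
  | cons F t ih =>
    show fN F.1 (fun a => fN F.2 fun b => fS t fun t => k ((a, b) :: t)) = k (F :: t)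
    rw [fN_eq, fN_eq, ih]

private theorem bif_false_true {b c : Bool} (h : (bif b then c else false) = true) :
    b = true ∧ c = true := by
  cases b
  · cases h
  · exact ⟨rfl, h⟩

theorem beqSt_eq (s t : St) (h : beqSt s t = true) : s = t := by
  induction s generalizing t with
  | nil =>
    cases t with
    | nil => rfl
    | cons G τ => cases (show false = true from h)
  | cons F s ih =>
    cases t with
    | nil => cases (show false = true from h)
    | cons G τ =>
      have h' : (bif Nat.beq F.1 G.1 then (bif Nat.beq F.2 G.2 then beqSt s τ else false)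
        else false) = true := h
      obtain ⟨h1, h2⟩ := bif_false_true h'
      obtain ⟨h3, h4⟩ := bif_false_true h2
      have e1 : F.1 = G.1 := Nat.eq_of_beq_eq_true h1
      have e2 : F.2 = G.2 := Nat.eq_of_beq_eq_true h3
      have e3 : F = G := Prod.ext e1 e2
      rw [e3, ih τ h4]

theorem glueN_eq (a b : ℕ) (s : St) : glueN a b s = glue (a, b) s := by
  cases s with
  | nil => rfl
  | cons G t =>
    show (bif Nat.beq G.1 (Nat.succ a) then (G.1, Nat.add b G.2) :: t else (a, b) :: G :: t)
      = if G.1 = a + 1 then (G.1, b + G.2) :: t else (a, b) :: G :: t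
    by_cases h : G.1 = a + 1
    · have h1 : Nat.beq G.1 (Nat.succ a) = true := by
        rw [h]
        exact Nat.beq_refl (a + 1)
      rw [if_pos h, h1]
      rfl
    · have h1 : Nat.beq G.1 (Nat.succ a) = false := by
        cases hb : Nat.beq G.1 (Nat.succ a)
        · rfl
        · exact absurd (Nat.eq_of_beq_eq_true hb) h
      rw [if_neg h, h1]
      rfl

theorem beqL_eq (s t : List (ℕ × St)) (h : beqL s t = true) : s = t := by
  induction s generalizing t with
  | nil =>
    cases t with
    | nil => rfl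
    | cons G τ => cases (show false = true from h)
  | cons F s ih =>
    cases t with
    | nil => cases (show false = true from h)
    | cons G τ =>
      have h' : (bif Nat.beq F.1 G.1 then (bif beqSt F.2 G.2 then beqL s τ else false)
        else false) = true := h
      obtain ⟨h1, h2⟩ := bif_false_true h'
      obtain ⟨h3, h4⟩ := bif_false_true h2
      have e1 : F.1 = G.1 := Nat.eq_of_beq_eq_true h1
      have e2 : F.2 = G.2 := beqSt_eq _ _ h3
      have e3 : F = G := Prod.ext e1 e2
      rw [e3, ih τ h4]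

theorem pr_eq (s : St) : pr s = [(front s, sec s), (gap s, 0)] := by
  cases s with
  | nil => rfl
  | cons F τ =>
    cases τ with
    | nil => rfl
    | cons G t => rfl

private theorem ins_node (k c : ℕ) (σ : St) (l : BT) (k' c' : ℕ) (σ' : St) (r : BT) :
    BT.ins k c σ (.node l k' c' σ' r) =
      (bif Nat.beq k k' then
        (bif beqSt σ σ' then fN (Nat.add c c') fun c'' => BT.node l k' c'' σ' r
        else BT.node l k' c' σ' (BT.ins k c σ r))
      else (bif Nat.ble k k' then BT.node (BT.ins k c σ l) k' c' σ' r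
      else BT.node l k' c' σ' (BT.ins k c σ r))) := rfl

theorem ws_ins (f : St → ℝ) (k c : ℕ) (σ : St) (t : BT) :
    (BT.ins k c σ t).ws f = (c : ℝ) * f σ + t.ws f := by
  induction t with
  | leaf =>
    show 0 + (c : ℝ) * f σ + 0 = (c : ℝ) * f σ + 0
    ring
  | node l k' c' σ' r ihl ihr =>
    rw [ins_node]
    cases h1 : Nat.beq k k'
    · cases h2 : Nat.ble k k'
      · show (BT.node l k' c' σ' (BT.ins k c σ r)).ws f = _
        simp only [BT.ws]
        rw [ihr]
        ring
      · show (BT.node (BT.ins k c σ l) k' c' σ' r).ws f = _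
        simp only [BT.ws]
        rw [ihl]
        ring
    · cases h2 : beqSt σ σ'
      · show (BT.node l k' c' σ' (BT.ins k c σ r)).ws f = _
        simp only [BT.ws]
        rw [ihr]
        ring
      · have h3 := beqSt_eq σ σ' h2
        show (fN (Nat.add c c') fun c'' => BT.node l k' c'' σ' r).ws f = _
        rw [fN_eq]
        simp only [BT.ws]
        have h4 : ((Nat.add c c' : ℕ) : ℝ) = (c : ℝ) + (c' : ℝ) := by
          show ((c + c' : ℕ) : ℝ) = _
          push_cast
          ring
        rw [h4, h3]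
        ring

private theorem toL_node (l : BT) (k c : ℕ) (σ : St) (r : BT) (acc : List (ℕ × St)) :
    BT.toL (.node l k c σ r) acc = BT.toL l ((c, σ) :: BT.toL r acc) := rfl

theorem ws_toL (f : St → ℝ) (t : BT) (acc : List (ℕ × St)) :
    W (BT.toL t acc) f = t.ws f + W acc f := by
  induction t generalizing acc with
  | leaf =>
    show W acc f = 0 + W acc f
    ring
  | node l k c σ r ihl ihr =>
    rw [toL_node, ihl]
    have h1 : W ((c, σ) :: BT.toL r acc) f = (c : ℝ) * f σ + W (BT.toL r acc) f := by
      simp [W]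
    rw [h1, ihr]
    simp only [BT.ws]
    ring

end Pool.Agent.Lib.MP_ad84ff_co
end

section

set_option autoImplicit false

namespace Pool.Agent.Lib.MP_ad84ff_co

private theorem W_mapG (F : ℕ × ℕ) (l : List (ℕ × St)) (f : St → ℝ) :
    W (l.map fun x => (x.1, glue F x.2)) f = W l (fun ρ => f (glue F ρ)) := by
  induction l with
  | nil => rfl
  | cons x l ih => rw [List.map_cons, W_cons, W_cons, ih]

/-- Induction on `s` generalizing `K` (unfold `addSucc` at a cons; `fS_eq`, `fN_eq`, `ws_ins`,
`glueN_eq`; `succ` at a cons and `W` of a mapped list). -/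
theorem ws_addSucc (f : St → ℝ) (c : ℕ) (s : St) (K : St → St) (t : BT) :
    (addSucc c s K t).ws f = (c : ℝ) * W (succ s) (fun ρ => f (K ρ)) + t.ws f := by
  induction s generalizing K with
  | nil =>
    have e : addSucc c [] K t = fS (K [(1, 1)]) fun σ => fN (code σ) fun k => BT.ins k c σ t := rfl
    rw [e, fS_eq, fN_eq, ws_ins]
    simp only [succ, W_cons, W_nil]
    push_cast
    ring
  | cons F τ ih =>
    have e : addSucc c (F :: τ) K t =
        fS (K ((Nat.succ F.1, Nat.succ F.2) :: τ)) fun σ => fN (code σ) fun k =>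
        fN (Nat.mul c F.2) fun c' =>
          BT.ins k c' σ (addSucc c τ (fun ρ => K (glueN F.1 F.2 ρ)) t) := rfl
    rw [e, fS_eq, fN_eq, fN_eq, ws_ins, ih]
    have e2 : succ (F :: τ) = (F.2, (F.1 + 1, F.2 + 1) :: τ) ::
      (succ τ).map fun x => (x.1, glue F x.2) := rfl
    rw [e2, W_cons, W_mapG]
    have e3 : (fun ρ => f (K (glueN F.1 F.2 ρ))) = fun ρ => f (K (glue F ρ)) := by
      funext ρ; rw [glueN_eq]
    rw [e3]
    have e4 : ((Nat.mul c F.2 : ℕ) : ℝ) = (c : ℝ) * F.2 := Nat.cast_mul c F.2
    rw [e4]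
    ring

/-- Induction on `t` generalizing `acc`. -/
theorem ws_next (f : St → ℝ) (P : St → St) (t acc : BT) :
    (BT.next P t acc).ws f = t.ws (fun σ => W (succ σ) (fun ρ => f (P ρ))) + acc.ws f := by
  induction t generalizing acc with
  | leaf =>
    have e : BT.next P .leaf acc = acc := rfl
    rw [e]; simp [BT.ws]
  | node l k c σ r ihl ihr =>
    have e : BT.next P (.node l k c σ r) acc =
      BT.next P r (addSucc c σ P (BT.next P l acc)) := rfl
    rw [e, ihr, ws_addSucc, ihl]
    simp only [BT.ws]
    ring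

/-- Induction on `n` generalizing `f`. -/
theorem ws_distT (n : ℕ) (f : St → ℝ) : (distT n).ws f = (n.factorial : ℝ) * M n f := by
  induction n generalizing f with
  | zero =>
    have e : distT 0 = .node .leaf 0 1 [] .leaf := rfl
    rw [e, M_zero]; simp [BT.ws]
  | succ n ih =>
    have e : distT (n + 1) = BT.next (fun ρ => ρ) (distT n) .leaf := rfl
    rw [e, ws_next, ih, M_succ]
    have e2 : (fun σ => W (succ σ) f / ((n : ℝ) + 1)) =
        fun σ => (1 / ((n : ℝ) + 1)) * W (succ σ) f := by
      funext σ; ring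
    rw [e2, M_mul, Nat.factorial_succ]
    have h : (n : ℝ) + 1 ≠ 0 := by positivity
    simp only [BT.ws]
    push_cast
    field_simp
    ring

/-- A function of the first two sizes and the gap, on the lists produced by `pr`. -/
noncomputable def onPr (φ : ℕ → ℕ → ℕ → ℝ) : St → ℝ
  | [] => 0
  | F :: τ => φ F.1 F.2 (top τ)

/-- The mean over `tbl`: `tbl_eq`, `beqL_eq`, `ws_toL`, `ws_next`, `ws_distT 14`, `pr_eq`. -/
theorem M_tbl (φ : ℕ → ℕ → ℕ → ℝ) :
    M 15 (fun σ => φ (front σ) (sec σ) (gap σ)) =
      W tbl (onPr φ) / ((Nat.factorial 15 : ℕ) : ℝ) := by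
  have h1 := beqL_eq _ _ tbl_eq
  have h2 : W tbl (onPr φ) = (Nat.factorial 14 : ℝ) *
      M 14 (fun σ => W (succ σ) (fun ρ => φ (front ρ) (sec ρ) (gap ρ))) := by
    rw [← h1, ws_toL, ws_next, ws_distT, W_nil]
    have e : (fun ρ => onPr φ (pr ρ)) = fun ρ => φ (front ρ) (sec ρ) (gap ρ) := by
      funext ρ; rw [pr_eq]; rfl
    rw [e]
    simp only [BT.ws, add_zero]
  rw [h2, M_succ]
  have e2 : (fun σ => W (succ σ) (fun ρ => φ (front ρ) (sec ρ) (gap ρ)) / (((14 : ℕ) : ℝ) + 1)) =
      fun σ => (1 / (((14 : ℕ) : ℝ) + 1)) *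
        W (succ σ) (fun ρ => φ (front ρ) (sec ρ) (gap ρ)) := by
    funext σ; ring
  rw [e2, M_mul, Nat.factorial_succ 14]
  have h : (Nat.factorial 14 : ℝ) ≠ 0 := by
    exact_mod_cast Nat.factorial_ne_zero 14
  push_cast
  field_simp
  ring

end Pool.Agent.Lib.MP_ad84ff_co
end
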