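import Pool.Agent.Lib.MP_ad84ff_co.Defs

section

section

set_option autoImplicit false

namespace Pool.Agent.Lib.MP_ad84ff_co

/-- Total weight of the successors. Induction on `σ`. -/
theorem succ_weight (σ : St) : ((succ σ).map Prod.fst).sum = (σ.map Prod.snd).sum + 1 := by
  induction σ with
  | nil => simp [succ]
  | cons F τ ih =>
    simp only [succ, List.map_cons, List.sum_cons, List.map_map]
    have h : (List.map (Prod.fst ∘ fun x : ℕ × St => (x.1, glue F x.2)) (succ τ)) =
        (succ τ).map Prod.fst := by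
      apply List.map_congr_left
      intro x _
      rfl
    rw [h, ih]
    ring

theorem glue_top (F : ℕ × ℕ) (ρ : St) :
    top (glue F ρ) = if top ρ = F.1 + 1 then F.1 + 1 else F.1 := by
  cases ρ with
  | nil => simp [glue, top]
  | cons G ρ =>
    simp only [glue]
    by_cases h : G.1 = F.1 + 1
    · simp [top, h]
    · simp [top, h]

theorem glue_front (F : ℕ × ℕ) (ρ : St) :
    front (glue F ρ) = if top ρ = F.1 + 1 then F.2 + front ρ else F.2 := by
  cases ρ with
  | nil => simp [glue, top, front]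
  | cons G ρ =>
    simp only [glue]
    by_cases h : G.1 = F.1 + 1
    · simp [top, front, h]
    · simp [top, front, h]

/-- From `glue_top`. -/
theorem succ_top (σ : St) : ∀ x ∈ succ σ, top σ ≤ top x.2 ∧ top x.2 ≤ top σ + 1 := by
  intro x hx
  cases σ with
  | nil =>
    simp only [succ, List.mem_singleton] at hx
    subst hx
    simp [top]
  | cons F τ =>
    simp only [succ, List.mem_cons, List.mem_map] at hx
    rcases hx with hx | ⟨y, _, hx⟩
    · subst hx
      simp [top]
    · subst hx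
      simp only [glue_top]
      simp only [top]
      split_ifs <;> omega

theorem succ_ne_nil (σ : St) : ∀ x ∈ succ σ, x.2 ≠ [] := by
  intro x hx
  cases σ with
  | nil =>
    simp only [succ, List.mem_singleton] at hx
    subst hx
    simp
  | cons F τ =>
    simp only [succ, List.mem_cons, List.mem_map] at hx
    rcases hx with hx | ⟨y, _, hx⟩
    · subst hx
      simp
    · subst hx
      simp only
      cases y.2 with
      | nil => simp [glue]
      | cons G ρ =>
        simp only [glue]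
        split_ifs <;> simp

end Pool.Agent.Lib.MP_ad84ff_co
end

section

set_option autoImplicit false

namespace Pool.Agent.Lib.MP_ad84ff_co

private theorem top_le {F : ℕ × ℕ} {τ : St} (h : (F :: τ).Pairwise fun F G => G.1 ≤ F.1) :
    top τ ≤ F.1 := by
  cases τ with
  | nil => exact Nat.zero_le _
  | cons G τ => exact (List.pairwise_cons.1 h).1 G (List.mem_cons_self)

private theorem succ_struct (σ : St) (h : σ.Pairwise fun F G => G.1 ≤ F.1) :
    ∀ x ∈ succ σ, ∃ G ρ, x.2 = G :: ρ ∧ G.1 ≤ top σ + 1 ∧ ∀ H ∈ ρ, H.1 ≤ top σ := by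
  induction σ with
  | nil =>
    intro x hx
    rw [succ, List.mem_singleton] at hx
    subst hx
    exact ⟨(1, 1), [], rfl, le_rfl, fun H hH => absurd hH (by simp)⟩
  | cons F τ ih =>
    intro x hx
    have hF := List.pairwise_cons.1 h
    have ht := top_le h
    rw [succ, List.mem_cons] at hx
    rcases hx with rfl | hx
    · exact ⟨(F.1 + 1, F.2 + 1), τ, rfl, le_rfl, fun H hH => hF.1 H hH⟩
    · rw [List.mem_map] at hx
      obtain ⟨y, hy, rfl⟩ := hx
      obtain ⟨G, ρ, h1, h2, h3⟩ := ih hF.2 y hy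
      show ∃ G' ρ', glue F y.2 = G' :: ρ' ∧ G'.1 ≤ F.1 + 1 ∧ ∀ H ∈ ρ', H.1 ≤ F.1
      rw [h1, glue]
      by_cases hg : G.1 = F.1 + 1
      · rw [if_pos hg]
        exact ⟨(G.1, F.2 + G.2), ρ, rfl, hg.le, fun H hH => (h3 H hH).trans ht⟩
      · rw [if_neg hg]
        refine ⟨F, G :: ρ, rfl, Nat.le_succ _, fun H hH => ?_⟩
        rcases List.mem_cons.1 hH with rfl | hH
        · omega
        · exact (h3 H hH).trans ht

/-- `Good` is preserved.  Induction on `σ` generalizing `n` (in the induction step apply the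
hypothesis to `τ` with `n - F.2`); `glue F ρ` keeps the sum of sizes; the levels of `ρ` are
`≤ F.1 + 1` and only the first one can be `F.1 + 1` or, when it is, it is absorbed together with
`F`, and the later ones are `≤ F.1`: for this prove by the same induction that in every successor
all levels after the first packet are `≤ top σ`. -/
theorem succ_good (n : ℕ) (σ : St) (h : Good n σ) : ∀ x ∈ succ σ, Good (n + 1) x.2 := by
  induction σ generalizing n with
  | nil =>
    intro x hx
    rw [succ, List.mem_singleton] at hx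
    subst hx
    have h0 := h.sum
    simp only [List.map_nil, List.sum_nil] at h0
    subst h0
    refine ⟨by simp, ?_, by simp⟩
    intro F hF
    rw [List.mem_singleton] at hF
    subst hF
    exact ⟨le_rfl, le_rfl⟩
  | cons F τ ih =>
    intro x hx
    have hs := h.sum
    rw [List.map_cons, List.sum_cons] at hs
    have hp := h.pos
    have ha := List.pairwise_cons.1 h.anti
    have hτ : Good (n - F.2) τ := by
      refine ⟨by omega, fun G hG => hp G (List.mem_cons_of_mem _ hG), ha.2⟩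
    have hpF := hp F List.mem_cons_self
    rw [succ, List.mem_cons] at hx
    rcases hx with rfl | hx
    · refine ⟨?_, ?_, ?_⟩
      · simp only [List.map_cons, List.sum_cons]
        omega
      · intro G hG
        rcases List.mem_cons.1 hG with rfl | hG
        · show 1 ≤ F.1 + 1 ∧ F.1 + 1 ≤ F.2 + 1
          omega
        · exact hp G (List.mem_cons_of_mem _ hG)
      · refine List.pairwise_cons.2 ⟨fun G hG => ?_, ha.2⟩
        show G.1 ≤ F.1 + 1
        have := ha.1 G hG
        omega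
    · rw [List.mem_map] at hx
      obtain ⟨y, hy, rfl⟩ := hx
      have hg := ih (n - F.2) hτ y hy
      obtain ⟨G, ρ, h1, h2, h3⟩ := succ_struct τ ha.2 y hy
      have ht := top_le h.anti
      show Good (n + 1) (glue F y.2)
      rw [h1] at hg ⊢
      have gs := hg.sum
      rw [List.map_cons, List.sum_cons] at gs
      have gp := hg.pos
      have ga := List.pairwise_cons.1 hg.anti
      have gG := gp G List.mem_cons_self
      rw [glue]
      by_cases hc : G.1 = F.1 + 1
      · rw [if_pos hc]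
        refine ⟨?_, ?_, ?_⟩
        · simp only [List.map_cons, List.sum_cons]
          omega
        · intro H hH
          rcases List.mem_cons.1 hH with rfl | hH
          · show 1 ≤ G.1 ∧ G.1 ≤ F.2 + G.2
            omega
          · exact gp H (List.mem_cons_of_mem _ hH)
        · exact List.pairwise_cons.2 ⟨fun H hH => ga.1 H hH, ga.2⟩
      · rw [if_neg hc]
        refine ⟨?_, ?_, ?_⟩
        · simp only [List.map_cons, List.sum_cons]
          omega
        · intro H hH
          rcases List.mem_cons.1 hH with rfl | hH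
          · exact hpF
          · exact gp H hH
        · refine List.pairwise_cons.2 ⟨fun H hH => ?_, hg.anti⟩
          rcases List.mem_cons.1 hH with rfl | hH
          · omega
          · exact (h3 H hH).trans ht

end Pool.Agent.Lib.MP_ad84ff_co
end

section

set_option autoImplicit false

namespace Pool.Agent.Lib.MP_ad84ff_co

theorem W_nil (f : St → ℝ) : W [] f = 0 := by
  simp [W]

theorem W_cons (x : ℕ × St) (l : List (ℕ × St)) (f : St → ℝ) :
    W (x :: l) f = (x.1 : ℝ) * f x.2 + W l f := by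
  simp [W]

theorem W_add (l : List (ℕ × St)) (f g : St → ℝ) : W l (fun σ => f σ + g σ) = W l f + W l g := by
  induction l with
  | nil => simp [W_nil]
  | cons x l ih => rw [W_cons, W_cons, W_cons, ih]; ring

theorem W_mul (l : List (ℕ × St)) (c : ℝ) (f : St → ℝ) : W l (fun σ => c * f σ) = c * W l f := by
  induction l with
  | nil => simp [W_nil]
  | cons x l ih => rw [W_cons, W_cons, ih]; ring

theorem W_mono (l : List (ℕ × St)) (f g : St → ℝ) (h : ∀ x ∈ l, f x.2 ≤ g x.2) : W l f ≤ W l g := by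
  induction l with
  | nil => simp [W_nil]
  | cons x l ih =>
    rw [W_cons, W_cons]
    have h1 := ih fun y hy => h y (List.mem_cons_of_mem _ hy)
    have h2 := mul_le_mul_of_nonneg_left (h x List.mem_cons_self) (Nat.cast_nonneg (α := ℝ) x.1)
    linarith

/-- From `succ_weight`. -/
theorem W_const (n : ℕ) (σ : St) (h : Good n σ) (c : ℝ) :
    W (succ σ) (fun _ => c) = ((n : ℝ) + 1) * c := by
  have h1 : ∀ l : List (ℕ × St), W l (fun _ => c) = (((l.map Prod.fst).sum : ℕ) : ℝ) * c := by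
    intro l
    induction l with
    | nil => simp [W_nil]
    | cons x l ih =>
      rw [W_cons, ih, List.map_cons, List.sum_cons]
      push_cast
      ring
  rw [h1, succ_weight, h.sum]
  push_cast
  ring

theorem M_zero (f : St → ℝ) : M 0 f = f [] := rfl

theorem M_succ (n : ℕ) (f : St → ℝ) :
    M (n + 1) f = M n (fun σ => W (succ σ) f / ((n : ℝ) + 1)) := rfl

theorem M_add (n : ℕ) (f g : St → ℝ) : M n (fun σ => f σ + g σ) = M n f + M n g := by
  induction n generalizing f g with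
  | zero => rfl
  | succ n ih =>
    rw [M_succ, M_succ, M_succ, ← ih]
    congr 1
    funext σ
    rw [W_add, add_div]

theorem M_mul (n : ℕ) (c : ℝ) (f : St → ℝ) : M n (fun σ => c * f σ) = c * M n f := by
  induction n generalizing f with
  | zero => rfl
  | succ n ih =>
    rw [M_succ, M_succ, ← ih]
    congr 1
    funext σ
    rw [W_mul, mul_div_assoc]

/-- Monotonicity over the states of total size `n` (induction on `n`, `succ_good`). -/
theorem M_mono (n : ℕ) (f g : St → ℝ) (h : ∀ σ, Good n σ → f σ ≤ g σ) : M n f ≤ M n g := by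
  induction n generalizing f g with
  | zero =>
    rw [M_zero, M_zero]
    exact h [] ⟨by simp, by simp, by simp⟩
  | succ n ih =>
    rw [M_succ, M_succ]
    apply ih
    intro σ hσ
    apply div_le_div_of_nonneg_right _ (by positivity)
    exact W_mono _ _ _ fun x hx => h x.2 (succ_good n σ hσ x hx)

theorem M_congr (n : ℕ) (f g : St → ℝ) (h : ∀ σ, Good n σ → f σ = g σ) : M n f = M n g :=
  le_antisymm (M_mono n f g fun σ hσ => (h σ hσ).le) (M_mono n g f fun σ hσ => (h σ hσ).ge)

theorem M_const (n : ℕ) (c : ℝ) : M n (fun _ => c) = c := by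
  induction n with
  | zero => rfl
  | succ n ih =>
    rw [M_succ, ← ih]
    apply M_congr
    intro σ hσ
    rw [ih, W_const n σ hσ]
    have : ((n : ℝ) + 1) ≠ 0 := by positivity
    field_simp

theorem M_nonneg (n : ℕ) (f : St → ℝ) (h : ∀ σ, Good n σ → 0 ≤ f σ) : 0 ≤ M n f := by
  have h1 := M_mono n (fun _ => 0) f h
  rwa [M_const] at h1

end Pool.Agent.Lib.MP_ad84ff_co
end
end

section

/-!
# Kernel computation of the distribution of the chain

All functions are written with recursors, so that the kernel evaluates them quickly.  `fN` and `fS`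
force the evaluation of their argument.  The distribution after `n` steps is kept in a binary search
tree ordered by a scrambled code of the state.
-/

set_option autoImplicit false

namespace Pool.Agent.Lib.MP_ad84ff_co

/-- Evaluate a number before it is used: `fN n k = k n`. -/
noncomputable def fN {α : Type} (n : ℕ) (k : ℕ → α) : α :=
  Nat.rec (k 0) (fun m _ => k (Nat.succ m)) n

/-- Evaluate a state before it is used: `fS s k = k s`. -/
noncomputable def fS {α : Type} (s : St) : (St → α) → α :=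
  List.rec (fun k => k [])
    (fun F _ ih k => fN F.1 fun a => fN F.2 fun b => ih fun t => k ((a, b) :: t)) s

/-- Binary trees of states with multiplicities; `k` is the key, `c` the multiplicity. -/
inductive BT where
  | leaf : BT
  | node (l : BT) (k c : ℕ) (σ : St) (r : BT) : BT

/-- Scrambled code of a state. -/
noncomputable def code (s : St) : ℕ :=
  Nat.mod (Nat.mul 1181783497276652981
    (List.rec 0 (fun F _ ih => Nat.add F.1 (Nat.mul 32 (Nat.add F.2 (Nat.mul 32 ih)))) s))
    2305843009213693951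

/-- Equality test of states. -/
noncomputable def beqSt (s : St) : St → Bool :=
  List.rec (fun t => List.rec true (fun _ _ _ => false) t)
    (fun F _ ih t => List.rec false (fun G τ _ =>
      bif Nat.beq F.1 G.1 then bif Nat.beq F.2 G.2 then ih τ else false else false) t) s

/-- `glue (a, b) s`. -/
noncomputable def glueN (a b : ℕ) (s : St) : St :=
  List.rec [(a, b)] (fun G t _ =>
    bif Nat.beq G.1 (Nat.succ a) then (G.1, Nat.add b G.2) :: t else (a, b) :: G :: t) s

/-- Insertion of a state `σ` with key `k` and multiplicity `c`. -/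
noncomputable def BT.ins (k c : ℕ) (σ : St) (t : BT) : BT :=
  BT.rec (.node .leaf k c σ .leaf) (fun l k' c' σ' r ihl ihr =>
    bif Nat.beq k k' then
      bif beqSt σ σ' then fN (Nat.add c c') fun c'' => .node l k' c'' σ' r
      else .node l k' c' σ' ihr
    else bif Nat.ble k k' then .node ihl k' c' σ' r
    else .node l k' c' σ' ihr) t

/-- Insert all successors of `s`, with multiplicities times `c`, each one mapped by `K`. -/
noncomputable def addSucc (c : ℕ) (s : St) : (St → St) → BT → BT :=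
  List.rec (fun K t => fS (K [(1, 1)]) fun σ => fN (code σ) fun k => BT.ins k c σ t)
    (fun F τ ih K t =>
      fS (K ((Nat.succ F.1, Nat.succ F.2) :: τ)) fun σ => fN (code σ) fun k =>
        fN (Nat.mul c F.2) fun c' =>
          BT.ins k c' σ (ih (fun ρ => K (glueN F.1 F.2 ρ)) t)) s

/-- One step of the chain, each new state mapped by `P`. -/
noncomputable def BT.next (P : St → St) (t : BT) : BT → BT :=
  BT.rec (fun acc => acc) (fun _ _ c σ _ ihl ihr acc => ihr (addSucc c σ P (ihl acc))) t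

/-- The distribution after `n` steps. -/
noncomputable def distT (n : ℕ) : BT :=
  Nat.rec (.node .leaf 0 1 [] .leaf) (fun _ t => BT.next (fun ρ => ρ) t .leaf) n

/-- Sizes of the first two packets and the level gap, kept as a list of pairs. -/
noncomputable def pr (s : St) : St :=
  List.rec [(0, 0), (0, 0)] (fun F τ _ =>
    List.rec [(F.2, 0), (F.1, 0)] (fun G _ _ => [(F.2, G.2), (Nat.sub F.1 G.1, 0)]) τ) s

/-- In-order list of a tree. -/
noncomputable def BT.toL (t : BT) : List (ℕ × St) → List (ℕ × St) :=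
  BT.rec (fun acc => acc) (fun _ _ c σ _ ihl ihr acc => ihl ((c, σ) :: ihr acc)) t

/-- Equality test of lists of states with multiplicities. -/
noncomputable def beqL (s : List (ℕ × St)) : List (ℕ × St) → Bool :=
  List.rec (fun t => List.rec true (fun _ _ _ => false) t)
    (fun F _ ih t => List.rec false (fun G τ _ =>
      bif Nat.beq F.1 G.1 then bif beqSt F.2 G.2 then ih τ else false else false) t) s

end Pool.Agent.Lib.MP_ad84ff_co
end

section

set_option autoImplicit false
set_option maxRecDepth 100000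

namespace Pool.Agent.Lib.MP_ad84ff_co

/-- Distribution of (first size, second size, gap) after 15 steps. -/
def tbl : List (ℕ × St) := [
  (45820836, [(5, 7), (2, 0)]), (6686064000, [(13, 2), (8, 0)]), (7702499, [(12, 1), (3, 0)]),
  (86037840, [(8, 5), (6, 0)]), (239609326, [(7, 4), (1, 0)]), (594663552, [(10, 2), (5, 0)]),
  (263713572, [(9, 6), (0, 0)]), (1708176, [(5, 5), (3, 0)]), (24000, [(5, 10), (3, 0)]),
  (7911318, [(7, 2), (2, 0)]), (2313719214, [(7, 7), (2, 0)]), (19602538, [(14, 1), (3, 0)]),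
  (9327, [(2, 5), (0, 0)]), (133, [(2, 10), (0, 0)]), (10212713280, [(10, 5), (6, 0)]),
  (182215417, [(9, 4), (1, 0)]), (1470106440, [(12, 2), (5, 0)]), (2275076880, [(7, 5), (3, 0)]),
  (9233668080, [(15, 0), (9, 0)]), (15799432320, [(10, 3), (7, 0)]), (9960308, [(9, 2), (2, 0)]),
  (147684756, [(4, 5), (0, 0)]), (18681062400, [(13, 1), (11, 0)]),
  (44148984, [(4, 10), (0, 0)]), (90660867, [(11, 4), (1, 0)]), (2473080480, [(7, 3), (4, 0)]),
  (216154080, [(7, 8), (4, 0)]), (233513280, [(10, 1), (8, 0)]), (3654552864, [(9, 5), (3, 0)]),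
  (105924078, [(4, 3), (1, 0)]), (9026802, [(4, 8), (1, 0)]), (7666021440, [(12, 3), (7, 0)]),
  (12525138, [(11, 2), (2, 0)]), (463320, [(7, 1), (5, 0)]), (10759680, [(7, 6), (5, 0)]),
  (363914165, [(6, 5), (0, 0)]), (1104715248, [(9, 3), (4, 0)]), (234, [(4, 1), (2, 0)]),
  (151692, [(4, 6), (2, 0)]), (1862451360, [(12, 1), (8, 0)]), (2178, [(4, 11), (2, 0)]),
  (31751888, [(6, 3), (1, 0)]), (1034370248, [(6, 8), (1, 0)]), (11184112, [(13, 2), (2, 0)]),
  (7428960, [(9, 1), (5, 0)]), (5079076800, [(9, 6), (5, 0)]), (122273295, [(8, 5), (0, 0)]),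
  (1334737440, [(11, 3), (4, 0)]), (1815, [(6, 1), (2, 0)]), (828707480, [(6, 6), (2, 0)]),
  (8782076160, [(14, 1), (8, 0)]), (3982265280, [(9, 4), (6, 0)]), (25008555, [(8, 3), (1, 0)]),
  (28540512000, [(12, 2), (10, 0)]), (148787640, [(11, 1), (5, 0)]),
  (64305775, [(10, 5), (0, 0)]), (426413400, [(6, 4), (3, 0)]),
  (43589145600, [(15, 0), (14, 0)]), (58087440, [(6, 9), (3, 0)]),
  (3378735360, [(9, 2), (7, 0)]), (8862, [(8, 1), (2, 0)]), (8201350715, [(8, 6), (2, 0)]),
  (102336, [(15, 0), (3, 0)]), (9235578, [(3, 4), (0, 0)]), (1359689, [(3, 9), (0, 0)]),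
  (9226919520, [(11, 4), (6, 0)]), (14452200, [(10, 3), (1, 0)]), (99167640, [(6, 2), (4, 0)]),
  (1194600, [(6, 7), (4, 0)]), (828266256, [(13, 1), (5, 0)]), (2042091744, [(8, 4), (3, 0)]),
  (877162, [(3, 2), (1, 0)]), (11816, [(3, 7), (1, 0)]), (3115929600, [(11, 2), (7, 0)]),
  (32158, [(10, 1), (2, 0)]), (180, [(3, 12), (1, 0)]), (93231098, [(5, 4), (0, 0)]),
  (384423297, [(5, 9), (0, 0)]), (8028259, [(12, 3), (1, 0)]), (102471600, [(8, 2), (4, 0)]),
  (2669864820, [(8, 7), (4, 0)]), (1181522340, [(10, 4), (3, 0)]), (533632, [(5, 2), (1, 0)]),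
  (313466004, [(5, 7), (1, 0)]), (4448822400, [(13, 2), (7, 0)]), (85927, [(12, 1), (2, 0)]),
  (1590011640, [(8, 5), (5, 0)]), (43309581, [(7, 4), (0, 0)]), (7221312000, [(11, 3), (9, 0)]),
  (328316616, [(10, 2), (4, 0)]), (121057944, [(5, 5), (2, 0)]),
  (87178291200, [(14, 1), (13, 0)]), (13821540, [(5, 10), (2, 0)]),
  (497070000, [(8, 3), (6, 0)]), (366768, [(7, 2), (1, 0)]), (3039925310, [(7, 7), (1, 0)]),
  (135744, [(14, 1), (2, 0)]), (3632428800, [(11, 1), (10, 0)]),
  (17767732752, [(10, 5), (5, 0)]), (13310196, [(9, 4), (0, 0)]), (10158720, [(5, 3), (3, 0)]),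
  (119136, [(5, 8), (3, 0)]), (662709450, [(12, 2), (4, 0)]), (17297280, [(8, 1), (7, 0)]),
  (5958475374, [(7, 5), (2, 0)]), (7510737024, [(15, 0), (8, 0)]), (49390, [(2, 3), (0, 0)]),
  (721, [(2, 8), (0, 0)]), (5156948160, [(10, 3), (6, 0)]), (252568, [(9, 2), (1, 0)]),
  (13, [(2, 13), (0, 0)]), (24024, [(5, 1), (4, 0)]), (11017036800, [(13, 1), (10, 0)]),
  (5444674, [(11, 4), (0, 0)]), (493091040, [(7, 3), (3, 0)]), (14, [(2, 1), (1, 0)]),
  (1133851680, [(7, 8), (3, 0)]), (110769120, [(10, 1), (7, 0)]), (1329124444, [(9, 5), (2, 0)]),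
  (6481803, [(4, 3), (0, 0)]), (71934811, [(4, 8), (0, 0)]), (4482411120, [(12, 3), (6, 0)]),
  (160301, [(11, 2), (1, 0)]), (166320, [(7, 1), (4, 0)]), (439125120, [(7, 6), (4, 0)]),
  (1448979840, [(10, 4), (8, 0)]), (468083056, [(9, 3), (3, 0)]), (12, [(4, 1), (1, 0)]),
  (21536574, [(4, 6), (1, 0)]), (1195642800, [(12, 1), (7, 0)]), (2860569, [(4, 11), (1, 0)]),
  (62797680, [(7, 4), (5, 0)]), (2230970, [(6, 3), (0, 0)]), (1098987448, [(6, 8), (0, 0)]),
  (86002, [(13, 2), (1, 0)]), (4183248, [(9, 1), (4, 0)]), (7882826784, [(9, 6), (4, 0)]),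
  (904170, [(4, 4), (2, 0)]), (10746, [(4, 9), (2, 0)]), (695358180, [(11, 3), (3, 0)]),
  (10, [(6, 1), (1, 0)]), (1607008628, [(6, 6), (1, 0)]), (6698741400, [(14, 1), (7, 0)]),
  (12548645760, [(9, 4), (5, 0)]), (686295, [(8, 3), (0, 0)]), (11176704000, [(12, 2), (9, 0)]),
  (33433380, [(11, 1), (4, 0)]), (2697825280, [(6, 4), (2, 0)]),
  (29059430400, [(15, 0), (13, 0)]), (441272820, [(6, 9), (2, 0)]),
  (950443200, [(9, 2), (6, 0)]), (8, [(8, 1), (1, 0)]), (1748474159, [(8, 6), (1, 0)]),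
  (1, [(15, 0), (2, 0)]), (4578509520, [(11, 4), (5, 0)]), (200473, [(10, 3), (0, 0)]),
  (16610880, [(6, 2), (3, 0)]), (119594040, [(6, 7), (3, 0)]), (184617324, [(13, 1), (4, 0)]),
  (241758720, [(9, 5), (7, 0)]), (642095053, [(8, 4), (2, 0)]), (39677, [(3, 2), (0, 0)]),
  (3137177, [(3, 7), (0, 0)]), (1678834080, [(11, 2), (6, 0)]), (6, [(10, 1), (1, 0)]),
  (465380, [(3, 12), (0, 0)]), (6990000, [(6, 5), (4, 0)]), (63681, [(12, 3), (0, 0)]),
  (41267100, [(8, 2), (3, 0)]), (4148102742, [(8, 7), (3, 0)]), (68968, [(3, 5), (1, 0)]),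
  (872, [(3, 10), (1, 0)]), (509307921, [(10, 4), (2, 0)]), (5268, [(5, 2), (0, 0)]),
  (469606205, [(5, 7), (0, 0)]), (3097686240, [(13, 2), (6, 0)]), (4, [(12, 1), (1, 0)]),
  (3843822780, [(8, 5), (4, 0)]), (23149929600, [(11, 3), (8, 0)]),
  (105784668, [(10, 2), (3, 0)]), (510331040, [(5, 5), (1, 0)]),
  (40475635200, [(14, 1), (12, 0)]), (150532876, [(5, 10), (1, 0)]),
  (5272638840, [(8, 3), (5, 0)]), (714, [(7, 2), (0, 0)]), (3040111424, [(7, 7), (0, 0)]),
  (2, [(14, 1), (1, 0)]), (1297296000, [(11, 1), (9, 0)]), (5976605952, [(10, 5), (4, 0)]),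
  (365010852, [(5, 3), (2, 0)]), (27807420, [(5, 8), (2, 0)]), (141740808, [(12, 2), (3, 0)]),
  (4324320, [(8, 1), (6, 0)]), (34549200, [(8, 6), (6, 0)]), (1050880660, [(7, 5), (1, 0)]),
  (3694543272, [(15, 0), (7, 0)]), (2309377392, [(10, 3), (5, 0)]), (99, [(9, 2), (0, 0)]),
  (3432, [(5, 1), (3, 0)]), (695016, [(5, 6), (3, 0)]), (6909598080, [(13, 1), (9, 0)]),
  (133944192, [(7, 3), (2, 0)]), (2118101400, [(7, 8), (2, 0)]), (3982, [(2, 6), (0, 0)]),
  (58078944, [(10, 1), (6, 0)]), (59, [(2, 11), (0, 0)]), (448011602, [(9, 5), (1, 0)]),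
  (2811544560, [(12, 3), (5, 0)]), (14, [(11, 2), (0, 0)]), (72468, [(7, 1), (3, 0)]),
  (1576536240, [(7, 6), (3, 0)]), (6835933440, [(10, 4), (7, 0)]), (200717972, [(9, 3), (2, 0)]),
  (113064620, [(4, 6), (0, 0)]), (43110144000, [(13, 2), (11, 0)]),
  (811079280, [(12, 1), (6, 0)]), (38976992, [(4, 11), (0, 0)]), (1026992160, [(7, 4), (4, 0)]),
  (2, [(13, 2), (0, 0)]), (8307411840, [(10, 2), (8, 0)]), (549192, [(9, 1), (3, 0)]),
  (12028244856, [(9, 6), (3, 0)]), (45839088, [(4, 4), (1, 0)]), (5659293, [(4, 9), (1, 0)]),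
  (129106170, [(11, 3), (2, 0)]), (364431600, [(7, 2), (5, 0)]), (4318560, [(7, 7), (5, 0)]),
  (2318472269, [(6, 6), (0, 0)]), (3950641056, [(14, 1), (6, 0)]),
  (3577254240, [(9, 4), (4, 0)]), (5003076, [(4, 2), (2, 0)]), (62028, [(4, 7), (2, 0)]),
  (6067353600, [(12, 2), (8, 0)]), (3632354, [(11, 1), (3, 0)]), (379646166, [(6, 4), (1, 0)]),
  (20341601280, [(15, 0), (12, 0)]), (1040660862, [(6, 9), (1, 0)]),
  (385439040, [(9, 2), (5, 0)]), (366338812, [(8, 6), (0, 0)]), (2422544040, [(11, 4), (4, 0)]),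
  (4009280, [(6, 2), (2, 0)]), (696714900, [(6, 7), (2, 0)]), (13934602, [(13, 1), (3, 0)]),
  (3026882880, [(9, 5), (6, 0)]), (185569958, [(8, 4), (1, 0)]),
  (14489798400, [(12, 3), (10, 0)]), (990674640, [(11, 2), (5, 0)]),
  (330667860, [(6, 5), (3, 0)]), (1417973760, [(9, 3), (7, 0)]), (8455068, [(8, 2), (2, 0)]),
  (5443743634, [(8, 7), (2, 0)]), (7677718, [(3, 5), (0, 0)]), (14529715200, [(12, 1), (11, 0)]),
  (877714, [(3, 10), (0, 0)]), (120814785, [(10, 4), (1, 0)]), (41842680, [(6, 3), (4, 0)]),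
  (479640, [(6, 8), (4, 0)]), (2244643560, [(13, 2), (5, 0)]), (121080960, [(9, 1), (8, 0)]),
  (9077560170, [(8, 5), (3, 0)]), (385980, [(3, 3), (1, 0)]), (4900, [(3, 8), (1, 0)]),
  (8573644800, [(11, 3), (7, 0)]), (11840271, [(10, 2), (2, 0)]), (240240, [(6, 1), (5, 0)]),
  (1300713937, [(5, 5), (0, 0)]), (25427001600, [(14, 1), (11, 0)]),
  (355659738, [(5, 10), (0, 0)]), (1271536140, [(8, 3), (4, 0)]), (182, [(3, 1), (2, 0)]),
  (665280000, [(11, 1), (8, 0)]), (2573624196, [(10, 5), (3, 0)]), (40630756, [(5, 3), (1, 0)]),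
  (220570072, [(5, 8), (1, 0)]), (11652174, [(12, 2), (2, 0)]), (1718640, [(8, 1), (5, 0)]),
  (953154720, [(8, 6), (5, 0)]), (188757509, [(7, 5), (0, 0)]), (1327516164, [(15, 0), (6, 0)]),
  (3628800000, [(11, 4), (9, 0)]), (1117558656, [(10, 3), (4, 0)]), (968, [(5, 1), (2, 0)]),
  (70219128, [(5, 6), (2, 0)]), (4654393920, [(13, 1), (8, 0)]), (204296400, [(8, 4), (6, 0)]),
  (35872032, [(7, 3), (1, 0)]), (2664178314, [(7, 8), (1, 0)]), (34044192, [(10, 1), (5, 0)]),
  (102670689, [(9, 5), (0, 0)]), (4196016, [(5, 4), (3, 0)]), (47904, [(5, 9), (3, 0)]),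
  (1659951720, [(12, 3), (4, 0)]), (4485, [(7, 1), (2, 0)]), (2966058996, [(7, 6), (2, 0)]),
  (21643, [(2, 4), (0, 0)]), (309, [(2, 9), (0, 0)]), (17506359360, [(10, 4), (6, 0)]),
  (19083752, [(9, 3), (1, 0)]), (18441561600, [(13, 2), (10, 0)]),
  (375960000, [(12, 1), (5, 0)]), (5261709480, [(7, 4), (3, 0)]),
  (2644669440, [(10, 2), (7, 0)]), (17668, [(9, 1), (2, 0)]), (3335233896, [(9, 6), (2, 0)]),
  (317580684, [(4, 4), (0, 0)]), (54484582, [(4, 9), (0, 0)]), (10422398, [(11, 3), (1, 0)]),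
  (75077640, [(7, 2), (4, 0)]), (292067640, [(7, 7), (4, 0)]), (1385028276, [(14, 1), (5, 0)]),
  (726122880, [(10, 5), (8, 0)]), (1366097896, [(9, 4), (3, 0)]), (438180, [(4, 2), (1, 0)]),
  (14215578, [(4, 7), (1, 0)]), (3524653440, [(12, 2), (7, 0)]), (55023, [(11, 1), (2, 0)]),
  (25607520, [(7, 5), (5, 0)]), (53594745, [(6, 4), (0, 0)]), (15100525440, [(15, 0), (11, 0)]),
  (1060553313, [(6, 9), (0, 0)]), (173727792, [(9, 2), (4, 0)]), (371814, [(4, 5), (2, 0)]),
  (4338, [(4, 10), (2, 0)]), (1300807650, [(11, 4), (3, 0)]), (402126, [(6, 2), (1, 0)]),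
  (1194883278, [(6, 7), (1, 0)]), (119032, [(13, 1), (2, 0)]), (6233666880, [(9, 5), (5, 0)]),
  (22820068, [(8, 4), (0, 0)]), (33629904000, [(12, 3), (9, 0)]), (624017880, [(11, 2), (4, 0)]),
  (1206499590, [(6, 5), (2, 0)]), (9952488000, [(9, 3), (6, 0)]), (301314, [(8, 2), (1, 0)]),
  (6422150640, [(8, 7), (1, 0)]), (5708102400, [(12, 1), (10, 0)]), (8394945, [(10, 4), (0, 0)]),
  (1024478040, [(6, 3), (3, 0)]), (77331960, [(6, 8), (3, 0)]), (747326088, [(13, 2), (4, 0)]),
  (34594560, [(9, 1), (7, 0)]), (121040640, [(9, 6), (7, 0)]), (2107919612, [(8, 5), (2, 0)]),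
  (20659361, [(3, 3), (0, 0)]), (2040577, [(3, 8), (0, 0)]), (4276692000, [(11, 3), (6, 0)]),
  (203060, [(10, 2), (1, 0)]), (42900, [(6, 1), (4, 0)]), (2843640, [(6, 6), (4, 0)]),
  (16864848000, [(14, 1), (10, 0)]), (425608050, [(8, 3), (3, 0)]), (13, [(3, 1), (1, 0)]),
  (28604, [(3, 6), (1, 0)]), (370893600, [(11, 1), (7, 0)]), (356, [(3, 11), (1, 0)]),
  (1087927554, [(10, 5), (2, 0)]), (4632174, [(5, 3), (0, 0)]), (399656866, [(5, 8), (0, 0)]),
  (114242, [(12, 2), (1, 0)]), (795564, [(8, 1), (4, 0)]), (2830149000, [(8, 6), (4, 0)]),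
  (265031342, [(15, 0), (5, 0)]), (12040358400, [(11, 4), (8, 0)]),
  (550081188, [(10, 3), (3, 0)]), (11, [(5, 1), (1, 0)]), (372810304, [(5, 6), (1, 0)]),
  (3284724960, [(13, 1), (7, 0)]), (2196235440, [(8, 4), (5, 0)]), (1278705, [(7, 3), (0, 0)]),
  (2224816690, [(7, 8), (0, 0)]), (17599680000, [(11, 2), (9, 0)]),
  (11728800, [(10, 1), (4, 0)]), (154451172, [(5, 4), (2, 0)]), (18382116, [(5, 9), (2, 0)]),
  (642850734, [(12, 3), (3, 0)]), (1183356720, [(8, 2), (6, 0)]), (9, [(7, 1), (1, 0)]),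
  (17292240, [(8, 7), (6, 0)]), (5051062574, [(7, 6), (1, 0)]), (5799735648, [(10, 4), (5, 0)]),
  (379193, [(9, 3), (0, 0)]), (23848968, [(5, 2), (3, 0)]), (283104, [(5, 7), (3, 0)]),
  (10777536000, [(13, 2), (9, 0)]), (85875230, [(12, 1), (4, 0)]),
  (1004812986, [(7, 4), (2, 0)]), (109628, [(2, 2), (0, 0)]), (1694, [(2, 7), (0, 0)]),
  (1198955520, [(10, 2), (6, 0)]), (7, [(9, 1), (1, 0)]), (25, [(2, 12), (0, 0)]),
  (1080300855, [(9, 6), (1, 0)]), (108579, [(11, 3), (0, 0)]), (22579920, [(7, 2), (3, 0)]),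
  (1380216840, [(7, 7), (3, 0)]), (289050454, [(14, 1), (4, 0)]),
  (5821683840, [(10, 5), (7, 0)]), (538767712, [(9, 4), (2, 0)]), (14423, [(4, 2), (0, 0)]),
  (101422983, [(4, 7), (0, 0)]), (2216055600, [(12, 2), (6, 0)]), (5, [(11, 1), (1, 0)]),
  (787763880, [(7, 5), (4, 0)]), (11623772160, [(15, 0), (10, 0)]),
  (3584891520, [(10, 3), (8, 0)]), (89157608, [(9, 2), (3, 0)]), (36794130, [(4, 5), (1, 0)]),
  (43589145600, [(13, 1), (12, 0)]), (3769482, [(4, 10), (1, 0)]),
  (570832292, [(11, 4), (2, 0)]), (152887680, [(7, 3), (5, 0)]), (1934, [(6, 2), (0, 0)]),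
  (2161440, [(7, 8), (5, 0)]), (1313636737, [(6, 7), (0, 0)]), (3, [(13, 1), (1, 0)]),
  (726485760, [(10, 1), (9, 0)]), (12851747664, [(9, 5), (4, 0)]), (2161236, [(4, 3), (2, 0)]),
  (25410, [(4, 8), (2, 0)]), (14020776000, [(12, 3), (8, 0)]), (129823410, [(11, 2), (3, 0)]),
  (2162160, [(7, 1), (6, 0)]), (3349299530, [(6, 5), (1, 0)]), (2815256640, [(9, 3), (5, 0)]),
  (265, [(8, 2), (0, 0)]), (2184, [(4, 1), (3, 0)]), (1061131626, [(8, 7), (0, 0)]),
  (3146774400, [(12, 1), (9, 0)]), (160351420, [(6, 3), (2, 0)]), (1, [(1, 1), (0, 0)]),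
  (515920800, [(6, 8), (2, 0)]), (158861616, [(13, 2), (3, 0)]), (15079680, [(9, 1), (6, 0)]),
  (2107344960, [(9, 6), (6, 0)]), (590190370, [(8, 5), (1, 0)]), (2294297280, [(11, 3), (5, 0)]),
  (37, [(10, 2), (0, 0)]), (13750, [(6, 1), (3, 0)]), (191581200, [(6, 6), (3, 0)]),
  (11926474560, [(14, 1), (9, 0)]), (601009920, [(9, 4), (7, 0)]), (147030225, [(8, 3), (2, 0)]),
  (4629036, [(3, 6), (0, 0)]), (227232000, [(11, 1), (6, 0)]), (601003, [(3, 11), (0, 0)]),
  (382852948, [(10, 5), (1, 0)]), (17160000, [(6, 4), (4, 0)]),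
  (87178291200, [(15, 0), (15, 0)]), (240120, [(6, 9), (4, 0)]), (5, [(12, 2), (0, 0)]),
  (187206, [(8, 1), (3, 0)]), (4904855004, [(8, 6), (3, 0)]), (16918353, [(15, 0), (4, 0)]),
  (164670, [(3, 4), (1, 0)]), (2036, [(3, 9), (1, 0)]), (24297235200, [(11, 4), (7, 0)]),
  (155519862, [(10, 3), (2, 0)]), (634050573, [(5, 6), (0, 0)]), (2415141360, [(13, 1), (6, 0)]),
  (8552506200, [(8, 4), (4, 0)]), (6248793600, [(11, 2), (8, 0)]), (1544082, [(10, 1), (3, 0)]),
  (1125844616, [(5, 4), (1, 0)]), (172394392, [(5, 9), (1, 0)]), (117256174, [(12, 3), (2, 0)]),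
  (288620640, [(8, 2), (5, 0)]), (723066120, [(8, 7), (5, 0)]), (691386228, [(7, 6), (0, 0)]),
  (2558252952, [(10, 4), (4, 0)]), (3056064, [(5, 2), (2, 0)])]

set_option maxHeartbeats 0 in
/-- The kernel computes the distribution. -/
theorem tbl_eq : beqL (BT.toL (BT.next pr (distT 14) .leaf) []) tbl = true := by
  decide +kernel

end Pool.Agent.Lib.MP_ad84ff_co
end
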