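import Pool.Agent.Lib.MP_ad84ff_co.Defs
import Pool.Agent.Lib.MP_ad84ff_co.Nu2

section

set_option autoImplicit false

namespace Pool.Agent.Lib.MP_ad84ff_co

private theorem W_list (F : ℕ × ℕ) (φ : ℕ → ℕ → ℝ) (l : List (ℕ × St)) :
    (l.map fun x => (x.1 : ℝ) * φ (top (glue F x.2)) (front (glue F x.2))).sum =
      (((l.map Prod.fst).sum : ℕ) -
        (l.map fun x => if top x.2 = F.1 + 1 then (x.1 : ℝ) * 1 else 0).sum) * φ F.1 F.2 +
      (l.map fun x => if top x.2 = F.1 + 1 then
        (x.1 : ℝ) * φ (F.1 + 1) (F.2 + front x.2) else 0).sum := by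
  induction l with
  | nil => simp
  | cons x l ih =>
    simp only [List.map_cons, List.sum_cons, ih, Nat.cast_add]
    rw [glue_top, glue_front]
    by_cases h : top x.2 = F.1 + 1
    · simp only [if_pos h]
      ring
    · simp only [if_neg h]
      ring

/-- Master formula: for a state `F :: τ` split the successors into the choice of `F`, the merges and
the rest (use `glue_top`, `glue_front`).  `φ` is a function of level and size of the first packet. -/
theorem W_succ_first (F : ℕ × ℕ) (τ : St) (φ : ℕ → ℕ → ℝ) :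
    W (succ (F :: τ)) (fun σ => φ (top σ) (front σ)) =
      (F.2 : ℝ) * φ (F.1 + 1) (F.2 + 1)
      + (((τ.map Prod.snd).sum : ℕ) + 1 - tie (F :: τ)) * φ F.1 F.2
      + ms (fun k => φ (F.1 + 1) (F.2 + k)) (F :: τ) := by
  have h1 : W (succ (F :: τ)) (fun σ => φ (top σ) (front σ)) =
      (F.2 : ℝ) * φ (F.1 + 1) (F.2 + 1) +
        ((succ τ).map fun x => (x.1 : ℝ) * φ (top (glue F x.2)) (front (glue F x.2))).sum := by
    simp only [W, succ, List.map_cons, List.sum_cons, List.map_map]
    rfl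
  rw [h1, W_list, succ_weight]
  simp only [tie, ms]
  push_cast
  ring

theorem ms_add (φ ψ : ℕ → ℝ) (σ : St) : ms (fun k => φ k + ψ k) σ = ms φ σ + ms ψ σ := by
  cases σ with
  | nil => simp [ms]
  | cons F τ =>
    simp only [ms]
    rw [← List.sum_map_add]
    congr 1
    apply List.map_congr_left
    intro x _
    split_ifs
    · ring
    · ring

theorem ms_mul (c : ℝ) (φ : ℕ → ℝ) (σ : St) : ms (fun k => c * φ k) σ = c * ms φ σ := by
  cases σ with
  | nil => simp [ms]
  | cons F τ =>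
    simp only [ms]
    rw [← List.sum_map_mul_left]
    congr 1
    apply List.map_congr_left
    intro x _
    split_ifs
    · ring
    · ring

private theorem ch4_front_pos {n : ℕ} {τ : St} (h : Good n τ) :
    ∀ x ∈ succ τ, 1 ≤ front x.2 := by
  intro x hx
  have h1 := succ_good n τ h x hx
  have h2 := succ_ne_nil τ x hx
  obtain ⟨c, ρ⟩ := x
  cases ρ with
  | nil => exact absurd rfl h2
  | cons G ρ =>
    have h3 := h1.pos G (List.mem_cons_self ..)
    change 1 ≤ G.2
    omega

theorem ms_mono (φ ψ : ℕ → ℝ) (σ : St) (h : ∀ k, 1 ≤ k → φ k ≤ ψ k) (n : ℕ) (hσ : Good n σ) :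
    ms φ σ ≤ ms ψ σ := by
  cases σ with
  | nil => exact le_refl _
  | cons F τ =>
    have hτ : Good (τ.map Prod.snd).sum τ :=
      ⟨rfl, fun G hG => hσ.pos G (List.mem_cons_of_mem _ hG),
        (List.pairwise_cons.mp hσ.anti).2⟩
    simp only [ms]
    apply List.sum_le_sum
    intro x hx
    split_ifs
    · exact mul_le_mul_of_nonneg_left (h _ (ch4_front_pos hτ x hx)) (Nat.cast_nonneg _)
    · exact le_refl _

theorem ms_nonneg (φ : ℕ → ℝ) (σ : St) (h : ∀ k, 0 ≤ φ k) : 0 ≤ ms φ σ := by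
  cases σ with
  | nil => exact le_refl _
  | cons F τ =>
    simp only [ms]
    apply List.sum_nonneg
    intro y hy
    rw [List.mem_map] at hy
    obtain ⟨x, _, rfl⟩ := hy
    split_ifs
    · exact mul_nonneg (Nat.cast_nonneg _) (h _)
    · exact le_refl _

end Pool.Agent.Lib.MP_ad84ff_co
end

section

section

set_option autoImplicit false

namespace Pool.Agent.Lib.MP_ad84ff_co

private theorem ch5_sum {n : ℕ} {F : ℕ × ℕ} {τ : St} (h : Good n (F :: τ)) :
    (F.2 : ℝ) + (((τ.map Prod.snd).sum : ℕ) : ℝ) = (n : ℝ) := by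
  have h1 := h.sum
  rw [List.map_cons, List.sum_cons] at h1
  exact_mod_cast h1

private theorem ch5_ne_nil {n : ℕ} {σ : St} (hn : 1 ≤ n) (h : Good n σ) : σ ≠ [] := by
  intro h0
  subst h0
  have h1 := h.sum
  simp at h1
  omega

private theorem ch5_front_le {n : ℕ} {σ : St} (h : Good n σ) : (front σ : ℝ) ≤ (n : ℝ) := by
  cases σ with
  | nil => simp [front]
  | cons F τ =>
    have h1 := ch5_sum h
    have h2 : (0 : ℝ) ≤ (((τ.map Prod.snd).sum : ℕ) : ℝ) := Nat.cast_nonneg _
    change (F.2 : ℝ) ≤ (n : ℝ)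
    linarith

private theorem ch5_ms_const (c : ℝ) (σ : St) : ms (fun _ => c) σ = c * tie σ := by
  have h := ms_mul c (fun _ => 1) σ
  simp only [mul_one] at h
  exact h

/-- `W_succ_first` with `φ l _ = l`. -/
theorem W_succ_top (n : ℕ) (σ : St) (h : Good n σ) (hσ : σ ≠ []) :
    W (succ σ) (fun σ => (top σ : ℝ)) =
      ((n : ℝ) + 1) * (top σ : ℝ) + ((front σ : ℝ) + tie σ) := by
  cases σ with
  | nil => exact absurd rfl hσ
  | cons F τ =>
    have h1 := W_succ_first F τ (fun l _ => (l : ℝ))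
    have h2 := ch5_sum h
    have h3 := ch5_ms_const (((F.1 + 1 : ℕ) : ℝ)) (F :: τ)
    rw [h1, h3, ← h2]
    change _ = _ * (F.1 : ℝ) + ((F.2 : ℝ) + _)
    push_cast
    ring

/-- `W_succ_first` with `φ _ s = s`. -/
theorem W_succ_front (n : ℕ) (σ : St) (h : Good n σ) (hσ : σ ≠ []) :
    W (succ σ) (fun σ => (front σ : ℝ)) = ((n : ℝ) + 2) * (front σ : ℝ) + gain σ := by
  cases σ with
  | nil => exact absurd rfl hσ
  | cons F τ =>
    have h1 := W_succ_first F τ (fun _ s => (s : ℝ))
    have h2 := ch5_sum h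
    have h3 := ch5_ms_const (F.2 : ℝ) (F :: τ)
    have h4 := ms_add (fun _ => (F.2 : ℝ)) (fun k => (k : ℝ)) (F :: τ)
    have h5 : ms (fun k => ((F.2 + k : ℕ) : ℝ)) (F :: τ) = (F.2 : ℝ) * tie (F :: τ)
        + gain (F :: τ) := by
      rw [← h3]
      have h6 : (fun k : ℕ => ((F.2 + k : ℕ) : ℝ)) = fun k : ℕ => (F.2 : ℝ) + (k : ℝ) := by
        funext k
        push_cast
        ring
      rw [h6, h4]
      rfl
    rw [h1, h5, ← h2]
    change _ = _ * (F.2 : ℝ) + _
    push_cast
    ring

/-- `D'_{n+1} - D'_n = σ_n + ε_n` on the level of the chain. -/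
theorem M_top_succ (n : ℕ) (hn : 1 ≤ n) :
    M (n + 1) (fun σ => (top σ : ℝ)) - M n (fun σ => (top σ : ℝ)) = sig n + eps n := by
  have hpos : ((n : ℝ) + 1) ≠ 0 := by positivity
  have h1 : M (n + 1) (fun σ => (top σ : ℝ)) =
      M n (fun σ => (top σ : ℝ) + (((n : ℝ) + 1)⁻¹ * (front σ : ℝ) +
        ((n : ℝ) + 1)⁻¹ * tie σ)) := by
    rw [M_succ]
    apply M_congr
    intro σ hσ
    rw [W_succ_top n σ hσ (ch5_ne_nil hn hσ)]
    field_simp
  rw [h1, M_add n (fun σ => (top σ : ℝ)) (fun σ => ((n : ℝ) + 1)⁻¹ * (front σ : ℝ) +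
        ((n : ℝ) + 1)⁻¹ * tie σ),
    M_add n (fun σ => ((n : ℝ) + 1)⁻¹ * (front σ : ℝ)) (fun σ => ((n : ℝ) + 1)⁻¹ * tie σ),
    M_mul n (((n : ℝ) + 1)⁻¹) (fun σ => (front σ : ℝ)), M_mul n (((n : ℝ) + 1)⁻¹) tie,
    sig, eps]
  ring

/-- `σ_{n+1} = σ_n + E[gain] / ((n+1)(n+2))`. -/
theorem sig_succ (n : ℕ) (hn : 1 ≤ n) :
    sig (n + 1) = sig n + M n gain / (((n : ℝ) + 1) * ((n : ℝ) + 2)) := by
  have hpos : ((n : ℝ) + 1) ≠ 0 := by positivity
  have hpos2 : ((n : ℝ) + 2) ≠ 0 := by positivity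
  have h1 : M (n + 1) (fun σ => (front σ : ℝ)) =
      M n (fun σ => (((n : ℝ) + 2) * ((n : ℝ) + 1)⁻¹) * (front σ : ℝ) +
        ((n : ℝ) + 1)⁻¹ * gain σ) := by
    rw [M_succ]
    apply M_congr
    intro σ hσ
    rw [W_succ_front n σ hσ (ch5_ne_nil hn hσ)]
    field_simp
  have h2 : sig (n + 1) = M (n + 1) (fun σ => (front σ : ℝ)) / ((n : ℝ) + 2) := by
    rw [sig]
    push_cast
    congr 1
    ring
  rw [h2, h1, M_add n (fun σ => (((n : ℝ) + 2) * ((n : ℝ) + 1)⁻¹) * (front σ : ℝ))
      (fun σ => ((n : ℝ) + 1)⁻¹ * gain σ),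
    M_mul n (((n : ℝ) + 2) * ((n : ℝ) + 1)⁻¹) (fun σ => (front σ : ℝ)),
    M_mul n (((n : ℝ) + 1)⁻¹) gain, sig]
  field_simp

theorem sig_mono : Monotone sig := by
  apply monotone_nat_of_le_succ
  intro n
  rcases Nat.eq_zero_or_pos n with rfl | hn
  · have h1 : sig 0 = 0 := by
      rw [sig, M_zero]
      simp [front]
    rw [h1, sig]
    apply div_nonneg
    · exact M_nonneg _ _ fun σ _ => Nat.cast_nonneg _
    · positivity
  · rw [sig_succ n hn]
    have h2 : 0 ≤ M n gain := M_nonneg _ _ fun σ _ => ms_nonneg _ _ fun k => Nat.cast_nonneg _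
    have h3 : 0 ≤ M n gain / (((n : ℝ) + 1) * ((n : ℝ) + 2)) := by positivity
    linarith

/-- The first packet has size at most `n`. -/
theorem sig_le_one (n : ℕ) : sig n ≤ 1 := by
  have h1 : M n (fun σ => (front σ : ℝ)) ≤ (n : ℝ) := by
    have h2 := M_mono n (fun σ => (front σ : ℝ)) (fun _ => (n : ℝ)) fun σ hσ => ch5_front_le hσ
    rwa [M_const] at h2
  have hpos : (0 : ℝ) < (n : ℝ) + 1 := by positivity
  rw [sig, div_le_one hpos]
  linarith

theorem eps_nonneg (n : ℕ) : 0 ≤ eps n := by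
  rw [eps]
  apply div_nonneg
  · exact M_nonneg _ _ fun σ _ => ms_nonneg _ _ fun k => zero_le_one
  · positivity

end Pool.Agent.Lib.MP_ad84ff_co
end

section

set_option autoImplicit false

namespace Pool.Agent.Lib.MP_ad84ff_co

private theorem po3_aux (l : ℕ) (hl : 1 ≤ l) : ∀ (τ : St) (_ : ∀ F ∈ τ, F.1 ≤ l) (A : ℕ),
    ((succ τ).map fun x => if top x.2 = l + 1 ∧ front x.2 ≤ A then x.1 else 0).sum ≤ A - 1 := by
  intro τ
  induction τ with
  | nil =>
    intro _ A
    have h0 : ¬ (1 = l + 1 ∧ 1 ≤ A) := by omega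
    simp only [succ, List.map_cons, List.map_nil, List.sum_cons, List.sum_nil, top, front]
    rw [if_neg h0]
    omega
  | cons G ρ ih =>
    intro htop A
    have hG : G.1 ≤ l := htop G (List.mem_cons_self ..)
    have hρ : ∀ F ∈ ρ, F.1 ≤ l := fun F hF => htop F (List.mem_cons_of_mem _ hF)
    simp only [succ, List.map_cons, List.sum_cons, List.map_map]
    show (if G.1 + 1 = l + 1 ∧ G.2 + 1 ≤ A then G.2 else 0) + _ ≤ A - 1
    by_cases hGl : G.1 = l
    · have h1 : ((succ ρ).map ((fun x : ℕ × St =>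
          if top x.2 = l + 1 ∧ front x.2 ≤ A then x.1 else 0) ∘
            fun x => (x.1, glue G x.2))).sum ≤ (A - G.2) - 1 := by
        refine le_trans (List.sum_le_sum fun x _ => ?_) (ih hρ (A - G.2))
        obtain ⟨w, y⟩ := x
        simp only [Function.comp_apply]
        cases y with
        | nil =>
          have h2 : ¬ (G.1 = l + 1 ∧ G.2 ≤ A) := by omega
          simp only [glue, top, front]
          rw [if_neg h2]
          exact Nat.zero_le _
        | cons H r =>
          by_cases hH : H.1 = G.1 + 1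
          · simp only [glue, if_pos hH, top, front]
            by_cases h3 : H.1 = l + 1 ∧ G.2 + H.2 ≤ A
            · rw [if_pos h3, if_pos ⟨h3.1, by omega⟩]
            · rw [if_neg h3]
              exact Nat.zero_le _
          · simp only [glue, if_neg hH, top, front]
            have h2 : ¬ (G.1 = l + 1 ∧ G.2 ≤ A) := by omega
            rw [if_neg h2]
            exact Nat.zero_le _
      by_cases h4 : G.2 + 1 ≤ A
      · rw [if_pos ⟨by omega, h4⟩]
        omega
      · rw [if_neg (by omega)]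
        omega
    · have h1 : ((succ ρ).map ((fun x : ℕ × St =>
          if top x.2 = l + 1 ∧ front x.2 ≤ A then x.1 else 0) ∘
            fun x => (x.1, glue G x.2))).sum ≤ 0 := by
        refine le_of_eq (List.sum_eq_zero fun y hy => ?_)
        rw [List.mem_map] at hy
        obtain ⟨⟨w, y⟩, _, rfl⟩ := hy
        simp only [Function.comp_apply]
        cases y with
        | nil =>
          have h2 : ¬ (G.1 = l + 1 ∧ G.2 ≤ A) := by omega
          simp only [glue, top, front]
          rw [if_neg h2]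
        | cons H r =>
          by_cases hH : H.1 = G.1 + 1
          · simp only [glue, if_pos hH, top, front]
            rw [if_neg (by omega)]
          · simp only [glue, if_neg hH, top, front]
            rw [if_neg (by omega)]
      rw [if_neg (by omega)]
      omega

/-- The weight of the merges which add at most `A` is at most `A - 1`.  Induction on `τ`, for all
`A ≥ 1`: if `τ = G :: ρ` with `G.1 = l` then the choice of `G` adds `G.2 + 1` (weight `G.2`) and the
merges `y` of `ρ` add `G.2 + front y.2`; if `G.1 < l` there is no successor of level `l + 1`. -/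
theorem merge_weight (l : ℕ) (hl : 1 ≤ l) (τ : St) (hpos : ∀ F ∈ τ, 1 ≤ F.1 ∧ F.1 ≤ F.2)
    (hτ : τ.Pairwise fun F G => G.1 ≤ F.1)
    (htop : ∀ F ∈ τ, F.1 ≤ l) (A : ℕ) (hA : 1 ≤ A) :
    ((succ τ).map fun x => if top x.2 = l + 1 ∧ front x.2 ≤ A then x.1 else 0).sum ≤ A - 1 := by
  exact po3_aux l hl τ htop A

private theorem po3_front_pos : ∀ (ρ : St), (∀ F ∈ ρ, 1 ≤ F.2) → ∀ y ∈ succ ρ, 1 ≤ front y.2 := by
  intro ρ
  cases ρ with
  | nil =>
    intro _ y hy
    simp only [succ, List.mem_singleton] at hy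
    subst hy
    exact le_refl _
  | cons H r =>
    intro hρ y hy
    have hH : 1 ≤ H.2 := hρ H (List.mem_cons_self ..)
    simp only [succ, List.mem_cons, List.mem_map] at hy
    rcases hy with rfl | ⟨⟨w, z⟩, _, rfl⟩
    · show 1 ≤ H.2 + 1
      omega
    · cases z with
      | nil => exact hH
      | cons K q =>
        by_cases hK : K.1 = H.1 + 1
        · simp only [glue, if_pos hK, front]
          omega
        · simp only [glue, if_neg hK, front]
          exact hH

/-- How the first packet of a nonempty state can change. -/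
theorem succ_cases (G : ℕ × ℕ) (ρ : St) (hρ : ∀ F ∈ ρ, 1 ≤ F.2) : ∀ x ∈ succ (G :: ρ),
    (top x.2 = G.1 ∧ front x.2 = G.2) ∨
      (top x.2 = G.1 + 1 ∧ G.2 + 1 ≤ front x.2) := by
  intro x hx
  simp only [succ, List.mem_cons, List.mem_map] at hx
  rcases hx with rfl | ⟨⟨w, z⟩, hz, rfl⟩
  · exact Or.inr ⟨rfl, le_refl _⟩
  · have h1 : 1 ≤ front z := po3_front_pos ρ hρ _ hz
    cases z with
    | nil => exact Or.inl ⟨rfl, rfl⟩
    | cons K q =>
      by_cases hK : K.1 = G.1 + 1
      · right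
        have h2 : 1 ≤ K.2 := h1
        simp only [glue, if_pos hK, top, front]
        exact ⟨hK, by omega⟩
      · left
        simp only [glue, if_neg hK, top, front]
        exact ⟨trivial, trivial⟩

end Pool.Agent.Lib.MP_ad84ff_co
end

section

set_option autoImplicit false

namespace Pool.Agent.Lib.MP_ad84ff_co

theorem ee_zero (S a c : ℕ) : ee S a c 0 = 1 := by
  rw [ee, if_pos rfl]

theorem ee_top (S a c g : ℕ) (hg : 1 ≤ g) (h : S ≤ a) : ee S a c g = 0 := by
  rw [ee, if_neg (by omega), if_pos h]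

private theorem ee_div_Lo1 (S a c g : ℕ) (h : a < S) :
    ee S a c (g + 1) =
      ((a : ℝ) * ee S (a + 1) c (g + 2) + ((c : ℝ) + 1) * ee S a (c + 1) g) / ((a : ℝ) + c + 1) := by
  rw [ee, if_neg (by omega), if_neg (by omega)]
  rfl

theorem ee_rec (S a c g : ℕ) (h : a < S) :
    ((a : ℝ) + c + 1) * ee S a c (g + 1) =
      (a : ℝ) * ee S (a + 1) c (g + 2) + ((c : ℝ) + 1) * ee S a (c + 1) g := by
  rw [ee_div_Lo1 S a c g h]
  have h1 : (a : ℝ) + c + 1 ≠ 0 := by positivity
  rw [mul_div_cancel₀ _ h1]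

private theorem ee_bounds_Lo1 (S : ℕ) : ∀ d a : ℕ, S - a = d → ∀ g c : ℕ,
    0 ≤ ee S a c g ∧ ee S a c g ≤ 1 := by
  intro d
  induction d with
  | zero =>
    intro a ha g c
    rcases Nat.eq_zero_or_pos g with rfl | hg
    · rw [ee_zero]; norm_num
    · rw [ee_top S a c g hg (by omega)]; norm_num
  | succ d ihd =>
    intro a ha g
    induction g with
    | zero => intro c; rw [ee_zero]; norm_num
    | succ g ihg =>
      intro c
      rw [ee_div_Lo1 S a c g (by omega)]
      obtain ⟨h1, h2⟩ := ihd (a + 1) (by omega) (g + 2) c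
      obtain ⟨h3, h4⟩ := ihg (c + 1)
      have ha0 : (0 : ℝ) ≤ a := by positivity
      have hc0 : (0 : ℝ) ≤ (c : ℝ) + 1 := by positivity
      have hp : (0 : ℝ) < (a : ℝ) + c + 1 := by positivity
      refine ⟨by positivity, ?_⟩
      rw [div_le_one hp]
      have h5 := mul_le_mul_of_nonneg_left h2 ha0
      have h6 := mul_le_mul_of_nonneg_left h4 hc0
      linarith

theorem ee_nonneg (S a c g : ℕ) : 0 ≤ ee S a c g :=
  (ee_bounds_Lo1 S (S - a) a rfl g c).1

theorem ee_le_one (S a c g : ℕ) : ee S a c g ≤ 1 :=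
  (ee_bounds_Lo1 S (S - a) a rfl g c).2

/-- In all cases. -/
theorem ee_le (S a c g : ℕ) :
    ((a : ℝ) + c + 1) * ee S a c (g + 1) ≤
      (a : ℝ) * ee S (a + 1) c (g + 2) + ((c : ℝ) + 1) * ee S a (c + 1) g := by
  by_cases h : a < S
  · rw [ee_rec S a c g h]
  · rw [ee_top S a c (g + 1) (by omega) (by omega), mul_zero]
    have h1 := ee_nonneg S (a + 1) c (g + 2)
    have h2 := ee_nonneg S a (c + 1) g
    positivity

end Pool.Agent.Lib.MP_ad84ff_co
end
end

section

section

set_option autoImplicit false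

namespace Pool.Agent.Lib.MP_ad84ff_co

private theorem J_int (p q : ℕ) : IntervalIntegrable (fun x : ℝ => x ^ p * (1 - x) ^ q)
    MeasureTheory.volume (1 / 2) 1 :=
  (by fun_prop : Continuous (fun x : ℝ => x ^ p * (1 - x) ^ q)).intervalIntegrable _ _

/-- `x^{a-1}(1-x)^{b-1} = x^a (1-x)^{b-1} + x^{a-1}(1-x)^b`. -/
theorem J_rec (a b : ℕ) (ha : 1 ≤ a) (hb : 1 ≤ b) : J a b = J (a + 1) b + J a (b + 1) := by
  unfold J
  rw [← intervalIntegral.integral_add (J_int _ _) (J_int _ _)]
  refine intervalIntegral.integral_congr fun x _ => ?_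
  obtain ⟨a, rfl⟩ : ∃ a', a = a' + 1 := ⟨a - 1, by omega⟩
  obtain ⟨b, rfl⟩ : ∃ b', b = b' + 1 := ⟨b - 1, by omega⟩
  simp only [Nat.add_sub_cancel]
  ring

theorem J_nonneg (a b : ℕ) : 0 ≤ J a b := by
  unfold J
  refine intervalIntegral.integral_nonneg (by norm_num) fun x hx => ?_
  have h1 : 0 ≤ x := by linarith [hx.1]
  have h2 : 0 ≤ 1 - x := by linarith [hx.2]
  positivity

/-- `1 - x ≤ x` on `[1/2, 1]`. -/
theorem J_anti (a b : ℕ) (ha : 1 ≤ a) (hb : 1 ≤ b) : J a (b + 1) ≤ J (a + 1) b := by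
  unfold J
  refine intervalIntegral.integral_mono_on (by norm_num) (J_int _ _) (J_int _ _) fun x hx => ?_
  obtain ⟨a, rfl⟩ : ∃ a', a = a' + 1 := ⟨a - 1, by omega⟩
  obtain ⟨b, rfl⟩ : ∃ b', b = b' + 1 := ⟨b - 1, by omega⟩
  simp only [Nat.add_sub_cancel]
  have h1 : 0 ≤ x := by linarith [hx.1]
  have h2 : 0 ≤ 1 - x := by linarith [hx.2]
  have h3 : 1 - x ≤ x := by linarith [hx.1]
  have h4 : 0 ≤ x ^ a * (1 - x) ^ b := by positivity
  calc x ^ a * (1 - x) ^ (b + 1) = (x ^ a * (1 - x) ^ b) * (1 - x) := by ring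
    _ ≤ (x ^ a * (1 - x) ^ b) * x := mul_le_mul_of_nonneg_left h3 h4
    _ = x ^ (a + 1) * (1 - x) ^ b := by ring

/-- `J 1 b = ∫_{1/2}^1 (1-x)^{b-1} = 1 / (b 2^b)`. -/
theorem J_one (b : ℕ) (hb : 1 ≤ b) : J 1 b = 1 / ((b : ℝ) * 2 ^ b) := by
  obtain ⟨b, rfl⟩ : ∃ b', b = b' + 1 := ⟨b - 1, by omega⟩
  unfold J
  simp only [Nat.sub_self, pow_zero, one_mul, Nat.add_sub_cancel]
  rw [intervalIntegral.integral_comp_sub_left (fun x : ℝ => x ^ b) 1, integral_pow]
  norm_num
  field_simp
  rw [← mul_pow]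
  norm_num

end Pool.Agent.Lib.MP_ad84ff_co
end

section

set_option autoImplicit false

namespace Pool.Agent.Lib.MP_ad84ff_co

private theorem up2_int (p q : ℕ) (u v : ℝ) : IntervalIntegrable (fun x : ℝ => x ^ p * (1 - x) ^ q)
    MeasureTheory.volume u v :=
  (by fun_prop : Continuous (fun x : ℝ => x ^ p * (1 - x) ^ q)).intervalIntegrable _ _

private theorem up2_rec (p q : ℕ) :
    ((q : ℝ) + 1) * ∫ x in (0 : ℝ)..1, x ^ (p + 1) * (1 - x) ^ q =
      ((p : ℝ) + 1) * ∫ x in (0 : ℝ)..1, x ^ p * (1 - x) ^ (q + 1) := by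
  have h : ∫ x in (0 : ℝ)..1, (((p : ℝ) + 1) * (x ^ p * (1 - x) ^ (q + 1)) -
      ((q : ℝ) + 1) * (x ^ (p + 1) * (1 - x) ^ q)) =
      (1 : ℝ) ^ (p + 1) * (1 - 1) ^ (q + 1) - (0 : ℝ) ^ (p + 1) * (1 - 0) ^ (q + 1) := by
    apply intervalIntegral.integral_eq_sub_of_hasDerivAt
      (f := fun x : ℝ => x ^ (p + 1) * (1 - x) ^ (q + 1))
    · intro x _
      have h1 : HasDerivAt (fun x : ℝ => x ^ (p + 1)) (((p : ℝ) + 1) * x ^ p) x := by
        have := hasDerivAt_pow (p + 1) x
        simpa using this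
      have h2 : HasDerivAt (fun x : ℝ => (1 - x) ^ (q + 1)) (((q : ℝ) + 1) * (1 - x) ^ q * (-1)) x := by
        have h3 : HasDerivAt (fun x : ℝ => 1 - x) (-1) x := by
          simpa using (hasDerivAt_id x).const_sub 1
        have h5 := h3.fun_pow (q + 1)
        simp only [Nat.add_sub_cancel] at h5
        refine h5.congr_deriv ?_
        push_cast
        ring
      have h4 : HasDerivAt (fun x : ℝ => x ^ (p + 1) * (1 - x) ^ (q + 1)) _ x := h1.mul h2
      refine h4.congr_deriv ?_
      ring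
    · exact (((up2_int p (q + 1) 0 1).const_mul _).sub ((up2_int (p + 1) q 0 1).const_mul _))
  rw [intervalIntegral.integral_sub ((up2_int p (q + 1) 0 1).const_mul _)
    ((up2_int (p + 1) q 0 1).const_mul _), intervalIntegral.integral_const_mul,
    intervalIntegral.integral_const_mul] at h
  have h0 : (1 : ℝ) ^ (p + 1) * (1 - 1) ^ (q + 1) - (0 : ℝ) ^ (p + 1) * (1 - 0) ^ (q + 1) = 0 := by
    simp
  rw [h0] at h
  linarith

private theorem up2_beta (p q : ℕ) :
    ((p + q + 1).factorial : ℝ) * ∫ x in (0 : ℝ)..1, x ^ p * (1 - x) ^ q =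
      (p.factorial : ℝ) * (q.factorial : ℝ) := by
  induction p generalizing q with
  | zero =>
    have h : ∫ x in (0 : ℝ)..1, x ^ 0 * (1 - x) ^ q = 1 / ((q : ℝ) + 1) := by
      simp only [pow_zero, one_mul]
      rw [intervalIntegral.integral_comp_sub_left (fun x : ℝ => x ^ q) 1, integral_pow]
      simp
    rw [h, Nat.zero_add, Nat.factorial_succ]
    have hq : ((q : ℝ) + 1) ≠ 0 := by positivity
    push_cast
    field_simp
    simp
  | succ p ih =>
    have h1 := up2_rec p q
    have h2 := ih (q + 1)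
    have e1 : p + (q + 1) + 1 = p + 1 + q + 1 := by omega
    rw [e1] at h2
    have hq : ((q : ℝ) + 1) ≠ 0 := by positivity
    apply mul_left_cancel₀ hq
    calc ((q : ℝ) + 1) * (((p + 1 + q + 1).factorial : ℝ) *
          ∫ x in (0 : ℝ)..1, x ^ (p + 1) * (1 - x) ^ q)
        = ((p + 1 + q + 1).factorial : ℝ) * (((q : ℝ) + 1) *
          ∫ x in (0 : ℝ)..1, x ^ (p + 1) * (1 - x) ^ q) := by ring
      _ = ((p : ℝ) + 1) * (((p + 1 + q + 1).factorial : ℝ) *
          ∫ x in (0 : ℝ)..1, x ^ p * (1 - x) ^ (q + 1)) := by rw [h1]; ring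
      _ = ((p : ℝ) + 1) * ((p.factorial : ℝ) * ((q + 1).factorial : ℝ)) := by rw [h2]
      _ = ((q : ℝ) + 1) * (((p + 1).factorial : ℝ) * (q.factorial : ℝ)) := by
        rw [Nat.factorial_succ, Nat.factorial_succ]
        push_cast
        ring

/-- `∫_0^1 x^{a-1} (1-x)^{b-1} = (a-1)! (b-1)! / (a+b-1)!` and the half of the integral is at most
the whole.  (For the whole integral: Mathlib's beta integral, or induction on `a` by integration by
parts; another way: `J a b ≤ 1 / Binv a b` follows from the polynomial identity for all `a + b = m`: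
the sum over `a + b = m` of binomial times `J a b` is `1/2`, but the beta integral is simpler.) -/
theorem Binv_mul_J (a b : ℕ) (ha : 1 ≤ a) (hb : 1 ≤ b) : Binv a b * J a b ≤ 1 := by
  obtain ⟨p, rfl⟩ : ∃ p, a = p + 1 := ⟨a - 1, by omega⟩
  obtain ⟨q, rfl⟩ : ∃ q, b = q + 1 := ⟨b - 1, by omega⟩
  have hJ : J (p + 1) (q + 1) ≤ ∫ x in (0 : ℝ)..1, x ^ p * (1 - x) ^ q := by
    unfold J
    simp only [Nat.add_sub_cancel]
    have hsplit := intervalIntegral.integral_add_adjacent_intervals (up2_int p q 0 (1 / 2))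
      (up2_int p q (1 / 2) 1)
    have hnn : 0 ≤ ∫ x in (0 : ℝ)..(1 / 2), x ^ p * (1 - x) ^ q := by
      refine intervalIntegral.integral_nonneg (by norm_num) fun x hx => ?_
      have h1 : 0 ≤ x := hx.1
      have h2 : 0 ≤ 1 - x := by linarith [hx.2]
      positivity
    linarith
  have hb' := up2_beta p q
  have hp : (0 : ℝ) < (p.factorial : ℝ) * (q.factorial : ℝ) := by positivity
  have he : p + 1 + (q + 1) - 1 = p + q + 1 := by omega
  have hBinv : Binv (p + 1) (q + 1) =
      ((p + q + 1).factorial : ℝ) / ((p.factorial : ℝ) * (q.factorial : ℝ)) := by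
    unfold Binv
    rw [he, Nat.add_sub_cancel, Nat.add_sub_cancel]
  rw [hBinv, div_mul_eq_mul_div, div_le_one hp, ← hb']
  exact mul_le_mul_of_nonneg_left hJ (by positivity)

end Pool.Agent.Lib.MP_ad84ff_co
end

section

set_option autoImplicit false

namespace Pool.Agent.Lib.MP_ad84ff_co

theorem Binv_pos (a b : ℕ) : 0 < Binv a b := by
  unfold Binv
  positivity

theorem Binv_succ_left (a b : ℕ) (ha : 1 ≤ a) (hb : 1 ≤ b) :
    (a : ℝ) * Binv (a + 1) b = ((a : ℝ) + b) * Binv a b := by
  obtain ⟨a, rfl⟩ : ∃ k, a = k + 1 := ⟨a - 1, by omega⟩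
  obtain ⟨b, rfl⟩ : ∃ k, b = k + 1 := ⟨b - 1, by omega⟩
  unfold Binv
  have h1 : a + 1 + 1 + (b + 1) - 1 = a + b + 1 + 1 := by omega
  have h2 : a + 1 + (b + 1) - 1 = a + b + 1 := by omega
  have h3 : a + 1 + 1 - 1 = a + 1 := by omega
  have h4 : b + 1 - 1 = b := by omega
  have h5 : a + 1 - 1 = a := by omega
  rw [h1, h2, h3, h4, h5, Nat.factorial_succ (a + b + 1), Nat.factorial_succ a]
  have ha0 : ((a.factorial : ℕ) : ℝ) ≠ 0 := by positivity
  have hb0 : ((b.factorial : ℕ) : ℝ) ≠ 0 := by positivity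
  push_cast
  field_simp
  ring

theorem Binv_succ_right (a b : ℕ) (ha : 1 ≤ a) (hb : 1 ≤ b) :
    (b : ℝ) * Binv a (b + 1) = ((a : ℝ) + b) * Binv a b := by
  obtain ⟨a, rfl⟩ : ∃ k, a = k + 1 := ⟨a - 1, by omega⟩
  obtain ⟨b, rfl⟩ : ∃ k, b = k + 1 := ⟨b - 1, by omega⟩
  unfold Binv
  have h1 : a + 1 + (b + 1 + 1) - 1 = a + b + 1 + 1 := by omega
  have h2 : a + 1 + (b + 1) - 1 = a + b + 1 := by omega
  have h3 : b + 1 + 1 - 1 = b + 1 := by omega
  have h4 : b + 1 - 1 = b := by omega
  have h5 : a + 1 - 1 = a := by omega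
  rw [h1, h2, h3, h4, h5, Nat.factorial_succ (a + b + 1), Nat.factorial_succ b]
  have ha0 : ((a.factorial : ℕ) : ℝ) ≠ 0 := by positivity
  have hb0 : ((b.factorial : ℕ) : ℝ) ≠ 0 := by positivity
  push_cast
  field_simp
  ring

end Pool.Agent.Lib.MP_ad84ff_co
end

section

set_option autoImplicit false

namespace Pool.Agent.Lib.MP_ad84ff_co

private theorem ee_mono_aux_Lo2 (S : ℕ) : ∀ d a : ℕ, S - a = d → ∀ g c : ℕ,
    ee S a c (g + 1) ≤ ee S a c g ∧ ee S (a + 1) c g ≤ ee S a c g ∧
      ee S a c g ≤ ee S a (c + 1) g := by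
  intro d
  induction d with
  | zero =>
    intro a ha g c
    rcases Nat.eq_zero_or_pos g with rfl | hg
    · refine ⟨?_, ?_, ?_⟩
      · rw [ee_zero]; exact ee_le_one _ _ _ _
      · rw [ee_zero, ee_zero]
      · rw [ee_zero, ee_zero]
    · refine ⟨?_, ?_, ?_⟩
      · rw [ee_top S a c (g + 1) (by omega) (by omega)]; exact ee_nonneg _ _ _ _
      · rw [ee_top S (a + 1) c g hg (by omega)]; exact ee_nonneg _ _ _ _
      · rw [ee_top S a c g hg (by omega)]; exact ee_nonneg _ _ _ _
  | succ d ihd =>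
    intro a ha g
    have haS : a < S := by omega
    have ihd' : ∀ g c : ℕ, ee S (a + 1) c (g + 1) ≤ ee S (a + 1) c g ∧
        ee S (a + 1 + 1) c g ≤ ee S (a + 1) c g ∧ ee S (a + 1) c g ≤ ee S (a + 1) (c + 1) g :=
      ihd (a + 1) (by omega)
    induction g with
    | zero =>
      intro c
      refine ⟨?_, ?_, ?_⟩
      · rw [ee_zero]; exact ee_le_one _ _ _ _
      · rw [ee_zero, ee_zero]
      · rw [ee_zero, ee_zero]
    | succ g ihg =>
      intro c
      have ha0 : (0 : ℝ) ≤ a := by positivity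
      have hc0 : (0 : ℝ) ≤ (c : ℝ) := by positivity
      have hp : (0 : ℝ) < (a : ℝ) + c + 1 := by positivity
      have hp2 : (0 : ℝ) < (a : ℝ) + c + 2 := by positivity
      have e0 := ee_rec S a c g haS
      set X := ee S (a + 1) c (g + 2) with hX
      set Y := ee S a (c + 1) g with hY
      have hXY : X ≤ Y := by
        have h1 := (ihd' (g + 1) c).1
        have h2 := (ihd' g c).1
        have h3 := (ihd' g c).2.2
        have h4 := (ihg (c + 1)).2.1
        linarith
      refine ⟨?_, ?_, ?_⟩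
      · have e1 := ee_rec S a c (g + 1) haS
        have h1 := (ihd' (g + 2) c).1
        have h2 := (ihg (c + 1)).1
        have h3 := mul_le_mul_of_nonneg_left h1 ha0
        have h4 := mul_le_mul_of_nonneg_left h2 (by positivity : (0 : ℝ) ≤ (c : ℝ) + 1)
        refine le_of_mul_le_mul_left ?_ hp
        rw [e1, e0]
        exact add_le_add h3 h4
      · have e1 := ee_le S (a + 1) c g
        have h1 := (ihd' (g + 2) c).2.1
        have h2 := (ihg (c + 1)).2.1
        have h3 := mul_le_mul_of_nonneg_left h1 (by positivity : (0 : ℝ) ≤ (a : ℝ) + 1)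
        have h4 := mul_le_mul_of_nonneg_left h2 (by positivity : (0 : ℝ) ≤ (c : ℝ) + 1)
        push_cast at e1
        have e2 : ((a : ℝ) + c + 2) * ee S (a + 1) c (g + 1) ≤
            ((a : ℝ) + 1) * X + ((c : ℝ) + 1) * Y := by
          have : ((a : ℝ) + 1 + c + 1) = (a : ℝ) + c + 2 := by ring
          rw [this] at e1
          linarith
        refine le_of_mul_le_mul_left ?_ (mul_pos hp hp2)
        have e3 : ((a : ℝ) + c + 1) * ((a : ℝ) + c + 2) * ee S (a + 1) c (g + 1) ≤
            ((a : ℝ) + c + 1) * (((a : ℝ) + 1) * X + ((c : ℝ) + 1) * Y) := by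
          have := mul_le_mul_of_nonneg_left e2 hp.le
          linarith
        have e4 : ((a : ℝ) + c + 1) * ((a : ℝ) + c + 2) * ee S a c (g + 1) =
            ((a : ℝ) + c + 2) * ((a : ℝ) * X + ((c : ℝ) + 1) * Y) := by
          rw [← e0]; ring
        rw [e4]
        refine e3.trans ?_
        have h5 : 0 ≤ ((c : ℝ) + 1) * (Y - X) := by
          have : 0 ≤ Y - X := by linarith
          positivity
        nlinarith
      · have e1 := ee_rec S a (c + 1) g haS
        have h1 := (ihd' (g + 2) c).2.2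
        have h2 := (ihg (c + 1)).2.2
        have h3 := mul_le_mul_of_nonneg_left h1 ha0
        have h4 := mul_le_mul_of_nonneg_left h2 (by positivity : (0 : ℝ) ≤ (c : ℝ) + 2)
        push_cast at e1
        have e2 : (a : ℝ) * X + ((c : ℝ) + 2) * Y ≤ ((a : ℝ) + c + 2) * ee S a (c + 1) (g + 1) := by
          have t1 : ((a : ℝ) + (c + 1) + 1) = (a : ℝ) + c + 2 := by ring
          have t2 : ((c : ℝ) + 1 + 1) = (c : ℝ) + 2 := by ring
          rw [t1, t2] at e1
          rw [e1]
          linarith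
        refine le_of_mul_le_mul_left ?_ (mul_pos hp hp2)
        have e3 : ((a : ℝ) + c + 1) * ((a : ℝ) * X + ((c : ℝ) + 2) * Y) ≤
            ((a : ℝ) + c + 1) * ((a : ℝ) + c + 2) * ee S a (c + 1) (g + 1) := by
          have := mul_le_mul_of_nonneg_left e2 hp.le
          linarith
        have e4 : ((a : ℝ) + c + 1) * ((a : ℝ) + c + 2) * ee S a c (g + 1) =
            ((a : ℝ) + c + 2) * ((a : ℝ) * X + ((c : ℝ) + 1) * Y) := by
          rw [← e0]; ring
        rw [e4]
        refine le_trans ?_ e3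
        have h5 : 0 ≤ (a : ℝ) * (Y - X) := by
          have : 0 ≤ Y - X := by linarith
          positivity
        nlinarith

/-- Monotonicity of the two body potential, all three at once, by strong induction on
`(S - a, g)` for all `c`.  `g = 0`: clear.  `S ≤ a`: all values are `0` or `1`.  Otherwise write
`E(a,c,g) = (a X + (c+1) Y) / (a+c+1)` with `X = E(a+1,c,g+1)`, `Y = E(a,c+1,g-1)`.
(i) `E(a,c,g+1) ≤ E(a,c,g)`: termwise by (i) at `a+1` and at `g-1`.
(ii) `E(a+1,c,g) ≤ E(a,c,g)`: by (ii) at `(a+1, g+1)` and `(a, g-1)` the left side is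
`≤ ((a+1) X + (c+1) Y) / (a+c+2)`, and `X ≤ E(a+1,c,g-1) ≤ E(a+1,c+1,g-1) ≤ Y` by (i), (iii) at `a+1`
and (ii) at `g-1`; replacing `a` by `a+1` in the average of `X ≤ Y` lowers it.
(iii) `E(a,c,g) ≤ E(a,c+1,g)`: termwise by (iii) and `X ≤ Y`. -/
theorem ee_mono_all (S a c g : ℕ) (ha : 1 ≤ a) :
    ee S a c (g + 1) ≤ ee S a c g ∧ ee S (a + 1) c g ≤ ee S a c g ∧ ee S a c g ≤ ee S a (c + 1) g :=
  ee_mono_aux_Lo2 S (S - a) a rfl g c

theorem ee_gap_anti (S a c g g' : ℕ) (ha : 1 ≤ a) (h : g ≤ g') : ee S a c g' ≤ ee S a c g := by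
  induction h with
  | refl => exact le_rfl
  | step _ ih => exact ((ee_mono_all S a c _ ha).1).trans ih

theorem ee_sec_mono (S a c c' g : ℕ) (ha : 1 ≤ a) (h : c ≤ c') : ee S a c g ≤ ee S a c' g := by
  induction h with
  | refl => exact le_rfl
  | step _ ih => exact ih.trans (ee_mono_all S a _ g ha).2.2

end Pool.Agent.Lib.MP_ad84ff_co
end

section

/-!
# Kernel computation of the two body potential

Floor arithmetic with the scale `K = 10^9`.  Rows are evaluated completely before they are used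
(continuations).
-/

set_option autoImplicit false
set_option maxRecDepth 100000

namespace Pool.Agent.Lib.MP_ad84ff_co

/-- The next row at level `a`: `up` is the row of gap `g + 1` at level `a + 1`, `left` the row of gap
`g - 1` at level `a` (shifted by one); the entry `c` is
`(a * up[c] + (c + 1) * left[c + 1]) / (a + c + 1)`. -/
noncomputable def rowK {α : Type} (a : ℕ) (up : List ℕ) : ℕ → List ℕ → (List ℕ → α) → α :=
  List.rec (fun _ _ K => K []) (fun u _ ih c left K =>
    List.rec (K []) (fun x l' _ =>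
      fN (Nat.div (Nat.add (Nat.mul a u) (Nat.mul (Nat.succ c) x)) (Nat.add a (Nat.succ c)))
        fun v => fN (Nat.succ c) fun c' => ih c' l' fun rest => K (v :: rest)) left) up

/-- All rows of gap `≥ 1` at level `a` from the rows `V` of gap `≥ 2` at level `a + 1`. -/
noncomputable def tabK {α : Type} (a : ℕ) (V : List (List ℕ)) :
    List ℕ → (List (List ℕ) → α) → α :=
  List.rec (fun _ K => K []) (fun up _ ih left K =>
    rowK a up 0 (left.tail) fun row => ih row fun rest => K (row :: rest)) V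

/-- `n`-th entry, `0` if there is none. -/
noncomputable def nthN (l : List ℕ) : ℕ → ℕ :=
  List.rec (fun _ => 0) (fun x _ ih n => Nat.rec x (fun m _ => ih m) n) l

/-- `n`-th row, empty if there is none. -/
noncomputable def nthL (l : List (List ℕ)) : ℕ → List ℕ :=
  List.rec (fun _ => []) (fun x _ ih n => Nat.rec x (fun m _ => ih m) n) l

/-- Contribution of the entries of `t` with first size `a`; `V` are the rows at level `a`
(`V[g]` for gap `g`). -/
noncomputable def contr (a : ℕ) (V : List (List ℕ)) (t : List (ℕ × St)) : ℕ → ℕ :=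
  List.rec (fun acc => acc) (fun x _ ih acc =>
    List.rec (ih acc) (fun F τ _ =>
      bif Nat.beq F.1 a then
        List.rec (ih acc) (fun G _ _ =>
          fN (Nat.add acc (Nat.mul x.1 (Nat.add (Nat.mul a 1000000000)
            (Nat.mul F.2 (nthN (nthL V (Nat.succ G.1)) F.2))))) fun acc' => ih acc') τ
      else ih acc) x.2) t

/-- Descent from level `a` to level `1`; `U` are the rows at level `a + 1`. -/
noncomputable def runK (z : ℕ) (a : ℕ) : List (List ℕ) → ℕ → ℕ :=
  Nat.rec (fun _ acc => acc) (fun a' ih U acc =>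
    tabK (Nat.succ a') U.tail.tail (List.replicate (Nat.add z a') 1000000000) fun V =>
      bif Nat.ble a' 14 then
        fN (contr (Nat.succ a') (List.replicate (Nat.add z a') 1000000000 :: V) tbl acc) fun acc' =>
          ih (List.replicate (Nat.add z a') 1000000000 :: V) acc'
      else ih (List.replicate (Nat.add z a') 1000000000 :: V) acc) a

/-- The rows at level `S`: row `0` is constant, the others are zero. -/
noncomputable def startK (z : ℕ) (n : ℕ) : List (List ℕ) :=
  List.replicate z 1000000000 :: List.replicate n (List.replicate z 0)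

set_option maxHeartbeats 0 in
theorem kernel_low : Nat.ble 16332824976670561961763
    (runK 17 99 (startK 117 103) 0) = true := by
  decide +kernel

end Pool.Agent.Lib.MP_ad84ff_co
end

section

set_option autoImplicit false

namespace Pool.Agent.Lib.MP_ad84ff_co

theorem wpot_zero (a b : ℕ) : wpot a b 0 = 0 := by
  unfold wpot
  simp

private theorem J_shift (a b : ℕ) (hb : 1 ≤ b) (m k : ℕ) (h : m + k ≤ a - 1) :
    J (a - (m + k)) (b + 1 + (m + k)) ≤ J (a - m) (b + 1 + m) := by
  induction k with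
  | zero => simp
  | succ k ih =>
    refine le_trans ?_ (ih (by omega))
    have h1 := J_anti (a - (m + (k + 1))) (b + 1 + (m + k)) (by omega) (by omega)
    have h2 : a - (m + (k + 1)) + 1 = a - (m + k) := by omega
    have h3 : b + 1 + (m + k) + 1 = b + 1 + (m + (k + 1)) := by omega
    rw [h2, h3] at h1
    exact h1

/-- `J (a - g) (b + 1 + g)` is nonincreasing in `g` for `g ≤ a - 1` (`J_anti`). -/
theorem wpot_mono (a b g g' : ℕ) (ha : 1 ≤ a) (hb : 1 ≤ b) (h : g ≤ g') :
    wpot a b g ≤ wpot a b g' := by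
  unfold wpot
  refine mul_le_mul_of_nonneg_left ?_ (Binv_pos a b).le
  have h1 : min g (a - 1) ≤ min g' (a - 1) := min_le_min_right _ h
  obtain ⟨k, hk⟩ := Nat.exists_eq_add_of_le h1
  have h2 : min g (a - 1) + k ≤ a - 1 := by
    rw [← hk]
    exact min_le_right _ _
  have h3 := J_shift a b hb (min g (a - 1)) k h2
  rw [← hk] at h3
  linarith

theorem wpot_nonneg (a b g : ℕ) (ha : 1 ≤ a) (hb : 1 ≤ b) : 0 ≤ wpot a b g := by
  have h := wpot_mono a b 0 g ha hb (Nat.zero_le _)
  rwa [wpot_zero] at h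

/-- `wpot ≤ Binv a b * J a (b+1) = (b/(a+b)) * Binv a (b+1) * J a (b+1) ≤ b/(a+b)`. -/
theorem wpot_le (a b g : ℕ) (ha : 1 ≤ a) (hb : 1 ≤ b) : wpot a b g ≤ (b : ℝ) / ((a : ℝ) + b) := by
  have hab : (0 : ℝ) < (a : ℝ) + b := by
    have : (1 : ℝ) ≤ (a : ℝ) := by exact_mod_cast ha
    have : (0 : ℝ) ≤ (b : ℝ) := Nat.cast_nonneg b
    linarith
  have hb0 : (0 : ℝ) ≤ (b : ℝ) := Nat.cast_nonneg b
  have h1 : wpot a b g ≤ Binv a b * J a (b + 1) := by
    unfold wpot
    refine mul_le_mul_of_nonneg_left ?_ (Binv_pos a b).le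
    have := J_nonneg (a - min g (a - 1)) (b + 1 + min g (a - 1))
    linarith
  refine h1.trans ?_
  rw [le_div_iff₀ hab]
  have h2 := Binv_succ_right a b ha hb
  have h3 := Binv_mul_J a (b + 1) ha (by omega)
  calc Binv a b * J a (b + 1) * ((a : ℝ) + b) = (((a : ℝ) + b) * Binv a b) * J a (b + 1) := by ring
    _ = ((b : ℝ) * Binv a (b + 1)) * J a (b + 1) := by rw [h2]
    _ = (b : ℝ) * (Binv a (b + 1) * J a (b + 1)) := by ring
    _ ≤ (b : ℝ) * 1 := mul_le_mul_of_nonneg_left h3 hb0
    _ = b := mul_one _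

end Pool.Agent.Lib.MP_ad84ff_co
end

section

set_option autoImplicit false

namespace Pool.Agent.Lib.MP_ad84ff_co

private theorem harm_succ_real (m : ℕ) :
    ((harmonic (m + 1) : ℚ) : ℝ) = ((harmonic m : ℚ) : ℝ) + 1 / ((m : ℝ) + 1) := by
  rw [harmonic_succ]
  push_cast
  rw [one_div]

theorem harmonic_mono' (a b : ℕ) (h : a ≤ b) : ((harmonic a : ℚ) : ℝ) ≤ ((harmonic b : ℚ) : ℝ) := by
  induction b, h using Nat.le_induction with
  | base => exact le_refl _
  | succ m _ ih =>
    refine le_trans ih ?_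
    rw [harm_succ_real]
    have : (0 : ℝ) ≤ 1 / ((m : ℝ) + 1) := by positivity
    linarith

/-- Change of the harmonic potential.  `W_succ_first` with `φ _ s = harmonic (s - 1) - harmonic (n+1)`
and `harmonic s = harmonic (s - 1) + 1 / s` (`s = front σ ≥ 1`), `harmonic (n + 1) = harmonic n +
1 / (n + 1)`. -/
theorem W_succ_harm (n : ℕ) (σ : St) (h : Good n σ) (hσ : σ ≠ []) :
    W (succ σ) (harm (n + 1)) = ((n : ℝ) + 1) * harm n σ +
      ms (fun k => ((harmonic (front σ + k - 1) : ℚ) : ℝ) - ((harmonic (front σ - 1) : ℚ) : ℝ)) σ := by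
  obtain _ | ⟨F, τ⟩ := σ
  · exact absurd rfl hσ
  · have h1 := W_succ_first F τ
      (fun _ s => ((harmonic (s - 1) : ℚ) : ℝ) - ((harmonic (n + 1) : ℚ) : ℝ))
    have hfr : front (F :: τ) = F.2 := rfl
    have hF : 1 ≤ F.2 := by
      have := h.pos F (by simp)
      omega
    obtain ⟨m, hm⟩ : ∃ m, F.2 = m + 1 := ⟨F.2 - 1, by omega⟩
    have hsum : ((F.2 : ℝ)) + (((τ.map Prod.snd).sum : ℕ) : ℝ) = (n : ℝ) := by
      have := h.sum
      rw [List.map_cons, List.sum_cons] at this
      exact_mod_cast this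
    have h2 : ms (fun k => ((harmonic (F.2 + k - 1) : ℚ) : ℝ) - ((harmonic (n + 1) : ℚ) : ℝ)) (F :: τ)
        = ms (fun k => ((harmonic (F.2 + k - 1) : ℚ) : ℝ) - ((harmonic (F.2 - 1) : ℚ) : ℝ)) (F :: τ)
          + (((harmonic (F.2 - 1) : ℚ) : ℝ) - ((harmonic (n + 1) : ℚ) : ℝ)) * tie (F :: τ) := by
      rw [tie, ← ms_mul, ← ms_add]
      congr 1
      funext k
      ring
    have h3 : W (succ (F :: τ)) (harm (n + 1)) =
        W (succ (F :: τ)) (fun σ => ((harmonic (front σ - 1) : ℚ) : ℝ)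
          - ((harmonic (n + 1) : ℚ) : ℝ)) := rfl
    rw [h3, h1, hfr, h2]
    simp only [harm, hfr]
    rw [hm]
    simp only [Nat.add_sub_cancel]
    rw [harm_succ_real m, harm_succ_real n]
    rw [hm] at hsum
    push_cast at hsum ⊢
    have hn : (n : ℝ) + 1 ≠ 0 := by positivity
    have hm0 : (m : ℝ) + 1 ≠ 0 := by positivity
    have hS : (((τ.map Prod.snd).sum : ℕ) : ℝ) = (n : ℝ) - ((m : ℝ) + 1) := by
      push_cast; linarith
    push_cast at hS
    rw [hS]
    field_simp
    ring

/-- A light merge gains at least `1/3`: the sum of `1/i` over `s ≤ i < s + k` has `k` terms, each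
`≥ 1 / (s + k - 1) ≥ 1 / (3 k)`. -/
theorem harm_gain (s k : ℕ) (hs : 1 ≤ s) (h : s < 2 * k) :
    (1 / 3 : ℝ) ≤ ((harmonic (s + k - 1) : ℚ) : ℝ) - ((harmonic (s - 1) : ℚ) : ℝ) := by
  obtain ⟨m, rfl⟩ : ∃ m, s = m + 1 := ⟨s - 1, by omega⟩
  have key : ∀ j : ℕ, j ≤ k → (j : ℝ) / (3 * (k : ℝ)) ≤
      ((harmonic (m + j) : ℚ) : ℝ) - ((harmonic m : ℚ) : ℝ) := by
    intro j
    induction j with
    | zero => intro _; simp
    | succ j ih =>
      intro hj
      have h1 := ih (by omega)
      have h2 : ((harmonic (m + (j + 1)) : ℚ) : ℝ) = ((harmonic (m + j) : ℚ) : ℝ)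
          + 1 / (((m + j : ℕ) : ℝ) + 1) := harm_succ_real (m + j)
      rw [h2]
      have hk0 : (0 : ℝ) < k := by
        have : 0 < k := by omega
        exact_mod_cast this
      have h3 : 1 / (3 * (k : ℝ)) ≤ 1 / (((m + j : ℕ) : ℝ) + 1) := by
        apply one_div_le_one_div_of_le
        · positivity
        · have : m + j + 1 ≤ 3 * k := by omega
          exact_mod_cast this
      have h4 : (((j + 1 : ℕ)) : ℝ) / (3 * (k : ℝ)) = (j : ℝ) / (3 * (k : ℝ)) + 1 / (3 * (k : ℝ)) := by
        push_cast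
        ring
      rw [h4]
      linarith
  have h5 := key k le_rfl
  have hk0 : (0 : ℝ) < k := by
    have : 0 < k := by omega
    exact_mod_cast this
  have h6 : (k : ℝ) / (3 * (k : ℝ)) = 1 / 3 := by
    field_simp
  rw [h6] at h5
  have h7 : m + 1 + k - 1 = m + k := by omega
  have h8 : m + 1 - 1 = m := by omega
  rw [h7, h8]
  exact h5

end Pool.Agent.Lib.MP_ad84ff_co
end

section

set_option autoImplicit false

namespace Pool.Agent.Lib.MP_ad84ff_co

/-- `w` is subharmonic for the two step urn with a gap.  With `m = min g (a-1)` (so `m ≥ 1` or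
`wpot = 0`) `J_rec` at `(a, b+1)` and at `(a - m, b + 1 + m)` and `Binv_succ_left/right` give
equality for `g = m`, namely `(a+b) w(a,b,m) = a w(a+1,b,m+1) + b w(a,b+1,m-1)` (the truncations are
not active in `w(a+1,b,m+1)`, since `m + 1 ≤ a`); then use `wpot_mono` on the right side. -/
theorem wpot_harm (a b g : ℕ) (ha : 1 ≤ a) (hb : 1 ≤ b) (hg : 1 ≤ g) :
    ((a : ℝ) + b) * wpot a b g ≤ (a : ℝ) * wpot (a + 1) b (g + 1) + (b : ℝ) * wpot a (b + 1) (g - 1) := by
  rcases Nat.eq_zero_or_pos (min g (a - 1)) with hm | hm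
  · have h0 : wpot a b g = 0 := by
      unfold wpot
      rw [hm]
      simp
    rw [h0, mul_zero]
    have h1 := wpot_nonneg (a + 1) b (g + 1) (by omega) hb
    have h2 := wpot_nonneg a (b + 1) (g - 1) ha (by omega)
    positivity
  · obtain ⟨m, hmm⟩ : ∃ m, min g (a - 1) = m + 1 := ⟨min g (a - 1) - 1, by omega⟩
    have hma : m + 1 ≤ a - 1 := by omega
    have hmg : m + 1 ≤ g := by omega
    -- the first term
    have e1 : min (g + 1) (a + 1 - 1) = m + 2 := by omega
    have e2 : a + 1 - (m + 2) = a - (m + 1) := by omega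
    have e3 : b + 1 + (m + 2) = b + 1 + (m + 1) + 1 := by omega
    have t1 : (a : ℝ) * wpot (a + 1) b (g + 1)
        = ((a : ℝ) + b) * Binv a b * (J (a + 1) (b + 1) - J (a - (m + 1)) (b + 1 + (m + 1) + 1)) := by
      unfold wpot
      rw [e1, e2, e3, ← mul_assoc, Binv_succ_left a b ha hb]
    -- the second term
    have e4 : min m (a - 1) = m := by omega
    have e5 : a - m = a - (m + 1) + 1 := by omega
    have e6 : b + 1 + 1 + m = b + 1 + (m + 1) := by omega
    have t2 : (b : ℝ) * wpot a (b + 1) m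
        = ((a : ℝ) + b) * Binv a b * (J a (b + 1 + 1) - J (a - (m + 1) + 1) (b + 1 + (m + 1))) := by
      unfold wpot
      rw [e4, e5, e6, ← mul_assoc, Binv_succ_right a b ha hb]
    have t3 : wpot a (b + 1) m ≤ wpot a (b + 1) (g - 1) :=
      wpot_mono a (b + 1) m (g - 1) ha (by omega) (by omega)
    have t4 : ((a : ℝ) + b) * wpot a b g
        = ((a : ℝ) + b) * Binv a b * (J a (b + 1) - J (a - (m + 1)) (b + 1 + (m + 1))) := by
      unfold wpot
      rw [hmm, ← mul_assoc]
    have r1 := J_rec a (b + 1) ha (by omega)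
    have r2 := J_rec (a - (m + 1)) (b + 1 + (m + 1)) (by omega) (by omega)
    have t5 : (b : ℝ) * wpot a (b + 1) m ≤ (b : ℝ) * wpot a (b + 1) (g - 1) :=
      mul_le_mul_of_nonneg_left t3 (by positivity)
    calc ((a : ℝ) + b) * wpot a b g
        = (a : ℝ) * wpot (a + 1) b (g + 1) + (b : ℝ) * wpot a (b + 1) m := by
          rw [t1, t2, t4, r1, r2]; ring
      _ ≤ _ := by linarith

end Pool.Agent.Lib.MP_ad84ff_co
end

section

set_option autoImplicit false

namespace Pool.Agent.Lib.MP_ad84ff_co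

/-- One step for `1 / (s₁ + 1)`: the choice of the first packet (weight `a`) gives `1/(a+2)`, the
others give at most `1/(a+1)`; so the mean is at most `1/(a+1) * (1 - a/((n+1)(a+2)))` and
`a/(a+2) ≥ 1/3`. -/
theorem W_succ_inv (n : ℕ) (σ : St) (h : Good n σ) (hσ : σ ≠ []) :
    W (succ σ) (fun σ => 1 / ((front σ : ℝ) + 1)) / ((n : ℝ) + 1) ≤
      (1 - 1 / (3 * ((n : ℝ) + 1))) * (1 / ((front σ : ℝ) + 1)) := by
  cases σ with
  | nil => exact absurd rfl hσ
  | cons F τ =>
    have hsum := h.sum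
    rw [List.map_cons, List.sum_cons] at hsum
    have hF := h.pos F List.mem_cons_self
    have ha1 : 1 ≤ F.2 := le_trans hF.1 hF.2
    have hfr : front (F :: τ) = F.2 := rfl
    have h1 := W_succ_first F τ (fun _ s => 1 / ((s : ℝ) + 1))
    have h2 : ms (fun k => 1 / (((F.2 + k : ℕ) : ℝ) + 1)) (F :: τ) ≤
        (1 / ((F.2 : ℝ) + 1)) * tie (F :: τ) := by
      have h3 : (1 / ((F.2 : ℝ) + 1)) * tie (F :: τ) =
          ms (fun _ => (1 / ((F.2 : ℝ) + 1)) * 1) (F :: τ) := by
        unfold tie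
        rw [ms_mul (1 / ((F.2 : ℝ) + 1)) (fun _ => (1 : ℝ)) (F :: τ)]
      rw [h3]
      apply ms_mono _ _ _ _ n h
      intro k _
      rw [mul_one]
      apply one_div_le_one_div_of_le (by positivity)
      push_cast
      have : (0 : ℝ) ≤ (k : ℝ) := Nat.cast_nonneg k
      linarith
    rw [hfr]
    have hn : (((τ.map Prod.snd).sum : ℕ) : ℝ) = (n : ℝ) - F.2 := by
      rw [← hsum]
      push_cast
      ring
    have ha : (1 : ℝ) ≤ F.2 := by exact_mod_cast ha1
    generalize hFa : (F.2 : ℝ) = a at *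
    have hn0 : (0 : ℝ) ≤ n := Nat.cast_nonneg n
    rw [div_le_iff₀ (by positivity)]
    have e0 : W (succ (F :: τ)) (fun σ => 1 / ((front σ : ℝ) + 1)) =
        a * (1 / (((F.2 + 1 : ℕ) : ℝ) + 1)) + (((n : ℝ) - a) + 1 - tie (F :: τ)) * (1 / (a + 1)) +
          ms (fun k => 1 / (((F.2 + k : ℕ) : ℝ) + 1)) (F :: τ) := by
      rw [h1, hn]
    have e1 : (((F.2 + 1 : ℕ) : ℝ) + 1) = a + 2 := by
      push_cast
      rw [hFa]
      ring
    rw [e0, e1]
    have e2 : a * (1 / (a + 2)) ≤ (a - 1 / 3) * (1 / (a + 1)) := by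
      rw [mul_one_div, mul_one_div, div_le_div_iff₀ (by positivity) (by positivity)]
      nlinarith
    have e3 : (1 - 1 / (3 * ((n : ℝ) + 1))) * (1 / (a + 1)) * ((n : ℝ) + 1) =
        ((n : ℝ) + 1 - 1 / 3) * (1 / (a + 1)) := by
      field_simp
    rw [e3]
    have e4 : ((n : ℝ) - a + 1 - tie (F :: τ)) * (1 / (a + 1)) + (1 / (a + 1)) * tie (F :: τ) =
        ((n : ℝ) - a + 1) * (1 / (a + 1)) := by ring
    have e5 : (a - 1 / 3) * (1 / (a + 1)) + ((n : ℝ) - a + 1) * (1 / (a + 1)) =
        ((n : ℝ) + 1 - 1 / 3) * (1 / (a + 1)) := by ring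
    linarith

/-- `(1 - x/3)^3 (1 + x) ≤ 1` for `0 ≤ x ≤ 1`, hence the cube of the mean is at most `1/(n+1)`. -/
theorem M_inv_cube (n : ℕ) (hn : 1 ≤ n) :
    (M n (fun σ => 1 / ((front σ : ℝ) + 1))) ^ 3 ≤ 1 / ((n : ℝ) + 1) := by
  induction n with
  | zero => omega
  | succ n ih =>
    by_cases hn1 : n = 0
    · subst hn1
      have h1 : M (0 + 1) (fun σ => 1 / ((front σ : ℝ) + 1)) = 1 / 2 := by
        rw [M_succ, M_zero]
        simp only [succ, W_cons, W_nil, front]
        norm_num
      rw [h1]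
      norm_num
    · have hn2 : 1 ≤ n := by omega
      have h1 := ih hn2
      have hn0 : (0 : ℝ) < (n : ℝ) + 1 := by positivity
      have h2 : M (n + 1) (fun σ => 1 / ((front σ : ℝ) + 1)) ≤
          (1 - 1 / (3 * ((n : ℝ) + 1))) * M n (fun σ => 1 / ((front σ : ℝ) + 1)) := by
        rw [M_succ, ← M_mul]
        apply M_mono
        intro σ hσ
        apply W_succ_inv n σ hσ
        rintro rfl
        have h3 := hσ.sum
        simp only [List.map_nil, List.sum_nil] at h3
        omega
      have h4 : 0 ≤ M (n + 1) (fun σ => 1 / ((front σ : ℝ) + 1)) :=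
        M_nonneg _ _ (fun σ _ => by positivity)
      have hx : 1 / (3 * ((n : ℝ) + 1)) = (1 / ((n : ℝ) + 1)) / 3 := by
        field_simp
      have hx1 : (1 / ((n : ℝ) + 1)) ≤ 1 := by
        rw [div_le_one hn0]
        have : (0 : ℝ) ≤ n := Nat.cast_nonneg n
        linarith
      have hx0 : 0 ≤ (1 / ((n : ℝ) + 1)) := by positivity
      calc (M (n + 1) (fun σ => 1 / ((front σ : ℝ) + 1))) ^ 3
          ≤ ((1 - 1 / (3 * ((n : ℝ) + 1))) * M n (fun σ => 1 / ((front σ : ℝ) + 1))) ^ 3 :=
            pow_le_pow_left₀ h4 h2 3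
        _ = (1 - 1 / (3 * ((n : ℝ) + 1))) ^ 3 * (M n (fun σ => 1 / ((front σ : ℝ) + 1))) ^ 3 := by
            rw [mul_pow]
        _ ≤ (1 - 1 / (3 * ((n : ℝ) + 1))) ^ 3 * (1 / ((n : ℝ) + 1)) := by
            apply mul_le_mul_of_nonneg_left h1
            apply pow_nonneg
            rw [hx]
            linarith
        _ ≤ 1 / (((n + 1 : ℕ) : ℝ) + 1) := by
            rw [hx]
            have e1 : 1 / (((n + 1 : ℕ) : ℝ) + 1) = (1 / ((n : ℝ) + 1)) / (1 + 1 / ((n : ℝ) + 1)) := by
              push_cast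
              field_simp
            rw [e1]
            generalize (1 / ((n : ℝ) + 1)) = x at *
            rw [le_div_iff₀ (by linarith)]
            have e2 : (1 - x / 3) ^ 3 * (1 + x) ≤ 1 := by
              have e3 : (1 - x / 3) ^ 3 * (1 + x) = 1 - x ^ 2 * (2 / 3 - 8 * x / 27 + x ^ 2 / 27) := by ring
              rw [e3]
              have e4 : 0 ≤ x ^ 2 * (2 / 3 - 8 * x / 27 + x ^ 2 / 27) := by
                apply mul_nonneg (by positivity)
                nlinarith [sq_nonneg x]
              linarith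
            calc (1 - x / 3) ^ 3 * x * (1 + x) = ((1 - x / 3) ^ 3 * (1 + x)) * x := by ring
              _ ≤ 1 * x := mul_le_mul_of_nonneg_right e2 hx0
              _ = x := one_mul x

theorem M_inv_tendsto :
    Filter.Tendsto (fun n => M n (fun σ => 1 / ((front σ : ℝ) + 1))) Filter.atTop (nhds 0) := by
  rw [Metric.tendsto_atTop]
  intro ε hε
  obtain ⟨N, hN⟩ := exists_nat_gt (1 / ε ^ 3)
  refine ⟨N + 1, fun n hn => ?_⟩
  have h1 := M_inv_cube n (by omega)
  have h2 : 0 ≤ M n (fun σ => 1 / ((front σ : ℝ) + 1)) := M_nonneg _ _ (fun σ _ => by positivity)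
  rw [Real.dist_eq, sub_zero, abs_of_nonneg h2]
  have h3 : (M n (fun σ => 1 / ((front σ : ℝ) + 1))) ^ 3 < ε ^ 3 := by
    refine lt_of_le_of_lt h1 ?_
    have hNn : (N : ℝ) ≤ n := by
      have : N ≤ n := by omega
      exact_mod_cast this
    have h4 : 1 / ε ^ 3 < (n : ℝ) + 1 := by linarith
    rw [div_lt_iff₀ (by positivity)] at h4 ⊢
    linarith
  exact lt_of_pow_lt_pow_left₀ 3 hε.le h3

end Pool.Agent.Lib.MP_ad84ff_co
end

section

set_option autoImplicit false

namespace Pool.Agent.Lib.MP_ad84ff_co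

private theorem po5_top_le (G : ℕ × ℕ) (ρ : St)
    (h : (G :: ρ).Pairwise fun F G => G.1 ≤ F.1) : top ρ ≤ G.1 := by
  cases ρ with
  | nil => exact Nat.zero_le _
  | cons H r => exact (List.pairwise_cons.mp h).1 H (List.mem_cons_self ..)

private theorem po5_tail (l : ℕ) : ∀ (τ : St) (_ : τ.Pairwise fun F G => G.1 ≤ F.1)
    (_ : ∀ F ∈ τ, F.1 ≤ l), ∀ x ∈ succ τ, ∀ F ∈ x.2.tail, F.1 ≤ l := by
  intro τ
  induction τ with
  | nil =>
    intro _ _ x hx F hF
    simp only [succ, List.mem_singleton] at hx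
    subst hx
    simp at hF
  | cons G ρ ih =>
    intro hp hl x hx F hF
    have hG : G.1 ≤ l := hl G (List.mem_cons_self ..)
    have hρ : ∀ F ∈ ρ, F.1 ≤ l := fun F hF => hl F (List.mem_cons_of_mem _ hF)
    have hpρ := (List.pairwise_cons.mp hp).2
    have htop := po5_top_le G ρ hp
    simp only [succ, List.mem_cons, List.mem_map] at hx
    rcases hx with rfl | ⟨⟨w, z⟩, hz, rfl⟩
    · exact hρ F hF
    · have h1 := (succ_top ρ _ hz).2
      have h2 := ih hpρ hρ _ hz
      cases z with
      | nil => simp [glue] at hF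
      | cons K q =>
        by_cases hK : K.1 = G.1 + 1
        · simp only [glue, if_pos hK] at hF
          exact h2 F hF
        · simp only [glue, if_neg hK] at hF
          have hF' : F = K ∨ F ∈ q := by simpa using hF
          have h3 : K.1 ≤ top ρ + 1 := h1
          rcases hF' with rfl | hF'
          · omega
          · exact h2 F hF'

private theorem po5_pot_le (σ : St) : pot σ ≤ (1 / 2) ^ (gap σ + 1) := by
  unfold pot
  split_ifs
  · exact le_refl _
  · positivity

private theorem po5_pot_zero (σ : St) (h : front σ < 2 * (sec σ + gap σ)) : pot σ = 0 := by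
  unfold pot
  rw [if_neg]
  intro h1
  omega

private theorem po5_key (n : ℕ) (F : ℕ × ℕ) (τ : St) (h : Good n (F :: τ))
    (h0 : F.2 < 2 * (front τ + (F.1 - top τ))) : ∀ x ∈ succ τ,
    (top x.2 = F.1 + 1 → F.2 < 2 * front x.2) ∧
      pot (glue F x.2) ≤ if top x.2 = F.1 + 1 then 1 / 4 else 0 := by
  intro x hx
  have hF := h.pos F (List.mem_cons_self ..)
  have hne := succ_ne_nil τ x hx
  have htail := po5_tail F.1 τ (List.pairwise_cons.mp h.anti).2
    (fun G hG => (List.pairwise_cons.mp h.anti).1 G hG) x hx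
  have htop := po5_top_le F τ h.anti
  -- how the second packet changes
  have hcase : (top τ = F.1 ∧ top x.2 = F.1 + 1 ∧ front τ + 1 ≤ front x.2) ∨
      (top x.2 ≤ F.1 ∧ front τ + (F.1 - top τ) ≤ front x.2 + (F.1 - top x.2)) := by
    cases τ with
    | nil =>
      simp only [succ, List.mem_singleton] at hx
      subst hx
      right
      simp only [top, front]
      omega
    | cons G ρ =>
      have h3 := succ_cases G ρ (fun K hK =>
        le_trans (h.pos K (List.mem_cons_of_mem _ (List.mem_cons_of_mem _ hK))).1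
          (h.pos K (List.mem_cons_of_mem _ (List.mem_cons_of_mem _ hK))).2) x hx
      simp only [top, front] at htop ⊢
      rcases h3 with h3 | h3
      · right
        simp only [top, front] at h3
        omega
      · by_cases hGF : G.1 = F.1
        · left
          simp only [top, front] at h3
          omega
        · right
          simp only [top, front] at h3
          omega
  obtain ⟨w, z⟩ := x
  cases z with
  | nil => exact absurd rfl hne
  | cons K q =>
    simp only at hcase ⊢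
    rcases hcase with ⟨h1, h2, h3⟩ | ⟨h1, h2⟩
    · constructor
      · intro _
        omega
      · rw [if_pos h2]
        have hK : K.1 = F.1 + 1 := h2
        simp only [glue, if_pos hK]
        refine le_trans (po5_pot_le _) ?_
        have hq : top q ≤ F.1 := by
          cases q with
          | nil => exact Nat.zero_le _
          | cons H r => exact htail H (by simp)
        have hg : 1 ≤ gap ((K.1, F.2 + K.2) :: q) := by
          simp only [gap]
          omega
        obtain ⟨m, hm⟩ := Nat.exists_eq_add_of_le hg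
        rw [hm]
        have h5 : (1 / 2 : ℝ) ^ m ≤ 1 := pow_le_one₀ (by norm_num) (by norm_num)
        have h6 : (1 / 2 : ℝ) ^ (1 + m + 1) = (1 / 4) * (1 / 2 : ℝ) ^ m := by
          rw [show 1 + m + 1 = m + 2 by omega, pow_add]
          norm_num
          ring
        rw [h6]
        linarith
    · have h3 : ¬ (top (K :: q) = F.1 + 1) := by omega
      refine ⟨fun h => absurd h h3, ?_⟩
      rw [if_neg h3]
      have hK : ¬ (K.1 = F.1 + 1) := h3
      simp only [glue, if_neg hK]
      refine le_of_eq (po5_pot_zero _ ?_)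
      have h2' : front τ + (F.1 - top τ) ≤ K.2 + (F.1 - K.1) := h2
      change F.2 < 2 * (K.2 + (F.1 - K.1))
      omega

/-- The case `pot σ = 0` (no revival): `2 (c + g) > a`.  If `F` is chosen the new value is `0`
(`2 (c + g + 1) > a + 1`).  If a successor `x` of the tail is no merge then the second packet
changes according to `succ_cases`, and `c + g` does not decrease: value `0`.  After a merge the gap
is at least `1`, so the value is at most `1/4`.  There is no heavy merge: a merge means `g = 0` and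
it adds `k ≥ c + 1`, `2 k > a`. -/
theorem pot_zero (n : ℕ) (σ : St) (h : Good n σ) (hσ : σ ≠ []) (h0 : front σ < 2 * (sec σ + gap σ)) :
    heavy σ + W (succ σ) pot ≤ (1 / 4) * tie σ := by
  cases σ with
  | nil => exact absurd rfl hσ
  | cons F τ =>
    have h0' : F.2 < 2 * (front τ + (F.1 - top τ)) := h0
    have hkey := po5_key n F τ h h0'
    have htop := po5_top_le F τ h.anti
    have hheavy : heavy (F :: τ) = 0 := by
      simp only [heavy, ms]
      apply List.sum_eq_zero
      intro y hy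
      rw [List.mem_map] at hy
      obtain ⟨x, hx, rfl⟩ := hy
      by_cases h1 : top x.2 = F.1 + 1
      · rw [if_pos h1, if_neg, mul_zero]
        have h2 := (hkey x hx).1 h1
        change ¬ (2 * front x.2 ≤ F.2)
        omega
      · rw [if_neg h1]
    have hfirst : pot ((F.1 + 1, F.2 + 1) :: τ) = 0 := by
      apply po5_pot_zero
      change F.2 + 1 < 2 * (front τ + (F.1 + 1 - top τ))
      omega
    have hW : W (succ (F :: τ)) pot =
        ((succ τ).map fun x => (x.1 : ℝ) * pot (glue F x.2)).sum := by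
      simp only [W, succ, List.map_cons, List.sum_cons, List.map_map]
      rw [hfirst, mul_zero, zero_add]
      rfl
    have hle : ((succ τ).map fun x => (x.1 : ℝ) * pot (glue F x.2)).sum ≤
        ((succ τ).map fun x => (1 / 4) *
          (if top x.2 = F.1 + 1 then (x.1 : ℝ) * 1 else 0)).sum := by
      apply List.sum_le_sum
      intro x hx
      have h1 := (hkey x hx).2
      have h2 := mul_le_mul_of_nonneg_left h1 (Nat.cast_nonneg (α := ℝ) x.1)
      refine le_trans h2 (le_of_eq ?_)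
      split_ifs
      · ring
      · ring
    rw [hheavy, zero_add, hW]
    refine le_trans hle (le_of_eq ?_)
    rw [List.sum_map_mul_left]
    rfl

end Pool.Agent.Lib.MP_ad84ff_co
end

section

set_option autoImplicit false

namespace Pool.Agent.Lib.MP_ad84ff_co

/-- In a successor all levels after the first packet are at most the old top level. -/
private theorem p6_tail : ∀ (σ : St), (σ.Pairwise fun F G => G.1 ≤ F.1) →
    ∀ x ∈ succ σ, top x.2.tail ≤ top σ
  | [], _ => by
    intro x hx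
    simp only [succ, List.mem_singleton] at hx
    subst hx
    simp [top]
  | F :: τ, h => by
    intro x hx
    rw [List.pairwise_cons] at h
    have htop : top τ ≤ F.1 := by
      cases τ with
      | nil => simp [top]
      | cons G ρ => exact h.1 G (by simp)
    simp only [succ, List.mem_cons, List.mem_map] at hx
    rcases hx with rfl | ⟨y, hy, rfl⟩
    · simpa [top] using htop
    · have ih := p6_tail τ h.2 y hy
      have ht := (succ_top τ y hy).2
      obtain ⟨w, z⟩ := y
      cases z with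
      | nil => simp [glue, top]
      | cons H r =>
        have ht' : H.1 ≤ top τ + 1 := ht
        have ih' : top r ≤ top τ := ih
        simp only [glue]
        split_ifs with hH
        · exact ih'.trans htop
        · change H.1 ≤ F.1
          omega

private theorem p6_lin (l : List (ℕ × St)) (c d : ℝ) (u v : ℕ × St → ℝ) :
    (l.map fun x => c * u x - d * v x).sum = c * (l.map u).sum - d * (l.map v).sum := by
  induction l with
  | nil => simp
  | cons a l ih => simp only [List.map_cons, List.sum_cons, ih]; ring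

private theorem p6_quarter (g : ℕ) (hg : 1 ≤ g) : ((1 : ℝ) / 2) ^ (g + 1) ≤ 1 / 4 := by
  have h : ((1 : ℝ) / 2) ^ (g + 1) ≤ (1 / 2) ^ 2 :=
    pow_le_pow_of_le_one (by norm_num) (by norm_num) (by omega)
  norm_num at h ⊢
  exact h

private theorem p6_pot_le (σ : St) (hg : 1 ≤ gap σ) : pot σ ≤ 1 / 4 := by
  unfold pot
  split_ifs
  · exact p6_quarter _ hg
  · norm_num

/-- The case `g = 0`, `2 c ≤ a`: `pot σ = 1/2`.  Choice of `F` (weight `a`): new value at most `1/4`.
Merge (value at most `1/4`): heavy ones contribute at most `1 + 1/4 - 1/2` relative to `pot σ`,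
light ones at most `1/4 - 1/2`.  The other successors do not change the first two packets except
that ... they cannot: when `g = 0` every change of the second packet is a merge.  The weight of the
heavy merges is at most `a / 2 - 1` by `merge_weight` with `A = a / 2`.  So the sum is
`≤ - a / 4 + (3/4) heavy - (1/4) light ≤ (1/4) (heavy + light)`. -/
theorem pot_flat (n : ℕ) (F G : ℕ × ℕ) (ρ : St) (h : Good n (F :: G :: ρ)) (hg : G.1 = F.1)
    (hc : 2 * G.2 ≤ F.2) :
    heavy (F :: G :: ρ) + W (succ (F :: G :: ρ)) pot ≤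
      ((n : ℝ) + 1) * pot (F :: G :: ρ) + (1 / 4) * tie (F :: G :: ρ) := by
  have hF := h.pos F (by simp)
  have hG := h.pos G (by simp)
  have hanti := h.anti
  rw [List.pairwise_cons] at hanti
  have hsum := h.sum
  have hpot : pot (F :: G :: ρ) = 1 / 2 := by
    unfold pot
    have h1 : gap (F :: G :: ρ) = 0 := by simp [gap, top, hg]
    have h2 : sec (F :: G :: ρ) = G.2 := by simp [sec, front]
    rw [h1, h2, if_pos]
    · norm_num
    · refine ⟨by simp, ?_⟩
      simp only [front]
      omega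
  set L := succ (G :: ρ) with hL
  -- the merges
  have hmw := merge_weight F.1 hF.1 (G :: ρ) (fun H hH => h.pos H (List.mem_cons_of_mem _ hH))
    hanti.2 (fun H hH => hanti.1 H hH) (F.2 / 2) (by omega)
  rw [← hL] at hmw
  have hheavy : heavy (F :: G :: ρ) ≤ (F.2 : ℝ) / 2 := by
    have h1 : heavy (F :: G :: ρ) =
        (((L.map fun x => if top x.2 = F.1 + 1 ∧ front x.2 ≤ F.2 / 2 then x.1 else 0).sum : ℕ) : ℝ) := by
      have h0 : heavy (F :: G :: ρ) = (L.map fun x => if top x.2 = F.1 + 1 then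
          (x.1 : ℝ) * (if 2 * front x.2 ≤ F.2 then 1 else 0) else 0).sum := rfl
      rw [h0, Nat.cast_list_sum, List.map_map]
      congr 1
      refine List.map_congr_left fun x _ => ?_
      simp only [Function.comp_apply]
      by_cases ht : top x.2 = F.1 + 1
      · by_cases hf : 2 * front x.2 ≤ F.2
        · rw [if_pos ht, if_pos hf, if_pos ⟨ht, by omega⟩, mul_one]
        · rw [if_pos ht, if_neg hf, if_neg (by rintro ⟨_, h3⟩; omega), mul_zero, Nat.cast_zero]
      · rw [if_neg ht, if_neg (by rintro ⟨h3, _⟩; exact ht h3), Nat.cast_zero]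
    rw [h1]
    have h2 : ((F.2 / 2 - 1 : ℕ) : ℝ) ≤ (F.2 : ℝ) / 2 := by
      have h3 : ((F.2 / 2 - 1 : ℕ) : ℝ) ≤ ((F.2 / 2 : ℕ) : ℝ) := by
        exact_mod_cast Nat.sub_le _ _
      exact h3.trans (Nat.cast_div_le)
    exact le_trans (by exact_mod_cast hmw) h2
  have hht : heavy (F :: G :: ρ) ≤ tie (F :: G :: ρ) := by
    unfold heavy tie
    refine ms_mono _ _ _ (fun k _ => ?_) n h
    split_ifs <;> norm_num
  -- total weight
  have hs : (((L.map fun x => (x.1 : ℝ)).sum) : ℝ) = (n : ℝ) + 1 - F.2 := by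
    have h1 := succ_weight (G :: ρ)
    have h2 : ((L.map fun x => (x.1 : ℝ)).sum : ℝ) = (((L.map Prod.fst).sum : ℕ) : ℝ) := by
      rw [Nat.cast_list_sum, List.map_map]
      rfl
    rw [h2, hL, h1]
    have h3 : F.2 + ((G :: ρ).map Prod.snd).sum = n := by
      rw [← hsum]; simp
    have h4 : (F.2 : ℝ) + (((G :: ρ).map Prod.snd).sum : ℕ) = n := by exact_mod_cast h3
    push_cast
    push_cast at h4
    linarith
  -- the choice of `F`
  have hfirst : pot ((F.1 + 1, F.2 + 1) :: G :: ρ) ≤ 1 / 4 := by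
    apply p6_pot_le
    simp only [gap, top]
    omega
  -- the others
  have hrest : (L.map fun x => (x.1 : ℝ) * pot (glue F x.2)).sum ≤
      (1 / 2) * (L.map fun x => (x.1 : ℝ)).sum - (1 / 4) * tie (F :: G :: ρ) := by
    have h1 : tie (F :: G :: ρ) =
        (L.map fun x => if top x.2 = F.1 + 1 then (x.1 : ℝ) * 1 else 0).sum := rfl
    rw [h1, ← p6_lin]
    refine List.sum_le_sum fun x hx => ?_
    have hx0 : (0 : ℝ) ≤ x.1 := Nat.cast_nonneg _
    rcases succ_cases G ρ (fun H hH =>
      have hH' := h.pos H (List.mem_cons_of_mem _ (List.mem_cons_of_mem _ hH))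
      hH'.1.trans hH'.2) x hx with ⟨ht, hf⟩ | ⟨ht, hf⟩
    · rw [if_neg (by omega)]
      have h2 : pot (glue F x.2) ≤ 1 / 2 := by
        unfold pot
        split_ifs
        · have : ((1 : ℝ) / 2) ^ (gap (glue F x.2) + 1) ≤ (1 / 2) ^ 1 :=
            pow_le_pow_of_le_one (by norm_num) (by norm_num) (by omega)
          simpa using this
        · norm_num
      nlinarith
    · rw [if_pos (by omega)]
      have h2 : pot (glue F x.2) ≤ 1 / 4 := by
        apply p6_pot_le
        have htl := p6_tail (G :: ρ) hanti.2 x hx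
        obtain ⟨w, z⟩ := x
        cases z with
        | nil => simp [top] at ht
        | cons H r =>
          have ht' : H.1 = G.1 + 1 := ht
          have htl' : top r ≤ G.1 := htl
          simp only [glue]
          rw [if_pos (by omega)]
          simp only [gap]
          omega
      nlinarith
  have hW : W (succ (F :: G :: ρ)) pot =
      (F.2 : ℝ) * pot ((F.1 + 1, F.2 + 1) :: G :: ρ) +
        (L.map fun x => (x.1 : ℝ) * pot (glue F x.2)).sum := by
    have h1 : succ (F :: G :: ρ) =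
        (F.2, (F.1 + 1, F.2 + 1) :: G :: ρ) :: L.map fun x => (x.1, glue F x.2) := rfl
    rw [h1]
    unfold W
    simp only [List.map_cons, List.sum_cons, List.map_map]
    rfl
  rw [hpot, hW]
  rw [hs] at hrest
  have hF0 : (0 : ℝ) ≤ F.2 := Nat.cast_nonneg _
  nlinarith

end Pool.Agent.Lib.MP_ad84ff_co
end

section

set_option autoImplicit false

namespace Pool.Agent.Lib.MP_ad84ff_co

private theorem p7_lin (l : List (ℕ × St)) (c d : ℝ) (u v : ℕ × St → ℝ) :
    (l.map fun x => c * u x + d * v x).sum = c * (l.map u).sum + d * (l.map v).sum := by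
  induction l with
  | nil => simp
  | cons a l ih => simp only [List.map_cons, List.sum_cons, ih]; ring

/-- The case `g ≥ 1`, `2 (c + g) ≤ a`: `pot σ = 2^{-(g+1)}`, there are no merges.  Choice of `F`
(weight `a`): new value at most `2^{-(g+2)}`.  A successor of the tail either keeps the second packet
(value unchanged) or makes it `(G.1 + 1, c')` with `c' ≥ c + 1`: the new gap is `g - 1` and the new
value is `2^{-g}` if `2 (c' + g - 1) ≤ a` and `0` otherwise.  The weight of those with
`2 (c' + g - 1) ≤ a` is at most `a / 2` (the choice of `G` has weight `c` and `c' = c + 1`, the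
others by `merge_weight` with `A = a / 2 - (g - 1) - c`; if `A = 0` there are none). -/
theorem pot_gap (n : ℕ) (F G : ℕ × ℕ) (ρ : St) (h : Good n (F :: G :: ρ)) (hg : G.1 < F.1)
    (hc : 2 * (G.2 + (F.1 - G.1)) ≤ F.2) :
    heavy (F :: G :: ρ) + W (succ (F :: G :: ρ)) pot ≤
      ((n : ℝ) + 1) * pot (F :: G :: ρ) + (1 / 4) * tie (F :: G :: ρ) := by
  have hF := h.pos F (by simp)
  have hG := h.pos G (by simp)
  have hanti := h.anti
  rw [List.pairwise_cons] at hanti
  have hanti2 := hanti.2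
  rw [List.pairwise_cons] at hanti2
  have hsum := h.sum
  set g := F.1 - G.1 with hgdef
  have hg1 : 1 ≤ g := by omega
  set p : ℝ := (1 / 2 : ℝ) ^ (g + 1) with hp
  have hp0 : 0 < p := by positivity
  have hpot : pot (F :: G :: ρ) = p := by
    unfold pot
    have h1 : gap (F :: G :: ρ) = g := rfl
    have h2 : sec (F :: G :: ρ) = G.2 := rfl
    have h3 : front (F :: G :: ρ) = F.2 := rfl
    rw [h1, h2, h3, if_pos ⟨by simp, hc⟩]
  set L := succ (G :: ρ) with hL
  have hρpos : ∀ H ∈ ρ, 1 ≤ H.2 := fun H hH =>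
    have hH' := h.pos H (List.mem_cons_of_mem _ (List.mem_cons_of_mem _ hH))
    hH'.1.trans hH'.2
  have hcases := succ_cases G ρ hρpos
  rw [← hL] at hcases
  -- no merges
  have hnm : ∀ x ∈ L, ¬ (top x.2 = F.1 + 1) := by
    intro x hx
    rcases hcases x hx with ⟨ht, _⟩ | ⟨ht, _⟩ <;> omega
  have hms : ∀ φ : ℕ → ℝ, ms φ (F :: G :: ρ) = 0 := by
    intro φ
    show (L.map fun x => if top x.2 = F.1 + 1 then (x.1 : ℝ) * φ (front x.2) else 0).sum = 0
    refine List.sum_eq_zero fun y hy => ?_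
    rw [List.mem_map] at hy
    obtain ⟨x, hx, rfl⟩ := hy
    rw [if_neg (hnm x hx)]
  have hheavy : heavy (F :: G :: ρ) = 0 := hms _
  have htie : tie (F :: G :: ρ) = 0 := hms _
  -- total weight
  have hs : (((L.map fun x => (x.1 : ℝ)).sum) : ℝ) = (n : ℝ) + 1 - F.2 := by
    have h1 := succ_weight (G :: ρ)
    have h2 : ((L.map fun x => (x.1 : ℝ)).sum : ℝ) = (((L.map Prod.fst).sum : ℕ) : ℝ) := by
      rw [Nat.cast_list_sum, List.map_map]
      rfl
    rw [h2, hL, h1]
    have h3 : F.2 + ((G :: ρ).map Prod.snd).sum = n := by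
      rw [← hsum]; simp
    have h4 : (F.2 : ℝ) + (((G :: ρ).map Prod.snd).sum : ℕ) = n := by exact_mod_cast h3
    push_cast
    push_cast at h4
    linarith
  -- the weight of the successors with larger value
  have hmw := merge_weight G.1 hG.1 (G :: ρ) (fun H hH => h.pos H (List.mem_cons_of_mem _ hH))
    hanti.2 (fun H hH => by
      rcases List.mem_cons.1 hH with rfl | hH
      · exact le_rfl
      · exact hanti2.1 H hH) (F.2 / 2 - (g - 1)) (by omega)
  rw [← hL] at hmw
  set m : ℝ := (L.map fun x => if top x.2 = G.1 + 1 ∧ front x.2 ≤ F.2 / 2 - (g - 1) then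
    (x.1 : ℝ) else 0).sum with hm
  have hm2 : m ≤ (F.2 : ℝ) / 2 := by
    have h1 : m = (((L.map fun x => if top x.2 = G.1 + 1 ∧ front x.2 ≤ F.2 / 2 - (g - 1) then
        x.1 else 0).sum : ℕ) : ℝ) := by
      rw [hm, Nat.cast_list_sum, List.map_map]
      congr 1
      refine List.map_congr_left fun x _ => ?_
      simp only [Function.comp_apply]
      split_ifs
      · rfl
      · exact Nat.cast_zero.symm
    rw [h1]
    have h2 : ((F.2 / 2 - (g - 1) - 1 : ℕ) : ℝ) ≤ (F.2 : ℝ) / 2 := by
      have h3 : ((F.2 / 2 - (g - 1) - 1 : ℕ) : ℝ) ≤ ((F.2 / 2 : ℕ) : ℝ) := by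
        exact_mod_cast (Nat.sub_le _ _).trans (Nat.sub_le _ _)
      exact h3.trans (Nat.cast_div_le)
    exact le_trans (by exact_mod_cast hmw) h2
  -- the choice of `F`
  have hfirst : pot ((F.1 + 1, F.2 + 1) :: G :: ρ) ≤ p / 2 := by
    unfold pot
    have h1 : gap ((F.1 + 1, F.2 + 1) :: G :: ρ) = g + 1 := by
      show F.1 + 1 - G.1 = g + 1
      omega
    rw [h1]
    split_ifs
    · rw [hp, pow_succ _ (g + 1)]
      linarith
    · positivity
  -- the others
  have hrest : (L.map fun x => (x.1 : ℝ) * pot (glue F x.2)).sum ≤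
      p * (L.map fun x => (x.1 : ℝ)).sum + p * m := by
    rw [hm, ← p7_lin]
    refine List.sum_le_sum fun x hx => ?_
    have hx0 : (0 : ℝ) ≤ x.1 := Nat.cast_nonneg _
    have hgl : glue F x.2 = F :: x.2 := by
      have h0 := hnm x hx
      obtain ⟨w, y⟩ := x
      cases y with
      | nil => rfl
      | cons H r =>
        have h0' : ¬ (H.1 = F.1 + 1) := h0
        show glue F (H :: r) = F :: H :: r
        rw [glue, if_neg h0']
    have hgap : gap (F :: x.2) = F.1 - top x.2 := rfl
    have hsec : sec (F :: x.2) = front x.2 := rfl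
    have hfr : front (F :: x.2) = F.2 := rfl
    rw [hgl]
    unfold pot
    rw [hgap, hsec, hfr]
    rcases hcases x hx with ⟨ht, hf⟩ | ⟨ht, hf⟩
    · rw [ht, hf, ← hgdef, if_pos ⟨by simp, hc⟩]
      have h5 : (0 : ℝ) ≤ p * (if G.1 = G.1 + 1 ∧ G.2 ≤ F.2 / 2 - (g - 1) then (x.1 : ℝ) else 0) := by
        split_ifs
        · positivity
        · simp
      rw [← hp]
      linarith [mul_comm (x.1 : ℝ) p]
    · have h6 : F.1 - top x.2 = g - 1 := by omega
      rw [h6]
      by_cases hf2 : front x.2 ≤ F.2 / 2 - (g - 1)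
      · rw [if_pos (⟨ht, hf2⟩ : top x.2 = G.1 + 1 ∧ front x.2 ≤ F.2 / 2 - (g - 1)),
          if_pos ⟨by simp, by omega⟩]
        have h7 : (1 / 2 : ℝ) ^ (g - 1 + 1) = 2 * p := by
          rw [hp, Nat.sub_add_cancel hg1, pow_succ]
          ring
        rw [h7]
        linarith
      · rw [if_neg (fun h8 : F :: x.2 ≠ [] ∧ 2 * (front x.2 + (g - 1)) ≤ F.2 => by omega),
          mul_zero, if_neg (fun h8 : top x.2 = G.1 + 1 ∧ front x.2 ≤ F.2 / 2 - (g - 1) => hf2 h8.2)]
        have : 0 ≤ p * (x.1 : ℝ) := by positivity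
        linarith
  have hW : W (succ (F :: G :: ρ)) pot = (F.2 : ℝ) * pot ((F.1 + 1, F.2 + 1) :: G :: ρ) +
      (L.map fun x => (x.1 : ℝ) * pot (glue F x.2)).sum := by
    have hsu : succ (F :: G :: ρ) = (F.2, (F.1 + 1, F.2 + 1) :: G :: ρ) ::
        L.map (fun x => (x.1, glue F x.2)) := rfl
    unfold W
    rw [hsu, List.map_cons, List.sum_cons, List.map_map]
    rfl
  rw [hW, hheavy, htie, hpot]
  rw [hs] at hrest
  have h8 : (F.2 : ℝ) * pot ((F.1 + 1, F.2 + 1) :: G :: ρ) ≤ F.2 * (p / 2) :=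
    mul_le_mul_of_nonneg_left hfirst (Nat.cast_nonneg _)
  have h9 : p * m ≤ p * ((F.2 : ℝ) / 2) := mul_le_mul_of_nonneg_left hm2 hp0.le
  nlinarith

end Pool.Agent.Lib.MP_ad84ff_co
end

section

set_option autoImplicit false
set_option maxRecDepth 100000

open Nat

namespace Pool.Agent.Lib.MP_ad84ff_co

/-- `tnl[a] = ∑_{i < a} C(16, i)`. -/
def tnl : List ℕ := [0, 1, 17, 137, 697, 2517, 6885, 14893, 26333, 39203, 50643, 58651, 63019,
  64839, 65399, 65519, 65535, 65536]

/-- `10^9` times the potential `w` (rounded down), for `a + b = 16`. -/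
def wN (a g : ℕ) : ℕ :=
  1000000000 * (factorial (16 - a) * factorial (a - 1) * tnl.getD a 0 -
    factorial (a - min g (a - 1) - 1) * factorial (16 - a + min g (a - 1)) *
      tnl.getD (a - min g (a - 1)) 0) /
    (factorial (a - 1) * factorial (16 - a - 1) * 16 * 2 ^ 16)

/-- The weighted sum over `tbl`. -/
def highK : ℕ :=
  (tbl.map fun x => x.1 * (match x.2 with
    | F :: G :: _ => wN F.1 (G.1 + 1)
    | _ => 0)).sum

theorem kernel_high : 212658474254740000782 ≤ highK := by
  decide +kernel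

end Pool.Agent.Lib.MP_ad84ff_co
end
end
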