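import Pool.Agent.Lib.MP_ad84ff_co.WdDefs

section

section

/-!
# PK W6: `stepE` on admissible lists of packets
-/

set_option autoImplicit false

namespace Pool.Agent.Lib.MP_ad84ff_co

variable {n : ℕ} {K : ℕ → ℕ}

private theorem Wd6_proj_glueE (F : (ℕ × ℕ) × ℕ) (E : EP) :
    proj (glueE F E) = glue (F.1.1, F.2) (proj E) := by
  cases E with
  | nil => rfl
  | cons G ρ =>
    by_cases h : G.1.1 = F.1.1 + 1
    · simp [glueE, glue, proj, h]
    · simp [glueE, glue, proj, h]

private theorem Wd6_proj_shift (E : EP) : proj (E.map shift) = proj E := by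
  unfold proj
  rw [List.map_map]
  apply List.map_congr_left
  intro e _
  rfl

/-- Forgetting the keys turns `stepE` into `step`.  Induction on `E` generalizing `p`. -/
theorem proj_stepE (n : ℕ) (K : ℕ → ℕ) (E : EP) (p : ℕ) :
    proj (stepE n K E p) = step (proj E) p := by
  induction E generalizing p with
  | nil => rfl
  | cons F τ ih =>
    have h1 : proj (F :: τ) = (F.1.1, F.2) :: proj τ := rfl
    rw [h1]
    by_cases h : p < F.2
    · simp only [stepE, step, h, if_true]
      have h2 : proj (((F.1.1 + 1, K F.1.1), F.2 + 1) :: τ.map shift) =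
        (F.1.1 + 1, F.2 + 1) :: proj (τ.map shift) := rfl
      rw [h2, Wd6_proj_shift]
    · simp only [stepE, step, h, if_false]
      rw [Wd6_proj_glueE, ih]

theorem GoodE.tail {F : (ℕ × ℕ) × ℕ} {τ : EP} (h : GoodE K (F :: τ)) : GoodE K τ :=
  { pos := fun e he => h.pos e (List.mem_cons_of_mem _ he)
    sorted := (List.pairwise_cons.1 h.sorted).2
    bound := fun e he => h.bound e (List.mem_cons_of_mem _ he) }

private theorem Wd6_le {F : (ℕ × ℕ) × ℕ} {τ : EP} (h : GoodE K (F :: τ)) {e : (ℕ × ℕ) × ℕ}
    (he : e ∈ τ) : e.1.1 ≤ F.1.1 := by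
  rcases (List.pairwise_cons.1 h.sorted).1 e he with h1 | h1
  · exact h1.le
  · exact h1.1.le

private theorem Wd6_total_cons (F : (ℕ × ℕ) × ℕ) (τ : EP) : total (F :: τ) = F.2 + total τ := by
  unfold total
  rw [List.map_cons, List.sum_cons]

/-- Insertion at the end: a new packet `(1, n)` of size one.  Induction on `E`: the levels are
positive, so `glueE` never merges (the head of the rest has level at most the level of `F`, or it
is the new packet of level one). -/
theorem stepE_last {E : EP} (hE : GoodE K E) : stepE n K E (total E) = E ++ [((1, n), 1)] := by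
  induction E with
  | nil => rfl
  | cons F τ ih =>
    have h1 : ¬ F.2 + total τ < F.2 := by omega
    have h2 : F.2 + total τ - F.2 = total τ := by omega
    rw [Wd6_total_cons]
    simp only [stepE, h1, if_false, h2]
    rw [ih hE.tail]
    have hF := (hE.pos F List.mem_cons_self).1
    cases τ with
    | nil =>
      simp [glueE]
      omega
    | cons G ρ =>
      have h3 := Wd6_le hE (e := G) List.mem_cons_self
      have h4 : ¬ (G.1.1 = F.1.1 + 1) := by omega
      rw [List.cons_append]
      simp only [glueE, h4, if_false]
      rfl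

/-- Insertion at a slot `p < total E`: if `F` is the packet of `p`, `A1` are the packets in front
of it with larger level and `A2` the packets in front of it with the same level, then `A2` and `F`
are merged into one packet one level higher.  Induction on `E` generalizing `p`: in the first
packet, `A1 = A2 = []`.  Otherwise take the decomposition of the tail `τ`; if the first packet `F'`
has the level of `F`, then `A1 = []` (levels are nonincreasing) and `glueE` merges; otherwise its
level is larger than the level of `F`, the head of the result for `τ` has level at most the level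
of `F'` and `glueE` does not merge. -/
theorem stepE_decomp {E : EP} {p : ℕ} (hE : GoodE K E) (hp : p < total E) :
    ∃ (A1 A2 B : EP) (F : (ℕ × ℕ) × ℕ) (i : ℕ), E = A1 ++ A2 ++ F :: B ∧
      (∀ e ∈ A1, F.1.1 < e.1.1) ∧ (∀ e ∈ A2, e.1.1 = F.1.1) ∧ i < F.2 ∧
      p = total A1 + total A2 + i ∧
      stepE n K E p =
        A1 ++ ((F.1.1 + 1, K F.1.1), total A2 + F.2 + 1) :: B.map shift := by
  induction E generalizing p with
  | nil =>
    have h0 : total ([] : EP) = 0 := rfl
    omega
  | cons F' τ ih =>
    have h0 : total ([] : EP) = 0 := rfl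
    by_cases h : p < F'.2
    · refine ⟨[], [], τ, F', p, rfl, by simp, by simp, h, by omega, ?_⟩
      simp only [stepE, h, if_true, h0]
      simp
    · rw [Wd6_total_cons] at hp
      obtain ⟨A1, A2, B, F, i, hτ, hA1, hA2, hi, hp', hst⟩ := ih (p := p - F'.2) hE.tail (by omega)
      have hFτ : F ∈ τ := by
        rw [hτ]
        simp
      have hle := Wd6_le hE hFτ
      have hA1τ : ∀ e ∈ A1, e.1.1 ≤ F'.1.1 := by
        intro e he
        apply Wd6_le hE
        rw [hτ]
        simp [he]
      have hstep : stepE n K (F' :: τ) p =
          glueE F' (A1 ++ ((F.1.1 + 1, K F.1.1), total A2 + F.2 + 1) :: B.map shift) := by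
        simp only [stepE, h, if_false]
        rw [hst]
      rcases Nat.eq_or_lt_of_le hle with heq | hlt
      · have hnil : A1 = [] := by
          rw [List.eq_nil_iff_forall_not_mem]
          intro e he
          have h1 := hA1 e he
          have h2 := hA1τ e he
          omega
        subst hnil
        refine ⟨[], F' :: A2, B, F, i, ?_, by simp, ?_, hi, ?_, ?_⟩
        · rw [hτ]
          simp
        · intro e he
          rcases List.mem_cons.1 he with rfl | he
          · exact heq.symm
          · exact hA2 e he
        · rw [Wd6_total_cons]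
          omega
        · rw [hstep, Wd6_total_cons]
          simp only [List.nil_append, glueE]
          have h1 : F.1.1 + 1 = F'.1.1 + 1 := by omega
          rw [if_pos h1]
          have h2 : F'.2 + (total A2 + F.2 + 1) = F'.2 + total A2 + F.2 + 1 := by omega
          rw [h2]
      · refine ⟨F' :: A1, A2, B, F, i, ?_, ?_, hA2, hi, ?_, ?_⟩
        · rw [hτ]
          simp
        · intro e he
          rcases List.mem_cons.1 he with rfl | he
          · exact hlt
          · exact hA1 e he
        · rw [Wd6_total_cons]
          omega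
        · rw [hstep]
          cases A1 with
          | nil =>
            have h1 : ¬ (F.1.1 + 1 = F'.1.1 + 1) := by omega
            simp only [List.nil_append, glueE]
            rw [if_neg h1]
            rfl
          | cons G A1' =>
            have h1 := hA1τ G List.mem_cons_self
            have h2 : ¬ (G.1.1 = F'.1.1 + 1) := by omega
            simp only [List.cons_append, glueE]
            rw [if_neg h2]

end Pool.Agent.Lib.MP_ad84ff_co
end

section

/-!
# PK W9: `succ` is the list of the `step`s with multiplicities
-/

set_option autoImplicit false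

namespace Pool.Agent.Lib.MP_ad84ff_co

theorem W_append (l l' : List (ℕ × St)) (f : St → ℝ) : W (l ++ l') f = W l f + W l' f := by
  unfold W
  rw [List.map_append, List.sum_append]

/-- Induction on `σ` generalizing `f`: the slots `p < F.2` give the first successor, the slots
`p = F.2 + j` with `j ≤` sum of the sizes of the tail give `glue F (step τ j)`. -/
theorem W_succ_eq (σ : St) (f : St → ℝ) :
    W (succ σ) f = ∑ p ∈ Finset.range ((σ.map Prod.snd).sum + 1), f (step σ p) := by
  induction σ generalizing f with
  | nil => simp [W, succ, step]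
  | cons F τ ih =>
    have h1 : W (succ (F :: τ)) f = (F.2 : ℝ) * f ((F.1 + 1, F.2 + 1) :: τ) +
        W (succ τ) (fun x => f (glue F x)) := by
      unfold W
      rw [succ, List.map_cons, List.sum_cons, List.map_map]
      rfl
    rw [h1, ih, List.map_cons, List.sum_cons, add_assoc,
      Finset.sum_range_add (fun p => f (step (F :: τ) p)) F.2 ((τ.map Prod.snd).sum + 1)]
    congr 1
    · have h2 : ∀ p ∈ Finset.range F.2, f (step (F :: τ) p) = f ((F.1 + 1, F.2 + 1) :: τ) := by
        intro p hp
        rw [step, if_pos (Finset.mem_range.1 hp)]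
      rw [Finset.sum_congr rfl h2, Finset.sum_const, Finset.card_range, nsmul_eq_mul]
    · refine Finset.sum_congr rfl fun p _ => ?_
      rw [step, if_neg (by omega), Nat.add_sub_cancel_left]

end Pool.Agent.Lib.MP_ad84ff_co
end
end

section

section

/-!
# PK W1: reading a word with the stack algorithm

`w.foldl rd (o, st)` reads `w` with the stack `st` (top first) after the output `o`.
All statements are by induction on `w` (or on the list `b` for prefixes).
-/

set_option autoImplicit false

namespace Pool.Agent.Lib.MP_ad84ff_co

/-- The output so far is only a prefix.  Induction on `w` generalizing `o` and `st`. -/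
theorem foldl_rd_eq (w o st : List ℕ) :
    w.foldl rd (o, st) = (o ++ (w.foldl rd ([], st)).1, (w.foldl rd ([], st)).2) := by
  induction w generalizing o st with
  | nil => simp
  | cons x w ih =>
    simp only [List.foldl_cons, rd, List.nil_append]
    rw [ih (o ++ st.takeWhile (fun y => decide (y ≤ x))) _,
      ih (st.takeWhile (fun y => decide (y ≤ x))) _, List.append_assoc]

theorem foldl_rd_cons (x : ℕ) (w st : List ℕ) :
    (x :: w).foldl rd ([], st) =
      (st.takeWhile (fun y => decide (y ≤ x)) ++
        (w.foldl rd ([], x :: st.dropWhile (fun y => decide (y ≤ x)))).1,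
       (w.foldl rd ([], x :: st.dropWhile (fun y => decide (y ≤ x)))).2) := by
  simp only [List.foldl_cons, rd, List.nil_append]
  rw [foldl_rd_eq]

/-- The literal algorithm is: read everything, then flush.  Functional induction on `stackRun`. -/
theorem stackRun_eq (w st : List ℕ) :
    stackRun w st = (w.foldl rd ([], st)).1 ++ (w.foldl rd ([], st)).2 := by
  induction w, st using stackRun.induct with
  | case1 st =>
    rw [stackRun]
    rfl
  | case2 x xs ih =>
    rw [stackRun, ih, foldl_rd_cons]
    simp
  | case3 x xs y st h ih =>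
    rw [stackRun, if_pos h, ih, foldl_rd_cons]
    have h1 : ¬ y ≤ x := not_le.2 h
    simp [h1]
  | case4 x xs y st h ih =>
    rw [stackRun, if_neg h, ih, foldl_rd_cons, foldl_rd_cons]
    have h1 : y ≤ x := not_lt.1 h
    simp [h1]

theorem foldl_rd_perm (w st : List ℕ) :
    ((w.foldl rd ([], st)).1 ++ (w.foldl rd ([], st)).2).Perm (st ++ w) := by
  induction w generalizing st with
  | nil => simp
  | cons x w ih =>
    rw [foldl_rd_cons]
    simp only [List.append_assoc]
    have h1 := ih (x :: st.dropWhile (fun y => decide (y ≤ x)))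
    have h2 : (st.takeWhile (fun y => decide (y ≤ x)) ++
        ((x :: st.dropWhile (fun y => decide (y ≤ x))) ++ w)).Perm (st ++ x :: w) := by
      have h3 : ((x :: st.dropWhile (fun y => decide (y ≤ x))) ++ w).Perm
          (st.dropWhile (fun y => decide (y ≤ x)) ++ x :: w) := by
        rw [List.cons_append]
        exact List.perm_middle.symm
      refine (List.Perm.append_left _ h3).trans ?_
      rw [← List.append_assoc, List.takeWhile_append_dropWhile]
    exact (List.Perm.append_left _ h1).trans h2

theorem rds_perm (w : List ℕ) : ((rds w).1 ++ (rds w).2).Perm w := by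
  have h := foldl_rd_perm w []
  rw [List.nil_append] at h
  exact h

theorem rds_append (b c : List ℕ) : rds (b ++ c) = c.foldl rd (rds b) := by
  unfold rds
  rw [List.foldl_append]

theorem T_append (b c : List ℕ) : T (b ++ c) = T b ++ (c.foldl rd ([], (rds b).2)).1 := by
  unfold T
  rw [rds_append, show rds b = ((rds b).1, (rds b).2) from rfl, foldl_rd_eq]

theorem T_nil : T [] = [] := by
  rfl

theorem T_prefix {a b : List ℕ} (h : b <+: a) : T b <+: T a := by
  obtain ⟨c, rfl⟩ := h
  rw [T_append]
  exact List.prefix_append _ _

theorem mem_T {w : List ℕ} {x : ℕ} (h : x ∈ T w) : x ∈ w :=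
  (rds_perm w).mem_iff.1 (List.mem_append_left _ h)

theorem mem_stack {w : List ℕ} {x : ℕ} (h : x ∈ (rds w).2) : x ∈ w :=
  (rds_perm w).mem_iff.1 (List.mem_append_right _ h)

/-- The last letter of a nonempty word is still in the stack. -/
theorem T_length_lt {w : List ℕ} (h : w ≠ []) : (T w).length < w.length := by
  have h1 := (rds_perm w).length_eq
  rw [List.length_append] at h1
  have h2 : 0 < (rds w).2.length := by
    obtain ⟨v, x, rfl⟩ : ∃ v x, w = v ++ [x] :=
      ⟨w.dropLast, w.getLast h, (List.dropLast_append_getLast h).symm⟩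
    rw [rds_append]
    simp [rd]
  unfold T
  omega

private theorem dropWhile_gt_Wd1 (x : ℕ) (st : List ℕ) (h : st.Pairwise (· < ·)) :
    ∀ z ∈ st.dropWhile (fun y => decide (y ≤ x)), x < z := by
  induction st with
  | nil => simp
  | cons y st ih =>
    rw [List.pairwise_cons] at h
    by_cases hy : y ≤ x
    · rw [List.dropWhile_cons_of_pos (by simpa using hy)]
      exact ih h.2
    · rw [List.dropWhile_cons_of_neg (by simpa using hy)]
      intro z hz
      rcases List.mem_cons.1 hz with rfl | hz
      · exact not_le.1 hy
      · exact (not_le.1 hy).trans (h.1 z hz)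

/-- The stack (top first) is strictly increasing. -/
theorem rds_sorted (w : List ℕ) : (rds w).2.Pairwise (· < ·) := by
  induction w using List.reverseRecOn with
  | nil => exact List.Pairwise.nil
  | append_singleton v x ih =>
    rw [rds_append]
    simp only [List.foldl_cons, List.foldl_nil, rd]
    rw [List.pairwise_cons]
    refine ⟨dropWhile_gt_Wd1 x _ ih, ?_⟩
    exact ih.sublist (List.dropWhile_sublist _)

end Pool.Agent.Lib.MP_ad84ff_co
end

section

/-!
# PK W11: enumeration of the words
-/

set_option autoImplicit false

namespace Pool.Agent.Lib.MP_ad84ff_co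

private theorem sum_aux (b : ℕ) (a : List ℕ) : ∀ f : List ℕ → ℝ,
    ((List.permutations'Aux b a).map f).sum = ∑ p ∈ Finset.range (a.length + 1), f (insAt a p b) := by
  induction a with
  | nil =>
    intro f
    simp [List.permutations'Aux, insAt]
  | cons y ys ih =>
    intro f
    rw [List.permutations'Aux, List.map_cons, List.sum_cons, List.map_map, List.length_cons,
      Finset.sum_range_succ', ih (f ∘ List.cons y)]
    rw [add_comm]
    congr 1

private theorem sum_flatMap_aux (g : List ℕ → List ℝ) (l : List (List ℕ)) :
    (l.flatMap g).sum = (l.map fun a => (g a).sum).sum := by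
  induction l with
  | nil => simp
  | cons a l ih => rw [List.flatMap_cons, List.sum_append, ih, List.map_cons, List.sum_cons]

private theorem word_inj (n : ℕ) : Function.Injective (word : Equiv.Perm (Fin n) → List ℕ) := by
  intro ρ σ h
  unfold word at h
  have h1 := List.ofFn_injective h
  ext i
  have h2 := congrFun h1 i
  have h3 : (ρ i : ℕ) + 1 = (σ i : ℕ) + 1 := h2
  omega

private theorem word_perm {n : ℕ} (ρ : Equiv.Perm (Fin n)) : (word ρ).Perm (List.range' 1 n) := by
  rw [List.perm_ext_iff_of_nodup]
  · intro x
    unfold word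
    rw [List.mem_ofFn, List.mem_range'_1]
    constructor
    · rintro ⟨i, rfl⟩
      have := (ρ i).2
      omega
    · rintro ⟨h1, h2⟩
      refine ⟨ρ.symm ⟨x - 1, by omega⟩, ?_⟩
      simp only [Equiv.apply_symm_apply]
      omega
  · unfold word
    rw [List.nodup_ofFn]
    intro i j h
    simp only at h
    apply ρ.injective
    ext
    omega
  · exact List.nodup_range'

/-- The words `word ρ` are exactly the words in `permutations' (range' 1 n)`, each once:
`word` is injective, `word ρ` is a permutation of `range' 1 n` (`List.mem_permutations'`), the list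
has no duplicates and length `n!`. -/
theorem sum_word (n : ℕ) (f : List ℕ → ℝ) :
    ∑ ρ : Equiv.Perm (Fin n), f (word ρ) = (((List.range' 1 n).permutations').map f).sum := by
  have hL : ((List.range' 1 n).permutations).Nodup :=
    List.nodup_permutations _ List.nodup_range'
  have h1 : (((List.range' 1 n).permutations').map f).sum =
      (((List.range' 1 n).permutations).map f).sum :=
    ((List.permutations_perm_permutations' _).map f).symm.sum_eq
  rw [h1, ← List.sum_toFinset f hL]
  have h2 : (Finset.univ : Finset (Equiv.Perm (Fin n))).image word =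
      ((List.range' 1 n).permutations).toFinset := by
    apply Finset.eq_of_subset_of_card_le
    · intro a ha
      rw [Finset.mem_image] at ha
      obtain ⟨ρ, -, rfl⟩ := ha
      rw [List.mem_toFinset, List.mem_permutations]
      exact word_perm ρ
    · rw [List.toFinset_card_of_nodup hL, List.length_permutations, List.length_range',
        Finset.card_image_of_injective _ (word_inj n), Finset.card_univ, Fintype.card_perm,
        Fintype.card_fin]
  rw [← h2, Finset.sum_image (fun _ _ _ _ h => word_inj n h)]

/-- `permutations' (b :: l) = (permutations' l).flatMap (permutations'Aux b)` and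
`permutations'Aux b a` is the list of all insertions of `b` into `a`. -/
theorem sum_permutations'_succ (b n : ℕ) (f : List ℕ → ℝ) :
    (((List.range' b (n + 1)).permutations').map f).sum =
      (((List.range' (b + 1) n).permutations').map fun a =>
        ∑ p ∈ Finset.range (n + 1), f (insAt a p b)).sum := by
  rw [List.range'_succ, List.permutations', List.map_flatMap, sum_flatMap_aux]
  congr 1
  apply List.map_congr_left
  intro a ha
  have hlen : a.length = n := by
    have h := (List.mem_permutations'.1 ha).length_eq
    rwa [List.length_range'] at h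
  rw [sum_aux, hlen]

/-- Properties of the words. -/
theorem mem_perms {b n : ℕ} {a : List ℕ} (ha : a ∈ (List.range' b n).permutations') :
    a.length = n ∧ a.Nodup ∧ ∀ x ∈ a, b ≤ x := by
  have h := List.mem_permutations'.1 ha
  refine ⟨?_, ?_, ?_⟩
  · have h1 := h.length_eq
    rwa [List.length_range'] at h1
  · rw [h.nodup_iff]
    exact List.nodup_range'
  · intro x hx
    have h1 := h.mem_iff.1 hx
    rw [List.mem_range'_1] at h1
    exact h1.1

end Pool.Agent.Lib.MP_ad84ff_co
end

section

/-!
# PK W4: levels of an abstract profile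
-/

set_option autoImplicit false

namespace Pool.Agent.Lib.MP_ad84ff_co

variable {n : ℕ} {L : ℕ → ℕ → ℕ}

/-- Equality is preserved for all later times. -/
theorem Prof.up_le (hL : Prof n L) {q q' t t' : ℕ} (hq : q ≤ q') (hq' : q' ≤ n) (ht : t ≤ t')
    (h : L t q = L t q') : L t' q = L t' q' := by
  induction t', ht using Nat.le_induction with
  | base => exact h
  | succ k _ ih => exact hL.up k q q' hq hq' ih

private theorem w4_mem (hL : Prof n L) {q : ℕ} (hq : q ≤ n) :
    n ∈ {t : ℕ | L t q = L t n} := by
  show L n q = L n n
  have h1 := hL.mono n q n hq le_rfl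
  have h2 := hL.fin
  omega

/-- The infimum is attained, since `L n q ≤ L n n = 0`. -/
theorem lev_spec (hL : Prof n L) {q : ℕ} (hq : q ≤ n) : L (lev n L q) q = L (lev n L q) n := by
  have h : sInf {t : ℕ | L t q = L t n} ∈ {t : ℕ | L t q = L t n} :=
    Nat.sInf_mem ⟨n, w4_mem hL hq⟩
  exact h

theorem lev_le (hL : Prof n L) {q : ℕ} (hq : q ≤ n) : lev n L q ≤ n :=
  Nat.sInf_le (w4_mem hL hq)

theorem eq_of_lev_le (hL : Prof n L) {q t : ℕ} (hq : q ≤ n) (h : lev n L q ≤ t) :
    L t q = L t n :=
  hL.up_le hq le_rfl h (lev_spec hL hq)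

theorem lt_of_lt_lev (hL : Prof n L) {q t : ℕ} (hq : q ≤ n) (h : t < lev n L q) :
    L t q < L t n := by
  refine lt_of_le_of_ne (hL.mono t q n hq le_rfl) fun he => ?_
  have h1 : lev n L q ≤ t := Nat.sInf_le (s := {t : ℕ | L t q = L t n}) he
  omega

theorem lt_lev_of_lt (hL : Prof n L) {q t : ℕ} (hq : q ≤ n) (h : L t q < L t n) :
    t < lev n L q := by
  by_contra hc
  have := eq_of_lev_le hL hq (not_lt.1 hc)
  omega

theorem lev_pos (hL : Prof n L) {q : ℕ} (hq : q < n) : 1 ≤ lev n L q := by
  refine lt_lev_of_lt hL hq.le ?_
  rw [hL.zero q hq.le, hL.zero n le_rfl]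
  exact hq

theorem lev_unique {q t : ℕ} (h1 : L t q = L t n) (h2 : ∀ j < t, L j q ≠ L j n) :
    lev n L q = t := by
  refine le_antisymm (Nat.sInf_le (s := {t : ℕ | L t q = L t n}) h1) ?_
  by_contra hc
  have h3 : sInf {t : ℕ | L t q = L t n} ∈ {t : ℕ | L t q = L t n} := Nat.sInf_mem ⟨t, h1⟩
  exact h2 _ (not_le.1 hc) h3

theorem lev_anti (hL : Prof n L) {q q' : ℕ} (h : q ≤ q') (h' : q' ≤ n) :
    lev n L q' ≤ lev n L q := by
  refine Nat.sInf_le (s := {t : ℕ | L t q' = L t n}) ?_
  show L (lev n L q) q' = L (lev n L q) n
  have h1 := lev_spec hL (h.trans h')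
  have h2 := hL.mono (lev n L q) q q' h h'
  have h3 := hL.mono (lev n L q) q' n h' le_rfl
  omega

end Pool.Agent.Lib.MP_ad84ff_co
end

section

/-!
# PK W2: `T` of a word with a new minimum inserted
-/

set_option autoImplicit false

namespace Pool.Agent.Lib.MP_ad84ff_co

private theorem min_take_Wd2 {S : List ℕ} {v : ℕ} (h : ∀ x ∈ S, v < x) :
    S.takeWhile (fun y => decide (y ≤ v)) = [] ∧ S.dropWhile (fun y => decide (y ≤ v)) = S := by
  cases S with
  | nil => simp
  | cons y S =>
    have h1 : ¬ y ≤ v := not_le.2 (h y (by simp))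
    constructor
    · rw [List.takeWhile_cons_of_neg (by simpa using h1)]
    · rw [List.dropWhile_cons_of_neg (by simpa using h1)]

/-- If `v` is smaller than all letters, then reading `v` after `b` outputs nothing and pushes `v`;
the first letter of `c` pops `v` and then what it popped without `v`; after that the two runs are
the same.  So `T (b v c)` is `T (b c)` with `v` inserted behind `T b`. -/
theorem T_ins {b c : List ℕ} {v : ℕ} (hc : c ≠ []) (hv : ∀ x ∈ b ++ c, v < x) :
    T (b ++ v :: c) = T b ++ v :: (T (b ++ c)).drop (T b).length := by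
  obtain ⟨x, c', rfl⟩ := List.exists_cons_of_ne_nil hc
  have hS : ∀ y ∈ (rds b).2, v < y := fun y hy => hv y (List.mem_append_left _ (mem_stack hy))
  have hx : v ≤ x := (hv x (by simp)).le
  obtain ⟨h1, h2⟩ := min_take_Wd2 hS
  rw [T_append, T_append, List.drop_left, foldl_rd_cons, h1, h2, foldl_rd_cons, foldl_rd_cons,
    List.takeWhile_cons_of_pos (by simpa using hx), List.dropWhile_cons_of_pos (by simpa using hx)]
  simp

/-- A new minimum at the end is not output. -/
theorem T_ins_last {b : List ℕ} {v : ℕ} (hv : ∀ x ∈ b, v < x) : T (b ++ [v]) = T b := by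
  have hS : ∀ y ∈ (rds b).2, v < y := fun y hy => hv y (mem_stack hy)
  rw [T_append, foldl_rd_cons, (min_take_Wd2 hS).1]
  simp

end Pool.Agent.Lib.MP_ad84ff_co
end

section

/-!
# PK W5: update of the levels and keys

Let `l = lev n L p` and `k = key n L p = L (l - 1) p`.
`K_ins`: `L' t (n + 1) = L t n + 1` if `t ≤ l` and `L t n` otherwise (the case `t = 0` is `Ins.zero`,
the case `t + 1` is `Ins.high` with `q = n` and `L t p < L t n ↔ t < l`).
-/

set_option autoImplicit false

namespace Pool.Agent.Lib.MP_ad84ff_co

variable {n p : ℕ} {L L' : ℕ → ℕ → ℕ}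

theorem K_ins (hL : Prof n L) (h : Ins n p L L') (hp : p < n) (t : ℕ) :
    L' t (n + 1) = L t n + if t ≤ lev n L p then 1 else 0 := by
  rcases t with _ | t
  · rw [h.zero _ le_rfl, hL.zero _ le_rfl, if_pos (Nat.zero_le _)]
  · rw [h.high t n hp.le le_rfl]
    congr 1
    have hiff : L t p < L t n ↔ t + 1 ≤ lev n L p := by
      constructor
      · intro h1
        exact lt_lev_of_lt hL hp.le h1
      · intro h1
        exact lt_of_lt_lev hL hp.le h1
    simp only [hiff]

theorem K_ins_last (hL : Prof n L) (h : Ins n n L L') (t : ℕ) :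
    L' t (n + 1) = L t n + if t = 0 then 1 else 0 := by
  rcases t with _ | t
  · rw [h.zero _ le_rfl, hL.zero _ le_rfl, if_pos rfl]
  · rw [h.high t n le_rfl le_rfl, if_neg (lt_irrefl _), if_neg (Nat.succ_ne_zero t)]

/-- `L' t q = L t q ≤ L t n`, and `L' t (n + 1) = L t n + 1` for `t ≤ l`; so the new level is
`max (l + 1) (lev n L q)`, and `lev n L q ≥ l` as `q ≤ p`. -/
theorem lev_low (hL : Prof n L) (h : Ins n p L L') (hp : p < n) {q : ℕ} (hq : q ≤ p) :
    lev (n + 1) L' q = if lev n L q = lev n L p then lev n L p + 1 else lev n L q := by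
  have hqn : q ≤ n := hq.trans hp.le
  have hl : lev n L p ≤ lev n L q := lev_anti hL hq hp.le
  by_cases he : lev n L q = lev n L p
  · rw [if_pos he]
    apply lev_unique
    · rw [h.low _ q hq, K_ins hL h hp, if_neg (by omega), Nat.add_zero]
      exact eq_of_lev_le hL hqn (by omega)
    · intro j hj
      rw [h.low _ q hq, K_ins hL h hp, if_pos (by omega)]
      have := hL.mono j q n hqn le_rfl
      omega
  · rw [if_neg he]
    apply lev_unique
    · rw [h.low _ q hq, K_ins hL h hp, if_neg (by omega), Nat.add_zero]
      exact lev_spec hL hqn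
    · intro j hj
      rw [h.low _ q hq, K_ins hL h hp]
      have := lt_of_lt_lev hL hqn hj
      split_ifs <;> omega

theorem key_low (hL : Prof n L) (h : Ins n p L L') (hp : p < n) {q : ℕ} (hq : q ≤ p) :
    key (n + 1) L' q = if lev n L q = lev n L p then L (lev n L p) n else key n L q := by
  have hqn : q ≤ n := hq.trans hp.le
  unfold key
  rw [lev_low hL h hp hq]
  by_cases he : lev n L q = lev n L p
  · rw [if_pos he, if_pos he, Nat.add_sub_cancel, h.low _ q hq, ← he]
    exact lev_spec hL hqn
  · rw [if_neg he, if_neg he, h.low _ q hq]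

private theorem w5_key_eq (hL : Prof n L) (hp : p < n) {q : ℕ} (hq : p ≤ q)
    (hqn : q < n) {t : ℕ} (ht : t < lev n L q) (he : L t p = L t q) :
    lev n L q = lev n L p ∧ key n L q = key n L p := by
  have hl : lev n L q ≤ lev n L p := lev_anti hL hq hqn.le
  have hle : lev n L q = lev n L p := by
    refine le_antisymm hl ?_
    by_contra hc
    have h1 := lt_of_lt_lev hL hp.le (not_le.1 hc)
    have h2 := hL.up_le hq hqn.le ht.le he
    have h3 := lev_spec hL hqn.le
    omega
  refine ⟨hle, ?_⟩
  unfold key
  rw [← hle]
  exact (hL.up_le hq hqn.le (show t ≤ lev n L q - 1 by omega) he).symm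

/-- `L' (t+1) (q+1) = L (t+1) q + 1` if `L t p < L t q`, and `L (t+1) q` otherwise.  If `q` is in
the packet of `p` (same level `l`, same key: `L (l-1) p = L (l-1) q`), then the first `t` with
`L' t (q+1) = L' t (n+1)` is `l + 1`: for `t + 1 ≤ l`, either `L t p < L t q` and then
`L (t+1) q + 1 = L (t+1) n + 1` would give `lev n L q ≤ t + 1 ≤ l`, so `t + 1 = l` and
`L (l-1) p < L (l-1) q`, contradiction; or `L t p = L t q` and `L (t+1) q = L (t+1) n + 1` is
impossible.  Otherwise `L t p < L t q` for all `t < lev n L q` (if `lev n L q = l`, then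
`L (l-1) p ≠ L (l-1) q`; if `lev n L q < l`, then `L (lev n L q) q = L (lev n L q) n ≠
L (lev n L q) p`), and the level stays. -/
theorem lev_high (hL : Prof n L) (h : Ins n p L L') (hp : p < n) {q : ℕ} (hq : p ≤ q)
    (hqn : q < n) :
    lev (n + 1) L' (q + 1) =
      if lev n L q = lev n L p ∧ key n L q = key n L p then lev n L p + 1 else lev n L q := by
  have hl : lev n L q ≤ lev n L p := lev_anti hL hq hqn.le
  by_cases hc : lev n L q = lev n L p ∧ key n L q = key n L p
  · rw [if_pos hc]
    obtain ⟨hle, hk⟩ := hc
    apply lev_unique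
    · rw [h.high _ q hq hqn.le, K_ins hL h hp, if_neg (by omega : ¬ lev n L p + 1 ≤ lev n L p)]
      have h1 := lev_spec hL hp.le
      have h2 := eq_of_lev_le hL hqn.le hl
      have h3 := eq_of_lev_le hL hqn.le (show lev n L q ≤ lev n L p + 1 by omega)
      rw [if_neg (by omega), h3]
    · intro j hj
      rw [K_ins hL h hp, if_pos (by omega)]
      rcases j with _ | t
      · rw [h.zero _ (by omega), hL.zero _ le_rfl]
        omega
      · rw [h.high t q hq hqn.le]
        by_cases hlt : L t p < L t q
        · rw [if_pos hlt]
          have h4 : t + 1 ≠ lev n L p := by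
            intro h5
            unfold key at hk
            rw [hle, ← h5, Nat.add_sub_cancel] at hk
            omega
          have h6 := lt_of_lt_lev hL hqn.le (show t + 1 < lev n L q by omega)
          omega
        · rw [if_neg hlt]
          have := hL.mono (t + 1) q n hqn.le le_rfl
          omega
  · rw [if_neg hc]
    have hpos := lev_pos hL hqn
    have hlt : ∀ t < lev n L q, L t p < L t q := by
      intro t ht
      refine lt_of_le_of_ne (hL.mono t p q hq hqn.le) fun he => hc ?_
      exact w5_key_eq hL hp hq hqn ht he
    apply lev_unique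
    · obtain ⟨t, ht⟩ : ∃ t, lev n L q = t + 1 := ⟨lev n L q - 1, by omega⟩
      rw [K_ins hL h hp, if_pos hl, ht, h.high t q hq hqn.le, if_pos (hlt t (by omega)), ← ht,
        lev_spec hL hqn.le]
    · intro j hj
      rw [K_ins hL h hp, if_pos (by omega)]
      rcases j with _ | t
      · rw [h.zero _ (by omega), hL.zero _ le_rfl]
        omega
      · rw [h.high t q hq hqn.le]
        have h6 := lt_of_lt_lev hL hqn.le hj
        split_ifs <;> omega

theorem key_high (hL : Prof n L) (h : Ins n p L L') (hp : p < n) {q : ℕ} (hq : p ≤ q)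
    (hqn : q < n) :
    key (n + 1) L' (q + 1) =
      if lev n L q = lev n L p ∧ key n L q = key n L p then L (lev n L p) n
      else key n L q + 1 := by
  have hpos := lev_pos hL hqn
  by_cases hc : lev n L q = lev n L p ∧ key n L q = key n L p
  · unfold key at hc ⊢
    rw [lev_high hL h hp hq hqn]
    unfold key
    rw [if_pos hc, if_pos hc, Nat.add_sub_cancel]
    obtain ⟨hle, hk⟩ := hc
    obtain ⟨t, ht⟩ : ∃ t, lev n L p = t + 1 := ⟨lev n L p - 1, by omega⟩
    rw [hle, ht, Nat.add_sub_cancel] at hk
    rw [ht, h.high t q hq hqn.le, if_neg (by omega), Nat.add_zero, ← ht, ← hle]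
    exact lev_spec hL hqn.le
  · have hlt : ∀ t < lev n L q, L t p < L t q := by
      intro t ht
      refine lt_of_le_of_ne (hL.mono t p q hq hqn.le) fun he => hc ?_
      exact w5_key_eq hL hp hq hqn ht he
    have h1 := lev_high hL h hp hq hqn
    rw [if_neg hc] at h1 ⊢
    unfold key
    rw [h1]
    obtain ⟨t, ht⟩ : ∃ t, lev n L q = t + 1 := ⟨lev n L q - 1, by omega⟩
    rw [ht, Nat.add_sub_cancel]
    rcases t with _ | t
    · rw [h.zero _ (by omega), hL.zero _ hqn.le]
    · rw [h.high t q hq hqn.le, if_pos (hlt t (by omega))]

theorem lev_last (hL : Prof n L) (h : Ins n n L L') {q : ℕ} (hq : q < n) :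
    lev (n + 1) L' q = lev n L q ∧ key (n + 1) L' q = key n L q := by
  have hpos := lev_pos hL hq
  have h1 : lev (n + 1) L' q = lev n L q := by
    apply lev_unique
    · rw [h.low _ q hq.le, K_ins_last hL h, if_neg (by omega), Nat.add_zero]
      exact lev_spec hL hq.le
    · intro j hj
      rw [h.low _ q hq.le, K_ins_last hL h]
      have := lt_of_lt_lev hL hq.le hj
      split_ifs <;> omega
  refine ⟨h1, ?_⟩
  unfold key
  rw [h1, h.low _ q hq.le]

theorem lev_new (hL : Prof n L) (h : Ins n n L L') :
    lev (n + 1) L' n = 1 ∧ key (n + 1) L' n = n := by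
  have h1 : lev (n + 1) L' n = 1 := by
    apply lev_unique
    · rw [h.low _ n le_rfl, K_ins_last hL h, if_neg one_ne_zero, Nat.add_zero]
    · intro j hj
      rw [h.low _ n le_rfl, K_ins_last hL h, if_pos (by omega)]
      omega
  refine ⟨h1, ?_⟩
  unfold key
  rw [h1, Nat.sub_self, h.zero _ (by omega)]

/-- Compare the entries: index `q ≤ p` by `lev_low`, `key_low`, index `q + 1` with `p ≤ q < n` by
`lev_high`, `key_high`. -/
theorem LK_ins_lt (hL : Prof n L) (h : Ins n p L L') (hp : p < n) :
    LK (n + 1) L' =
      ((LK n L).take (p + 1)).map (g1 (lev n L p) (L (lev n L p) n)) ++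
        ((LK n L).drop p).map (g2 (lev n L p) (key n L p) (L (lev n L p) n)) := by
  have hlen : (LK n L).length = n := by unfold LK; simp
  have hget' : ∀ (m : ℕ) (N : ℕ → ℕ → ℕ) (i : ℕ) (hi : i < (LK m N).length),
      (LK m N)[i] = (lev m N i, key m N i) := by
    intro m N i hi
    have h1 : (LK m N)[i]? = some (lev m N i, key m N i) := by
      have hi' : i < m := by
        unfold LK at hi
        rw [List.length_map, List.length_range] at hi
        exact hi
      unfold LK
      rw [List.getElem?_map, List.getElem?_range hi']
      rfl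
    exact (List.getElem_eq_iff hi).2 h1
  have hget := hget' n L
  apply List.ext_getElem
  · rw [List.length_append, List.length_map, List.length_map, List.length_take,
      List.length_drop, hlen]
    unfold LK
    rw [List.length_map, List.length_range]
    omega
  · intro i hi1 hi2
    have hi : i < n + 1 := by
      unfold LK at hi1
      rw [List.length_map, List.length_range] at hi1
      exact hi1
    rw [hget' (n + 1) L' i hi1]
    by_cases hip : i ≤ p
    · rw [List.getElem_append_left (by
        rw [List.length_map, List.length_take, hlen]; omega)]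
      rw [List.getElem_map, List.getElem_take, hget, lev_low hL h hp hip,
        key_low hL h hp hip]
      unfold g1
      by_cases he : lev n L i = lev n L p
      · simp [he]
      · simp [he]
    · obtain ⟨j, rfl⟩ : ∃ j, i = p + 1 + j := ⟨i - (p + 1), by omega⟩
      rw [List.getElem_append_right (by
        rw [List.length_map, List.length_take, hlen]; omega)]
      rw [List.getElem_map, List.getElem_drop, hget]
      have hidx : p + (p + 1 + j - (List.map (g1 (lev n L p) (L (lev n L p) n))
          (List.take (p + 1) (LK n L))).length) = p + j := by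
        rw [List.length_map, List.length_take, hlen]
        omega
      simp only [hidx]
      have e1 : p + 1 + j = p + j + 1 := by omega
      rw [e1, lev_high hL h hp (by omega) (by omega), key_high hL h hp (by omega) (by omega)]
      unfold g2
      by_cases hc : lev n L (p + j) = lev n L p ∧ key n L (p + j) = key n L p
      · rw [if_pos hc, if_pos hc, if_pos (Prod.ext hc.1 hc.2)]
      · rw [if_neg hc, if_neg hc, if_neg (fun he => hc ⟨congrArg Prod.fst he, congrArg Prod.snd he⟩)]

theorem LK_ins_last (hL : Prof n L) (h : Ins n n L L') : LK (n + 1) L' = LK n L ++ [(1, n)] := by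
  unfold LK
  rw [List.range_succ, List.map_append, List.map_singleton, (lev_new hL h).1, (lev_new hL h).2]
  congr 1
  apply List.map_congr_left
  intro q hq
  have hq' : q < n := List.mem_range.1 hq
  rw [(lev_last hL h hq').1, (lev_last hL h hq').2]

end Pool.Agent.Lib.MP_ad84ff_co
end

section

/-!
# PK W7: `flat` and `grp`
-/

set_option autoImplicit false

namespace Pool.Agent.Lib.MP_ad84ff_co

variable {n : ℕ} {K : ℕ → ℕ}

theorem flat_append (A B : EP) : flat (A ++ B) = flat A ++ flat B := by
  unfold flat
  exact List.flatMap_append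

theorem total_append (A B : EP) : total (A ++ B) = total A + total B := by
  unfold total
  rw [List.map_append, List.sum_append]

private theorem flat_cons (e : (ℕ × ℕ) × ℕ) (E : EP) :
    flat (e :: E) = List.replicate e.2 e.1 ++ flat E := by
  unfold flat
  exact List.flatMap_cons

private theorem total_cons (e : (ℕ × ℕ) × ℕ) (E : EP) : total (e :: E) = e.2 + total E := by
  unfold total
  rw [List.map_cons, List.sum_cons]

private theorem mem_flat {E : EP} {x : ℕ × ℕ} (hx : x ∈ flat E) : ∃ e ∈ E, e.1 = x := by
  unfold flat at hx
  rw [List.mem_flatMap] at hx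
  obtain ⟨e, he, hxe⟩ := hx
  exact ⟨e, he, (List.eq_of_mem_replicate hxe).symm⟩

theorem length_flat (E : EP) : (flat E).length = total E := by
  induction E with
  | nil => rfl
  | cons e E ih => rw [flat_cons, total_cons, List.length_append, List.length_replicate, ih]

private theorem grp_replicate (x : ℕ × ℕ) (X : List (ℕ × ℕ)) (τ : EP) (hX : grp X = τ)
    (hne : ∀ e ∈ τ, x ≠ e.1) (k : ℕ) :
    grp (List.replicate (k + 1) x ++ X) = (x, k + 1) :: τ := by
  induction k with
  | zero =>
    change grp (x :: X) = _
    cases τ with
    | nil => simp only [grp, hX, Nat.zero_add]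
    | cons e τ =>
      have h1 : x ≠ e.1 := hne e (List.mem_cons_self ..)
      simp only [grp, hX, Nat.zero_add, if_neg h1]
  | succ k ih =>
    have h1 : List.replicate (k + 1 + 1) x ++ X = x :: (List.replicate (k + 1) x ++ X) := rfl
    rw [h1]
    simp only [grp, ih, if_true]

/-- Grouping recovers the packets: sizes are positive and (level, key) of different packets
differ. -/
theorem grp_flat {E : EP} (hE : GoodE K E) : grp (flat E) = E := by
  induction E with
  | nil => rfl
  | cons F τ ih =>
    have h1 := hE.tail
    have h2 := ih h1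
    rw [flat_cons]
    have hpos := (hE.pos F (List.mem_cons_self ..)).2
    obtain ⟨k, hk⟩ : ∃ k, F.2 = k + 1 := ⟨F.2 - 1, by omega⟩
    have hs := (List.pairwise_cons.mp hE.sorted).1
    have hne : ∀ e ∈ τ, F.1 ≠ e.1 := by
      intro e he h
      rcases hs e he with h3 | h3
      · rw [h] at h3
        exact lt_irrefl _ h3
      · rw [h] at h3
        exact lt_irrefl _ h3.2
    rw [hk, grp_replicate F.1 (flat τ) τ h2 hne k, ← hk]

/-- If all levels of `A` equal `l`, then `g1` makes everything equal. -/
theorem map_g1_flat_eq {A : EP} {l k : ℕ} (h : ∀ e ∈ A, e.1.1 = l) :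
    (flat A).map (g1 l k) = List.replicate (total A) (l + 1, k) := by
  rw [List.eq_replicate_iff]
  refine ⟨by rw [List.length_map, length_flat], ?_⟩
  intro b hb
  rw [List.mem_map] at hb
  obtain ⟨x, hx, rfl⟩ := hb
  obtain ⟨e, he, hex⟩ := mem_flat hx
  unfold g1
  rw [if_pos (by rw [← hex]; exact h e he)]

theorem map_g1_flat_ne {A : EP} {l k : ℕ} (h : ∀ e ∈ A, e.1.1 ≠ l) :
    (flat A).map (g1 l k) = flat A := by
  have h1 : ∀ x ∈ flat A, g1 l k x = id x := by
    intro x hx
    obtain ⟨e, he, hex⟩ := mem_flat hx
    unfold g1
    rw [if_neg (by rw [← hex]; exact h e he)]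
    rfl
  rw [List.map_congr_left h1, List.map_id]

theorem map_g2_flat_ne {A : EP} {l k j : ℕ} (h : ∀ e ∈ A, e.1 ≠ (l, k)) :
    (flat A).map (g2 l k j) = flat (A.map shift) := by
  induction A with
  | nil => rfl
  | cons e A ih =>
    rw [flat_cons, List.map_cons, flat_cons, List.map_append, List.map_replicate,
      ih (fun f hf => h f (List.mem_cons_of_mem _ hf))]
    have h1 : g2 l k j e.1 = (e.1.1, e.1.2 + 1) := by
      unfold g2
      rw [if_neg (h e (List.mem_cons_self ..))]
    rw [h1]
    rfl

/-- The list of (level, key) is updated by `g1` in front and by `g2` behind.  Use `stepE_decomp`: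
`flat E = flat A1 ++ flat A2 ++ replicate F.2 F.1 ++ flat B` and `(l, k) = F.1`; `g1` does not
change `A1`, and it raises `A2`; `g2` raises the copies of `F.1` and shifts the keys of `B`, whose
packets are different from `F.1` by `sorted`. -/
theorem flat_stepE_lt {E : EP} {p l k : ℕ} (hE : GoodE K E) (hp : p < total E)
    (hlk : (flat E)[p]? = some (l, k)) :
    flat (stepE n K E p) =
      ((flat E).take (p + 1)).map (g1 l (K l)) ++ ((flat E).drop p).map (g2 l k (K l)) := by
  obtain ⟨A1, A2, B, F, i, hEq, hA1, hA2, hi, hpi, hst⟩ := stepE_decomp (n := n) hE hp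
  have hflat : flat E = flat A1 ++ flat A2 ++ (List.replicate F.2 F.1 ++ flat B) := by
    rw [hEq, flat_append, flat_append, flat_cons]
  -- two splittings
  have hs1 : flat E = (flat A1 ++ flat A2 ++ List.replicate i F.1) ++
      (List.replicate (F.2 - i) F.1 ++ flat B) := by
    rw [hflat]
    have : List.replicate F.2 F.1 =
        List.replicate i F.1 ++ List.replicate (F.2 - i) F.1 := by
      rw [← List.replicate_add]
      congr 1
      omega
    rw [this]
    simp only [List.append_assoc]
  have hs2 : flat E = (flat A1 ++ flat A2 ++ List.replicate (i + 1) F.1) ++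
      (List.replicate (F.2 - (i + 1)) F.1 ++ flat B) := by
    rw [hflat]
    have : List.replicate F.2 F.1 =
        List.replicate (i + 1) F.1 ++ List.replicate (F.2 - (i + 1)) F.1 := by
      rw [← List.replicate_add]
      congr 1
      omega
    rw [this]
    simp only [List.append_assoc]
  have hl1 : (flat A1 ++ flat A2 ++ List.replicate i F.1).length = p := by
    rw [List.length_append, List.length_append, length_flat, length_flat, List.length_replicate,
      hpi]
  have hl2 : (flat A1 ++ flat A2 ++ List.replicate (i + 1) F.1).length = p + 1 := by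
    rw [List.length_append, List.length_append, length_flat, length_flat, List.length_replicate,
      hpi]
    omega
  have htake : (flat E).take (p + 1) = flat A1 ++ flat A2 ++ List.replicate (i + 1) F.1 := by
    rw [hs2]
    exact List.take_left' hl2
  have hdrop : (flat E).drop p = List.replicate (F.2 - i) F.1 ++ flat B := by
    rw [hs1]
    exact List.drop_left' hl1
  have hF : F.1 = (l, k) := by
    have h1 : (flat E)[p]? = some F.1 := by
      obtain ⟨j, hj⟩ : ∃ j, F.2 - i = j + 1 := ⟨F.2 - i - 1, by omega⟩
      rw [hs1, List.getElem?_append_right (by rw [hl1]), hl1, Nat.sub_self, hj,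
        List.replicate_succ]
      rfl
    rw [hlk] at h1
    exact (Option.some.inj h1).symm
  have hF1 : F.1.1 = l := by rw [hF]
  have hB : ∀ e ∈ B, e.1 ≠ (l, k) := by
    intro e he h
    have hs := hE.sorted
    rw [hEq] at hs
    have h2 := (List.pairwise_cons.mp (List.pairwise_append.mp hs).2.1).1 e he
    rw [h, hF] at h2
    rcases h2 with h3 | h3
    · exact lt_irrefl _ h3
    · exact lt_irrefl _ h3.2
  rw [hst, htake, hdrop, List.map_append, List.map_append, List.map_append,
    map_g1_flat_ne (fun e he => by have := hA1 e he; omega),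
    map_g1_flat_eq (fun e he => by rw [hA2 e he, hF1]), map_g2_flat_ne hB,
    List.map_replicate, List.map_replicate, flat_append, flat_cons]
  have hg1 : g1 l (K l) F.1 = (l + 1, K l) := by
    unfold g1
    rw [if_pos hF1]
  have hg2 : g2 l k (K l) F.1 = (l + 1, K l) := by
    unfold g2
    rw [if_pos hF]
  have hrep : List.replicate (total A2 + F.2 + 1) ((l + 1, K l) : ℕ × ℕ) =
      List.replicate (total A2) (l + 1, K l) ++ (List.replicate (i + 1) (l + 1, K l) ++
        List.replicate (F.2 - i) (l + 1, K l)) := by
    rw [← List.replicate_add, ← List.replicate_add]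
    congr 1
    omega
  rw [hg1, hg2, hF1]
  change flat A1 ++ (List.replicate (total A2 + F.2 + 1) ((l + 1, K l) : ℕ × ℕ) ++
    flat (B.map shift)) = _
  rw [hrep]
  simp only [List.append_assoc]

end Pool.Agent.Lib.MP_ad84ff_co
end

section

/-!
# PK W3: the profile of a word and its dynamics
-/

set_option autoImplicit false

namespace Pool.Agent.Lib.MP_ad84ff_co

theorem iter_T_prefix {a b : List ℕ} (h : b <+: a) (t : ℕ) : T^[t] b <+: T^[t] a := by
  induction t with
  | zero => exact h
  | succ t ih =>
    rw [Function.iterate_succ_apply', Function.iterate_succ_apply']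
    exact T_prefix ih

theorem mem_iter_T {w : List ℕ} {x t : ℕ} (h : x ∈ T^[t] w) : x ∈ w := by
  induction t with
  | zero => exact h
  | succ t ih =>
    rw [Function.iterate_succ_apply'] at h
    exact ih (mem_T h)

/-- Every step shortens a nonempty word. -/
theorem length_iter_T_le (w : List ℕ) (t : ℕ) : (T^[t] w).length ≤ w.length - t := by
  induction t with
  | zero => simp
  | succ t ih =>
    rw [Function.iterate_succ_apply']
    by_cases h : T^[t] w = []
    · rw [h, T_nil]
      simp
    · have h1 := T_length_lt h
      omega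

/-- `mono`: `iter_T_prefix` for the prefixes `take q <+: take q'`.  `up`: two words, one a prefix
of the other, with the same length are equal, so equality `T^t (take q) = T^t (take q')` is
preserved by `T`.  `fin`: `length_iter_T_le`. -/
theorem prof_LL (a : List ℕ) : Prof a.length (LL a) := by
  have hpre : ∀ q q' : ℕ, q ≤ q' → a.take q <+: a.take q' := fun q q' h =>
    List.take_prefix_take_left h
  refine ⟨?_, ?_, ?_, ?_⟩
  · intro q hq
    unfold LL
    rw [Function.iterate_zero, id, List.length_take]
    omega
  · intro t q q' h _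
    exact (iter_T_prefix (hpre q q' h) t).length_le
  · intro t q q' h _ he
    have h1 := (iter_T_prefix (hpre q q' h) t).eq_of_length he
    unfold LL
    rw [Function.iterate_succ_apply', Function.iterate_succ_apply', h1]
  · have h1 := length_iter_T_le (a.take a.length) a.length
    rw [List.length_take] at h1
    unfold LL
    omega

/-- As long as all earlier iterates of `b` and `b ++ c` differ, the iterate of `b ++ v :: c` is
the iterate of `b ++ c` with `v` inserted behind the iterate of `b`.  Induction on `t` with `T_ins`
(the iterate of `b` is a prefix of the iterate of `b ++ c`, and it is a proper prefix). -/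
theorem iter_T_ins {b c : List ℕ} {v : ℕ} (hv : ∀ x ∈ b ++ c, v < x) (t : ℕ)
    (ht : ∀ j < t, T^[j] b ≠ T^[j] (b ++ c)) :
    T^[t] (b ++ v :: c) = T^[t] b ++ v :: (T^[t] (b ++ c)).drop (T^[t] b).length := by
  induction t with
  | zero => simp
  | succ t ih =>
    have ih' := ih (fun j hj => ht j (by omega))
    obtain ⟨c', hc'⟩ := iter_T_prefix (List.prefix_append b c) t
    have hd : (T^[t] (b ++ c)).drop (T^[t] b).length = c' := by
      rw [← hc', List.drop_left]
    have hne : c' ≠ [] := by
      intro h
      rw [h, List.append_nil] at hc'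
      exact ht t (by omega) hc'
    have hv' : ∀ x ∈ T^[t] b ++ c', v < x := by
      intro x hx
      rw [hc'] at hx
      exact hv x (mem_iter_T hx)
    rw [Function.iterate_succ_apply', ih', hd, T_ins hne hv', hc', ← Function.iterate_succ_apply' T,
      ← Function.iterate_succ_apply' T]

/-- One step after the iterates of `b` and `b ++ c` coincide, the letter `v` has disappeared.
(First time `m` when they coincide: `iter_T_ins` gives `T^m (b v c) = T^m b ++ [v]`, then
`T_ins_last`; then apply `T` to both sides.) -/
theorem iter_T_ins_late {b c : List ℕ} {v : ℕ} (hv : ∀ x ∈ b ++ c, v < x) (t : ℕ)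
    (ht : T^[t] b = T^[t] (b ++ c)) :
    T^[t + 1] (b ++ v :: c) = T^[t + 1] (b ++ c) := by
  classical
  have hex : ∃ m, T^[m] b = T^[m] (b ++ c) := ⟨t, ht⟩
  obtain ⟨m, hm, hmin⟩ : ∃ m, T^[m] b = T^[m] (b ++ c) ∧ ∀ j < m, T^[j] b ≠ T^[j] (b ++ c) :=
    ⟨Nat.find hex, Nat.find_spec hex, fun j hj => Nat.find_min hex hj⟩
  have hmt : m ≤ t := by
    by_contra h
    exact hmin t (by omega) ht
  have h1 := iter_T_ins hv m hmin
  rw [← hm, List.drop_length] at h1
  have h2 : T^[m + 1] (b ++ v :: c) = T^[m + 1] (b ++ c) := by
    rw [Function.iterate_succ_apply', h1, Function.iterate_succ_apply' T m (b ++ c), ← hm]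
    refine T_ins_last ?_
    intro x hx
    exact hv x (List.mem_append_left _ (mem_iter_T hx))
  obtain ⟨d, rfl⟩ := Nat.exists_eq_add_of_le hmt
  rw [show m + d + 1 = d + (m + 1) by omega, Function.iterate_add_apply, h2,
    ← Function.iterate_add_apply]

/-- The dynamics of the profile.  `low`: `(insAt a p v).take q = a.take q` for `q ≤ p`.
`high`: `(insAt a p v).take (q + 1) = a.take p ++ v :: (a.take q).drop p`; use `iter_T_ins`
(when `LL a t p < LL a t q`, then all earlier iterates differ as well) and `iter_T_ins_late`. -/
theorem ins_LL {a : List ℕ} {p v : ℕ} (hp : p ≤ a.length) (hv : ∀ x ∈ a, v < x) :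
    Ins a.length p (LL a) (LL (insAt a p v)) := by
  have hlen : (insAt a p v).length = a.length + 1 := by
    unfold insAt
    rw [List.length_append, List.length_cons, List.length_take, List.length_drop]
    omega
  have htp : (a.take p).length = p := by
    rw [List.length_take]
    omega
  refine ⟨?_, ?_, ?_⟩
  · intro q hq
    unfold LL
    rw [Function.iterate_zero, id, List.length_take]
    omega
  · intro t q hq
    unfold LL
    have : (insAt a p v).take q = a.take q := by
      unfold insAt
      rw [List.take_append_of_le_length (by omega), List.take_take, min_eq_left hq]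
    rw [this]
  · intro t q hpq hqn
    have e1 : (insAt a p v).take (q + 1) = a.take p ++ v :: (a.take q).drop p := by
      unfold insAt
      rw [List.take_append, List.take_of_length_le (by omega), htp,
        show q + 1 - p = (q - p) + 1 by omega, List.take_succ_cons, List.drop_take]
    have e2 : a.take p ++ (a.take q).drop p = a.take q := by
      have h3 : a.take p = (a.take q).take p := by
        rw [List.take_take, min_eq_left hpq]
      rw [h3, List.take_append_drop]
    have hv' : ∀ x ∈ a.take p ++ (a.take q).drop p, v < x := by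
      intro x hx
      rw [e2] at hx
      exact hv x (List.mem_of_mem_take hx)
    have hpre : T^[t] (a.take p) <+: T^[t] (a.take q) :=
      iter_T_prefix (List.take_prefix_take_left hpq) t
    unfold LL
    rw [e1]
    by_cases hlt : (T^[t] (a.take p)).length < (T^[t] (a.take q)).length
    · rw [if_pos hlt]
      have hne : ∀ j < t + 1, T^[j] (a.take p) ≠ T^[j] (a.take p ++ (a.take q).drop p) := by
        intro j hj he
        rw [e2] at he
        obtain ⟨d, hd⟩ := Nat.exists_eq_add_of_le (Nat.lt_succ_iff.1 hj)
        have h5 : T^[t] (a.take p) = T^[t] (a.take q) := by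
          rw [hd, add_comm j d, Function.iterate_add_apply, Function.iterate_add_apply, he]
        rw [h5] at hlt
        exact absurd hlt (lt_irrefl _)
      rw [iter_T_ins hv' (t + 1) hne, e2, List.length_append, List.length_cons, List.length_drop]
      have h6 := (iter_T_prefix (List.take_prefix_take_left (l := a) hpq) (t + 1)).length_le
      omega
    · rw [if_neg hlt]
      have h7 : T^[t] (a.take p) = T^[t] (a.take q) :=
        hpre.eq_of_length (le_antisymm hpre.length_le (not_lt.1 hlt))
      rw [iter_T_ins_late hv' t (by rw [e2]; exact h7), e2, add_zero]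

end Pool.Agent.Lib.MP_ad84ff_co
end

section

/-!
# PK W8: `stepE` preserves `GoodE`
-/

set_option autoImplicit false

namespace Pool.Agent.Lib.MP_ad84ff_co

variable {n : ℕ} {K : ℕ → ℕ}

/-- With the decomposition `stepE_decomp` (`l = F.1.1`): the packets of `A1` of level `l + 1` have
key less than `K l` by `bound`; the packets of `B` have level at most `l` and all keys are shifted
by one; `bound`: `K' ≥ K`, `K l < K' l = K l + 1`, and for the packets of `B` of level `m ≤ l`:
`K' (m - 1) = K (m - 1) + 1`. -/
theorem goodE_stepE_lt {E : EP} {p l k : ℕ} {K' : ℕ → ℕ} (hE : GoodE K E) (hp : p < total E)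
    (hlk : (flat E)[p]? = some (l, k)) (hK' : ∀ t, K' t = K t + if t ≤ l then 1 else 0) :
    GoodE K' (stepE n K E p) := by
  obtain ⟨A1, A2, B, F, i, hdec, hA1, hA2, hi, hpp, hstep⟩ := stepE_decomp (n := n) hE hp
  have hF : F.1 = (l, k) := by
    have h1 : flat E = (flat A1 ++ flat A2) ++ (List.replicate F.2 F.1 ++ flat B) := by
      rw [hdec, flat_append, flat_append]
      rfl
    have hlen : (flat A1 ++ flat A2).length = total A1 + total A2 := by
      rw [List.length_append, length_flat, length_flat]
    rw [h1, hpp, List.getElem?_append_right (by omega), hlen] at hlk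
    have h2 : total A1 + total A2 + i - (total A1 + total A2) = i := by omega
    rw [h2, List.getElem?_append_left (by rw [List.length_replicate]; exact hi),
      List.getElem?_replicate_of_lt hi] at hlk
    exact Option.some.inj hlk
  have hFl : F.1.1 = l := by rw [hF]
  have hle : ∀ t, K t ≤ K' t := fun t => by
    rw [hK' t]
    exact Nat.le_add_right _ _
  have hmemA1 : ∀ e ∈ A1, e ∈ E := fun e he => by
    rw [hdec]
    simp [he]
  have hmemB : ∀ e ∈ B, e ∈ E := fun e he => by
    rw [hdec]
    simp [he]
  have hs := hE.sorted
  rw [hdec, List.append_assoc] at hs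
  obtain ⟨hsA1, hs2, -⟩ := List.pairwise_append.1 hs
  obtain ⟨-, hs3, -⟩ := List.pairwise_append.1 hs2
  obtain ⟨hFB, hsB⟩ := List.pairwise_cons.1 hs3
  have hBl : ∀ e ∈ B, e.1.1 ≤ l := fun e he => by
    rcases hFB e he with h | h
    · omega
    · omega
  rw [hstep]
  refine ⟨?_, ?_, ?_⟩
  · intro e he
    rw [List.mem_append, List.mem_cons, List.mem_map] at he
    rcases he with he | he | ⟨e', he', rfl⟩
    · exact hE.pos e (hmemA1 e he)
    · subst he
      exact ⟨by simp, by simp only; omega⟩
    · exact hE.pos e' (hmemB e' he')
  · rw [List.pairwise_append, List.pairwise_cons, List.pairwise_map]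
    refine ⟨hsA1, ⟨?_, ?_⟩, ?_⟩
    · intro f hf
      rw [List.mem_map] at hf
      obtain ⟨e', he', rfl⟩ := hf
      left
      have := hBl e' he'
      change e'.1.1 < F.1.1 + 1
      omega
    · refine hsB.imp ?_
      intro e f hef
      rcases hef with h | ⟨h1, h2⟩
      · left
        exact h
      · right
        refine ⟨h1, ?_⟩
        change e.1.2 + 1 < f.1.2 + 1
        omega
    · intro e he f hf
      have h1 := hA1 e he
      rw [List.mem_cons, List.mem_map] at hf
      rcases hf with hf | ⟨e', he', rfl⟩
      · subst hf
        by_cases h2 : F.1.1 + 1 < e.1.1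
        · left
          exact h2
        · right
          have h3 : e.1.1 = F.1.1 + 1 := by omega
          refine ⟨h3.symm, ?_⟩
          have h4 := hE.bound e (hmemA1 e he)
          rw [h3, Nat.add_sub_cancel] at h4
          exact h4
      · left
        have := hBl e' he'
        change e'.1.1 < e.1.1
        omega
  · intro e he
    rw [List.mem_append, List.mem_cons, List.mem_map] at he
    rcases he with he | he | ⟨e', he', rfl⟩
    · exact lt_of_lt_of_le (hE.bound e (hmemA1 e he)) (hle _)
    · subst he
      simp only [Nat.add_sub_cancel]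
      rw [hK', if_pos hFl.le]
      exact Nat.lt_succ_self _
    · have h1 := hE.bound e' (hmemB e' he')
      have h2 := hBl e' he'
      change e'.1.2 + 1 < K' (e'.1.1 - 1)
      rw [hK', if_pos (by omega)]
      omega

/-- `stepE_last`; the packets of level one have key less than `K 0 = n`. -/
theorem goodE_stepE_last {E : EP} {K' : ℕ → ℕ} (hE : GoodE K E) (hK0 : K 0 = n)
    (hK' : ∀ t, K' t = K t + if t = 0 then 1 else 0) :
    GoodE K' (stepE n K E (total E)) := by
  rw [stepE_last hE]
  refine ⟨?_, ?_, ?_⟩
  · intro e he
    rw [List.mem_append, List.mem_singleton] at he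
    rcases he with he | rfl
    · exact hE.pos e he
    · exact ⟨le_rfl, le_rfl⟩
  · rw [List.pairwise_append]
    refine ⟨hE.sorted, List.pairwise_singleton _ _, ?_⟩
    intro e he f hf
    rw [List.mem_singleton] at hf
    subst hf
    have h1 := (hE.pos e he).1
    by_cases h2 : 1 < e.1.1
    · left
      exact h2
    · right
      have h3 : e.1.1 = 1 := by omega
      refine ⟨h3.symm, ?_⟩
      have h4 := hE.bound e he
      rw [h3, Nat.sub_self, hK0] at h4
      exact h4
  · intro e he
    rw [List.mem_append, List.mem_singleton] at he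
    rcases he with he | rfl
    · refine lt_of_lt_of_le (hE.bound e he) ?_
      rw [hK']
      exact Nat.le_add_right _ _
    · simp only [Nat.sub_self]
      rw [hK', if_pos rfl, hK0]
      exact Nat.lt_succ_self _

end Pool.Agent.Lib.MP_ad84ff_co
end

section

/-!
# PK W10: the depth of `a 0`
-/

set_option autoImplicit false

namespace Pool.Agent.Lib.MP_ad84ff_co

private theorem stackRun_perm_aux (R F : List ℕ) : (stackRun R F).Perm (F ++ R) := by
  induction R, F using stackRun.induct with
  | case1 st =>
    rw [stackRun, List.append_nil]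
  | case2 x xs ih =>
    rw [stackRun]
    exact ih
  | case3 x xs y st hxy ih =>
    rw [stackRun, if_pos hxy]
    refine ih.trans ?_
    have h1 : (x :: y :: st) ++ xs = x :: ((y :: st) ++ xs) := rfl
    rw [h1]
    exact (List.perm_middle (a := x) (l₁ := y :: st) (l₂ := xs)).symm
  | case4 x xs y st hxy ih =>
    rw [stackRun, if_neg hxy]
    exact List.Perm.cons y ih

/-- Merge of two sorted disjoint words by the stack algorithm.  Functional induction. -/
theorem stackRun_sorted {R F : List ℕ} (hR : R.Pairwise (· < ·)) (hF : F.Pairwise (· < ·))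
    (hd : ∀ x ∈ R, x ∉ F) : (stackRun R F).Pairwise (· < ·) := by
  induction R, F using stackRun.induct with
  | case1 st =>
    rw [stackRun]
    exact hF
  | case2 x xs ih =>
    rw [stackRun]
    rw [List.pairwise_cons] at hR
    apply ih hR.2 (List.pairwise_singleton _ _)
    intro z hz hz'
    rw [List.mem_singleton] at hz'
    have := hR.1 z hz
    omega
  | case3 x xs y st hxy ih =>
    rw [stackRun, if_pos hxy]
    rw [List.pairwise_cons] at hR
    apply ih hR.2
    · rw [List.pairwise_cons]
      refine ⟨?_, hF⟩
      intro z hz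
      rcases List.mem_cons.1 hz with rfl | hz
      · exact hxy
      · rw [List.pairwise_cons] at hF
        exact hxy.trans (hF.1 z hz)
    · intro z hz hz'
      rcases List.mem_cons.1 hz' with rfl | hz'
      · exact lt_irrefl _ (hR.1 _ hz)
      · exact hd z (List.mem_cons_of_mem _ hz) hz'
  | case4 x xs y st hxy ih =>
    rw [stackRun, if_neg hxy, List.pairwise_cons]
    have hF' := List.pairwise_cons.1 hF
    have hyx : y < x := by
      have h1 : x ≠ y := fun h => hd x (List.mem_cons_self) (h ▸ List.mem_cons_self)
      omega
    refine ⟨?_, ih hR hF'.2 fun z hz hz' => hd z hz (List.mem_cons_of_mem _ hz')⟩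
    intro z hz
    have hz2 := (stackRun_perm_aux (x :: xs) st).mem_iff.1 hz
    rcases List.mem_append.1 hz2 with h | h
    · exact hF'.1 z h
    · rcases List.mem_cons.1 h with rfl | h
      · exact hyx
      · exact hyx.trans ((List.pairwise_cons.1 hR).1 z h)

theorem stackRun_perm (R F : List ℕ) : (stackRun R F).Perm (F ++ R) := stackRun_perm_aux R F

/-- After reading `β` the output is `T β` and the stack is `(rds β).2`; `0` is pushed on the stack;
the next letter (or the flush) pops it, and then the run continues as without it. -/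
theorem s_zero {β R : List ℕ} (hβ : ∀ x ∈ β, 0 < x) (hR : ∀ x ∈ R, 0 < x) :
    s (β ++ 0 :: R) = T β ++ 0 :: stackRun R (rds β).2 := by
  have hst : ∀ x ∈ (rds β).2, 0 < x := fun x hx => hβ x (mem_stack hx)
  have hrd : rd (rds β) 0 = (T β, 0 :: (rds β).2) := by
    have h1 : (rds β).2.takeWhile (fun y => decide (y ≤ 0)) = [] := by
      rcases h : (rds β).2 with _ | ⟨z, l⟩
      · rfl
      · rw [List.takeWhile_cons_of_neg]
        have := hst z (by rw [h]; exact List.mem_cons_self)
        simp
        omega
    have h2 : (rds β).2.dropWhile (fun y => decide (y ≤ 0)) = (rds β).2 := by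
      rcases h : (rds β).2 with _ | ⟨z, l⟩
      · rfl
      · rw [List.dropWhile_cons_of_neg]
        have := hst z (by rw [h]; exact List.mem_cons_self)
        simp
        omega
    unfold rd
    rw [h1, h2, List.append_nil]
    rfl
  have hrun : stackRun R (0 :: (rds β).2) = 0 :: stackRun R (rds β).2 := by
    rcases R with _ | ⟨x, xs⟩
    · rw [stackRun, stackRun]
    · have hx := hR x List.mem_cons_self
      rw [stackRun, if_neg (by omega)]
  have h3 : (β ++ 0 :: R).foldl rd ([], []) = R.foldl rd (T β, 0 :: (rds β).2) := by
    rw [List.foldl_append, List.foldl_cons]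
    change R.foldl rd (rd (rds β) 0) = _
    rw [hrd]
  unfold s
  rw [stackRun_eq, h3, foldl_rd_eq, ← hrun, stackRun_eq R]
  simp only [List.append_assoc]

/-- `s^t (a 0) = T^t a 0 R` with `R` increasing.  Induction on `t`; the word `T^t a 0 R` is a
permutation of `a 0`, so its letters are distinct. -/
theorem iter_s {a : List ℕ} (h0 : ∀ x ∈ a, 0 < x) (hn : a.Nodup) (t : ℕ) :
    ∃ R : List ℕ, s^[t] (a ++ [0]) = T^[t] a ++ 0 :: R ∧ R.Pairwise (· < ·) ∧
      (T^[t] a ++ R).Perm a := by
  induction t with
  | zero =>
    refine ⟨[], rfl, List.Pairwise.nil, ?_⟩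
    simp
  | succ t ih =>
    obtain ⟨R, h1, h2, h3⟩ := ih
    have hmem : ∀ x, x ∈ T^[t] a ++ R → 0 < x := fun x hx => h0 x (h3.mem_iff.1 hx)
    refine ⟨stackRun R (rds (T^[t] a)).2, ?_, ?_, ?_⟩
    · rw [Function.iterate_succ_apply', Function.iterate_succ_apply', h1]
      exact s_zero (fun x hx => hmem x (List.mem_append_left _ hx))
        (fun x hx => hmem x (List.mem_append_right _ hx))
    · apply stackRun_sorted h2 (rds_sorted _)
      intro x hx hx'
      have hnd : (T^[t] a ++ R).Nodup := h3.nodup_iff.2 hn
      rw [List.nodup_append'] at hnd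
      exact hnd.2.2 (mem_stack hx') hx
    · rw [Function.iterate_succ_apply']
      have h4 : (T (T^[t] a) ++ stackRun R (rds (T^[t] a)).2).Perm
          (T (T^[t] a) ++ ((rds (T^[t] a)).2 ++ R)) := (stackRun_perm _ _).append_left _
      refine h4.trans ?_
      rw [← List.append_assoc]
      exact ((rds_perm (T^[t] a)).append_right R).trans h3

/-- `T^t a 0 R` is increasing iff `T^t a` is empty. -/
theorem dep_eq {a : List ℕ} (h0 : ∀ x ∈ a, 0 < x) (hn : a.Nodup) :
    dep (a ++ [0]) = sInf {t : ℕ | T^[t] a = []} := by
  unfold dep
  congr 1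
  ext t
  obtain ⟨R, h1, h2, h3⟩ := iter_s h0 hn t
  have hmem : ∀ x, x ∈ T^[t] a ++ R → 0 < x := fun x hx => h0 x (h3.mem_iff.1 hx)
  change (s^[t] (a ++ [0])).Pairwise (· < ·) ↔ T^[t] a = []
  rw [h1]
  constructor
  · intro hp
    rw [List.pairwise_append] at hp
    by_contra hne
    obtain ⟨x, hx⟩ := List.exists_mem_of_ne_nil _ hne
    have := hp.2.2 x hx 0 List.mem_cons_self
    omega
  · intro he
    rw [he, List.nil_append, List.pairwise_cons]
    exact ⟨fun x hx => hmem x (List.mem_append_right _ hx), h2⟩

/-- The first packet of the state has the level of slot `0`. -/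
theorem top_grp (x : ℕ × ℕ) (X : List (ℕ × ℕ)) : top (proj (grp (x :: X))) = x.1 := by
  unfold grp
  rcases grp X with _ | ⟨e, E⟩
  · rfl
  · simp only
    by_cases h : x = e.1
    · rw [if_pos h]
      change e.1.1 = x.1
      rw [h]
    · rw [if_neg h]
      rfl

/-- For nonempty `a` the level of slot `0` is `sInf {t | LL a t 0 = LL a t n}` and
`LL a t 0 = 0`. -/
theorem top_st (a : List ℕ) : top (st a) = sInf {t : ℕ | T^[t] a = []} := by
  have hnil : ∀ t : ℕ, T^[t] [] = [] := fun t => Function.iterate_fixed T_nil t
  rcases a with _ | ⟨x, l⟩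
  · have h1 : sInf {t : ℕ | T^[t] [] = []} = 0 := by
      apply Nat.eq_zero_of_le_zero
      exact Nat.sInf_le (hnil 0)
    rw [h1]
    rfl
  · unfold st LK
    have h1 : List.range (x :: l).length = 0 :: (List.range l.length).map Nat.succ := by
      rw [List.length_cons, List.range_succ_eq_map]
    rw [h1, List.map_cons, top_grp]
    have h2 : {t : ℕ | LL (x :: l) t 0 = LL (x :: l) t (x :: l).length} =
        {t : ℕ | T^[t] (x :: l) = []} := by
      ext t
      change LL (x :: l) t 0 = LL (x :: l) t (x :: l).length ↔ T^[t] (x :: l) = []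
      unfold LL
      rw [List.take_zero, hnil, List.take_length, List.length_nil, eq_comm,
        List.length_eq_zero_iff]
    change sInf {t : ℕ | LL (x :: l) t 0 = LL (x :: l) t (x :: l).length} = _
    rw [h2]

end Pool.Agent.Lib.MP_ad84ff_co
end

section

/-!
# `D'_n` is the mean of the level of the first packet
-/

set_option autoImplicit false

namespace Pool.Agent.Lib.MP_ad84ff_co

/-- The state of a word is represented by an admissible list of packets. -/
def Rep (a : List ℕ) (E : EP) : Prop :=
  LK a.length (LL a) = flat E ∧ GoodE (fun t => LL a t a.length) E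

theorem rep_nil : Rep [] [] :=
  ⟨by simp [LK, flat], ⟨by simp, by simp, by simp⟩⟩

theorem length_insAt {a : List ℕ} {p v : ℕ} (hp : p ≤ a.length) :
    (insAt a p v).length = a.length + 1 := by
  simp only [insAt, List.length_append, List.length_take, List.length_cons, List.length_drop]
  omega

theorem rep_total {a : List ℕ} {E : EP} (h : Rep a E) : total E = a.length := by
  rw [← length_flat, ← h.1]; simp [LK]

theorem rep_ins {a : List ℕ} {E : EP} (h : Rep a E) {p v : ℕ} (hp : p ≤ a.length)
    (hv : ∀ x ∈ a, v < x) :
    Rep (insAt a p v) (stepE a.length (fun t => LL a t a.length) E p) := by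
  have htot := rep_total h
  obtain ⟨h1, h2⟩ := h
  have hI := ins_LL hp hv
  have hL := prof_LL a
  have hlen := length_insAt (v := v) hp
  unfold Rep
  rw [hlen]
  rcases hp.lt_or_eq with hlt | heq
  · have hlk : (flat E)[p]? = some (lev a.length (LL a) p, key a.length (LL a) p) := by
      rw [← h1]; simp [LK, hlt]
    refine ⟨?_, ?_⟩
    · rw [LK_ins_lt hL hI hlt, h1, flat_stepE_lt h2 (by omega) hlk]
    · exact goodE_stepE_lt h2 (by omega) hlk (K_ins hL hI hlt)
  · subst heq
    refine ⟨?_, ?_⟩
    · have h3 := stepE_last (n := a.length) h2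
      rw [htot] at h3
      rw [LK_ins_last hL hI, h1, h3, flat_append]
      simp [flat]
    · have h4 := goodE_stepE_last (n := a.length) h2 (hL.zero _ le_rfl) (K_ins_last hL hI)
      rwa [htot] at h4

theorem st_eq {a : List ℕ} {E : EP} (h : Rep a E) : st a = proj E := by
  unfold st
  rw [h.1, grp_flat h.2]

theorem st_ins {a : List ℕ} {E : EP} (h : Rep a E) {p v : ℕ} (hp : p ≤ a.length)
    (hv : ∀ x ∈ a, v < x) : st (insAt a p v) = step (st a) p := by
  rw [st_eq (rep_ins h hp hv), st_eq h, proj_stepE]

theorem exists_insAt {b n : ℕ} {a : List ℕ} (ha : a ∈ (List.range' b (n + 1)).permutations') :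
    ∃ c ∈ (List.range' (b + 1) n).permutations', ∃ p ≤ c.length, a = insAt c p b := by
  rw [List.mem_permutations', List.range'_succ] at ha
  have hb : b ∈ a := ha.mem_iff.mpr (by simp)
  obtain ⟨s, t, rfl⟩ := List.append_of_mem hb
  refine ⟨s ++ t, ?_, s.length, by simp, ?_⟩
  · rw [List.mem_permutations']
    exact (List.perm_cons b).mp (List.perm_middle.symm.trans ha)
  · simp [insAt]

theorem exists_rep (n : ℕ) : ∀ (b : ℕ) (a : List ℕ), a ∈ (List.range' b n).permutations' →
    ∃ E, Rep a E := by
  induction n with
  | zero =>
    intro b a ha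
    have : a = [] := by simpa using ha
    subst this
    exact ⟨[], rep_nil⟩
  | succ n ih =>
    intro b a ha
    obtain ⟨c, hc, p, hp, rfl⟩ := exists_insAt ha
    obtain ⟨E, hE⟩ := ih (b + 1) c hc
    exact ⟨_, rep_ins hE hp fun x hx => (mem_perms hc).2.2 x hx⟩

theorem sum_st (n : ℕ) : ∀ (b : ℕ) (f : St → ℝ),
    (((List.range' b n).permutations').map fun a => f (st a)).sum = n.factorial * M n f := by
  induction n with
  | zero =>
    intro b f
    have h : st [] = [] := by rw [st_eq rep_nil]; rfl
    simp [M, h]
  | succ n ih =>
    intro b f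
    rw [sum_permutations'_succ b n (fun a => f (st a))]
    have h1 : (((List.range' (b + 1) n).permutations').map fun a =>
        ∑ p ∈ Finset.range (n + 1), f (st (insAt a p b))) =
        (((List.range' (b + 1) n).permutations').map fun a =>
          ((n : ℝ) + 1) * (fun σ => W (succ σ) f / ((n : ℝ) + 1)) (st a)) := by
      apply List.map_congr_left
      intro a ha
      obtain ⟨hl, hnd, hb⟩ := mem_perms ha
      obtain ⟨E, hE⟩ := exists_rep n (b + 1) a ha
      have htot : ((st a).map Prod.snd).sum = n := by
        rw [st_eq hE]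
        have := rep_total hE
        rw [hl] at this
        simpa [proj, total, Function.comp_def] using this
      have hn : ((n : ℝ) + 1) ≠ 0 := by positivity
      show _ = ((n : ℝ) + 1) * (W (succ (st a)) f / ((n : ℝ) + 1))
      rw [mul_div_cancel₀ _ hn, W_succ_eq, htot]
      apply Finset.sum_congr rfl
      intro p hp
      rw [Finset.mem_range] at hp
      rw [st_ins hE (by omega) (fun x hx => hb x hx)]
    rw [h1, List.sum_map_mul_left, ih (b + 1) (fun σ => W (succ σ) f / ((n : ℝ) + 1)),
      Nat.factorial_succ]
    simp only [M]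
    push_cast
    ring

theorem Dp_eq (n : ℕ) : Dp n = M n (fun σ => (top σ : ℝ)) := by
  unfold Dp
  rw [sum_word n (fun w => (dep (w ++ [0]) : ℝ))]
  have h1 : (((List.range' 1 n).permutations').map fun w => (dep (w ++ [0]) : ℝ)) =
      (((List.range' 1 n).permutations').map fun a => (fun σ => (top σ : ℝ)) (st a)) := by
    apply List.map_congr_left
    intro a ha
    obtain ⟨hl, hnd, hb⟩ := mem_perms ha
    have h2 := dep_eq (fun x hx => hb x hx) hnd
    show _ = ((top (st a) : ℕ) : ℝ)
    rw [h2, top_st]
  rw [h1, sum_st n 1 (fun σ => (top σ : ℝ))]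
  have : (n.factorial : ℝ) ≠ 0 := by positivity
  field_simp

end Pool.Agent.Lib.MP_ad84ff_co
end
end
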