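import Pool.Agent.Lib.MP_ad84ff_co.Defs
import Pool.Agent.Lib.MP_ad84ff_co.Nu7
import Pool.Agent.Lib.MP_ad84ff_co.Nu4
import Pool.Agent.Lib.MP_ad84ff_co.WdMain

section

set_option autoImplicit false

namespace Pool.Agent.Lib.MP_ad84ff_co

/-- No second packet.  `pot σ = 2^{-(D+1)}` if `2 D ≤ a`, where `σ = [(D, a)]`; the successors are
`[(D+1, a+1)]` (weight `a`) and `[(D, a), (1, 1)]` (weight `1`; gap `D - 1`, second size `1`). -/
theorem pot_one (D a : ℕ) (hD : 1 ≤ D) (ha : D ≤ a) :
    heavy [(D, a)] + W (succ [(D, a)]) pot ≤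
      ((a : ℝ) + 1) * pot [(D, a)] + (1 / 4) * tie [(D, a)] := by
  have h1 : heavy [(D, a)] = 0 := by
    simp [heavy, ms, succ, top]
    intro h
    omega
  have h2 : tie [(D, a)] = 0 := by
    simp [tie, ms, succ, top]
    omega
  have h3 : W (succ [(D, a)]) pot = (a : ℝ) * pot [(D + 1, a + 1)] + pot [(D, a), (1, 1)] := by
    have h0 : ¬ (D = 0) := by omega
    simp [W, succ, glue, h0]
  rw [h1, h2, h3]
  have e1 : pot [(D, a)] = if 2 * D ≤ a then (1 / 2 : ℝ) ^ (D + 1) else 0 := by
    simp [pot, sec, gap, front, top]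
  have e2 : pot [(D + 1, a + 1)] = if 2 * (D + 1) ≤ a + 1 then (1 / 2 : ℝ) ^ (D + 2) else 0 := by
    simp [pot, sec, gap, front, top]
  have e3 : pot [(D, a), (1, 1)] = if 2 * D ≤ a then (1 / 2 : ℝ) ^ D else 0 := by
    have hh : 1 + (D - 1) = D := by omega
    have hh' : D - 1 + 1 = D := by omega
    simp [pot, sec, gap, front, top, hh, hh']
  rw [e1, e2, e3]
  by_cases hc : 2 * D ≤ a
  · rw [if_pos hc, if_pos hc]
    have h4 : (if 2 * (D + 1) ≤ a + 1 then (1 / 2 : ℝ) ^ (D + 2) else 0) ≤ (1 / 2 : ℝ) ^ (D + 2) := by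
      split_ifs
      · exact le_refl _
      · positivity
    have h5 : (2 : ℝ) ≤ a := by
      have : 2 ≤ a := by omega
      exact_mod_cast this
    have h6 : (0 : ℝ) < (1 / 2 : ℝ) ^ D := by positivity
    have h7 : (a : ℝ) * (if 2 * (D + 1) ≤ a + 1 then (1 / 2 : ℝ) ^ (D + 2) else 0) ≤
        a * (1 / 2 : ℝ) ^ (D + 2) := mul_le_mul_of_nonneg_left h4 (by positivity)
    have h8 : (1 / 2 : ℝ) ^ (D + 2) = (1 / 2 : ℝ) ^ D * (1 / 4) := by rw [pow_add]; norm_num
    have h9 : (1 / 2 : ℝ) ^ (D + 1) = (1 / 2 : ℝ) ^ D * (1 / 2) := by rw [pow_add]; norm_num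
    rw [h8] at h7
    rw [h9, h8] at *
    nlinarith
  · have hc' : ¬ (2 * (D + 1) ≤ a + 1) := by omega
    rw [if_neg hc, if_neg hc, if_neg hc']
    simp

end Pool.Agent.Lib.MP_ad84ff_co
end

section

set_option autoImplicit false

namespace Pool.Agent.Lib.MP_ad84ff_co

private theorem po2_ne_nil {n : ℕ} (hn : 1 ≤ n) {σ : St} (h : Good n σ) : σ ≠ [] := by
  rintro rfl
  have h1 := h.sum
  simp at h1
  omega

private theorem po2_front_le {n : ℕ} {σ : St} (h : Good n σ) : front σ ≤ n := by
  cases σ with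
  | nil => exact Nat.zero_le _
  | cons F τ =>
    have h1 := h.sum
    rw [List.map_cons, List.sum_cons] at h1
    show F.2 ≤ n
    omega

private theorem po2_front_pos {n : ℕ} {σ : St} (h : Good n σ) (hσ : σ ≠ []) : 1 ≤ front σ := by
  cases σ with
  | nil => exact absurd rfl hσ
  | cons F τ =>
    have h1 := h.pos F (List.mem_cons_self)
    show 1 ≤ F.2
    omega

/-- `M_{n+1}(harm (n+1)) ≥ M_n (harm n) + (1/3) M_n(light) / (n+1)`. -/
theorem M_harm_succ (n : ℕ) (hn : 1 ≤ n) :
    M n (harm n) + (1 / 3) * (M n light / ((n : ℝ) + 1)) ≤ M (n + 1) (harm (n + 1)) := by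
  have hn1 : (0 : ℝ) < (n : ℝ) + 1 := by positivity
  have key : ∀ σ, Good n σ →
      harm n σ + (1 / 3 * (1 / ((n : ℝ) + 1))) * light σ ≤
        W (succ σ) (harm (n + 1)) / ((n : ℝ) + 1) := by
    intro σ h
    have hσ := po2_ne_nil hn h
    have hf := po2_front_pos h hσ
    rw [W_succ_harm n σ h hσ]
    have h1 : (1 / 3 : ℝ) * light σ ≤
        ms (fun k => ((harmonic (front σ + k - 1) : ℚ) : ℝ) -
          ((harmonic (front σ - 1) : ℚ) : ℝ)) σ := by
      unfold light
      rw [← ms_mul]
      refine ms_mono _ _ σ ?_ n h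
      intro k hk
      by_cases hlt : front σ < 2 * k
      · rw [if_pos hlt, mul_one]
        exact harm_gain (front σ) k hf hlt
      · rw [if_neg hlt, mul_zero]
        have := harmonic_mono' (front σ - 1) (front σ + k - 1) (by omega)
        linarith
    rw [add_div, mul_div_cancel_left₀ _ hn1.ne']
    have h2 : (1 / 3 * (1 / ((n : ℝ) + 1))) * light σ = (1 / 3 * light σ) / ((n : ℝ) + 1) := by
      ring
    rw [h2]
    have h3 := div_le_div_of_nonneg_right h1 hn1.le
    linarith
  have h4 := M_mono n _ _ key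
  rw [M_add, M_mul] at h4
  rw [M_succ]
  have h5 : (1 / 3 : ℝ) * (M n light / ((n : ℝ) + 1)) = (1 / 3 * (1 / ((n : ℝ) + 1))) * M n light := by
    ring
  rw [h5]
  exact h4

/-- Sum of `M_harm_succ` from `1` to `N`; `harm ≤ 0` since `front σ - 1 ≤ n`, and `M 1 (harm 1) = -1`. -/
theorem light_sum (N : ℕ) :
    ∑ n ∈ Finset.Icc 1 N, M n light / ((n : ℝ) + 1) ≤ 3 := by
  have h1 : M 1 (harm 1) = -1 := by
    have e : M 1 (harm 1) = M 0 (fun σ => W (succ σ) (harm 1) / (((0 : ℕ) : ℝ) + 1)) := rfl
    rw [e, M_zero]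
    simp [succ, W, harm, front]
  have h2 : ∀ N : ℕ, -1 + (1 / 3) * ∑ n ∈ Finset.Icc 1 N, M n light / ((n : ℝ) + 1) ≤
      M (N + 1) (harm (N + 1)) := by
    intro N
    induction N with
    | zero =>
      rw [Finset.Icc_eq_empty (by omega), Finset.sum_empty, mul_zero, add_zero]
      exact h1.ge
    | succ N ih =>
      rw [Finset.sum_Icc_succ_top (by omega)]
      have h3 := M_harm_succ (N + 1) (by omega)
      have e1 : (-1 : ℝ) + 1 / 3 * (∑ n ∈ Finset.Icc 1 N, M n light / ((n : ℝ) + 1) +
          M (N + 1) light / (((N + 1 : ℕ) : ℝ) + 1)) =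
          (-1 + 1 / 3 * ∑ n ∈ Finset.Icc 1 N, M n light / ((n : ℝ) + 1)) +
          1 / 3 * (M (N + 1) light / (((N + 1 : ℕ) : ℝ) + 1)) := by ring
      rw [e1]
      linarith
  have h4 : M (N + 1) (harm (N + 1)) ≤ 0 := by
    have h5 : M (N + 1) (harm (N + 1)) ≤ M (N + 1) (fun _ => (0 : ℝ)) := by
      refine M_mono _ _ _ fun σ h => ?_
      have h6 := po2_front_le h
      unfold harm
      have := harmonic_mono' (front σ - 1) (N + 1) (by omega)
      linarith
    rwa [M_const] at h5
  have h7 := h2 N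
  linarith

end Pool.Agent.Lib.MP_ad84ff_co
end

section

set_option autoImplicit false

namespace Pool.Agent.Lib.MP_ad84ff_co

private theorem front_le_vpot (S : ℕ) (σ : St) : (front σ : ℝ) ≤ vpot S σ := by
  unfold vpot
  have := ee_nonneg S (front σ) (sec σ) (gap σ + 1)
  have h2 : (0 : ℝ) ≤ (sec σ : ℝ) := Nat.cast_nonneg _
  nlinarith [mul_nonneg h2 this]

private theorem vpot_cons (S : ℕ) (F : ℕ × ℕ) (τ : St) :
    vpot S (F :: τ) = (F.2 : ℝ) + (front τ : ℝ) * ee S F.2 (front τ) (F.1 - top τ + 1) := rfl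

/-- The potential of a state obtained by `glue` from a state whose first packet has level `≥ l`
and size `≥ c`. -/
private theorem glue_vpot (S : ℕ) (F : ℕ × ℕ) (ρ : St) (l c : ℕ) (hF : 1 ≤ F.2)
    (hl : l ≤ top ρ) (hc : c ≤ front ρ) (hle : top ρ ≤ F.1 + 1) :
    (F.2 : ℝ) + (c : ℝ) * ee S F.2 c (F.1 + 1 - l) ≤ vpot S (glue F ρ) := by
  have hc' : (c : ℝ) ≤ (front ρ : ℝ) := by exact_mod_cast hc
  by_cases hm : top ρ = F.1 + 1
  · have h1 := front_le_vpot S (glue F ρ)
    rw [glue_front, if_pos hm] at h1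
    push_cast at h1
    have h2 := ee_le_one S F.2 c (F.1 + 1 - l)
    have h3 : (0 : ℝ) ≤ (c : ℝ) := Nat.cast_nonneg _
    nlinarith [mul_nonneg h3 (sub_nonneg.2 h2)]
  · have hg : glue F ρ = F :: ρ := by
      cases ρ with
      | nil => rfl
      | cons G ρ => simp only [glue]; rw [if_neg]; exact hm
    rw [hg, vpot_cons]
    have h0 := ee_nonneg S F.2 c (F.1 + 1 - l)
    have h1 : ee S F.2 c (F.1 + 1 - l) ≤ ee S F.2 (front ρ) (F.1 + 1 - l) :=
      ee_sec_mono S F.2 c (front ρ) _ hF hc
    have h2 : ee S F.2 (front ρ) (F.1 + 1 - l) ≤ ee S F.2 (front ρ) (F.1 - top ρ + 1) :=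
      ee_gap_anti S F.2 (front ρ) _ _ hF (by omega)
    have h3 : (0 : ℝ) ≤ (c : ℝ) := Nat.cast_nonneg _
    have h4 := le_trans h1 h2
    have h5 : (c : ℝ) * ee S F.2 c (F.1 + 1 - l) ≤
        (front ρ : ℝ) * ee S F.2 (front ρ) (F.1 - top ρ + 1) :=
      mul_le_mul hc' h4 h0 (le_trans h3 hc')
    linarith

private theorem W_map_ge (f : St → ℝ) (g : St → St) (v : ℝ) (l : List (ℕ × St))
    (h : ∀ x ∈ l, v ≤ f (g x.2)) :
    (((l.map Prod.fst).sum : ℕ) : ℝ) * v ≤ W (l.map fun x => (x.1, g x.2)) f := by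
  induction l with
  | nil => simp [W_nil]
  | cons x l ih =>
    rw [List.map_cons, List.map_cons, List.sum_cons, W_cons]
    push_cast
    have h1 := ih fun y hy => h y (List.mem_cons_of_mem _ hy)
    push_cast at h1
    have h2 := mul_le_mul_of_nonneg_left (h x List.mem_cons_self)
      (Nat.cast_nonneg (α := ℝ) x.1)
    linarith

/-- The two body potential along the chain.  Write `a = front σ`, `c = sec σ`, `g = gap σ + 1`.
Choice of `F`: `a + 1 + c E(a+1,c,g+1)`.  Choice of the second packet (weight `c`): if `g ≥ 2` then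
`a + (c+1) E(a,c+1,g-1)`; if `g = 1` it is a merge, `front ≥ a + c + 1` and `E(a,c+1,0) = 1`.
The other successors (total weight `n + 1 - a - c`): `≥ a + c E(a,c,g)` by the monotonicity (or
`front ≥ a + c` for a merge).  Sum with `ee_le`.  If there is no second packet `c = 0` and the claim
follows from `W_succ_front`. -/
theorem W_succ_vpot (S n : ℕ) (σ : St) (h : Good n σ) (hσ : σ ≠ []) :
    ((n : ℝ) + 2) * vpot S σ ≤ W (succ σ) (vpot S) := by
  obtain ⟨hsum, hpos, hanti⟩ := h
  match σ, hσ with
  | [F], _ =>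
    have hF := hpos F (by simp)
    have hn : n = F.2 := by simpa using hsum.symm
    have hg : glue F [((1 : ℕ), (1 : ℕ))] = [F, (1, 1)] := by
      simp only [glue]; rw [if_neg]; omega
    have e1 : W (succ [F]) (vpot S) =
        (F.2 : ℝ) * vpot S [(F.1 + 1, F.2 + 1)] + ((1 : ℕ) : ℝ) * vpot S [F, (1, 1)] := by
      rw [← hg]
      simp only [succ, List.map_cons, List.map_nil, W_cons, W_nil, add_zero]
    have h1 := front_le_vpot S [(F.1 + 1, F.2 + 1)]
    have h2 := front_le_vpot S [F, (1, 1)]
    simp only [front] at h1 h2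
    have h3 : vpot S [F] = (F.2 : ℝ) := by
      rw [vpot_cons]; simp [front]
    rw [e1, h3, hn]
    push_cast at h1 ⊢
    have h4 : (0 : ℝ) ≤ (F.2 : ℝ) := Nat.cast_nonneg _
    nlinarith [mul_le_mul_of_nonneg_left h1 h4]
  | F :: G :: ρ, _ =>
    have hF := hpos F (by simp)
    have hG := hpos G (by simp)
    have hGF : G.1 ≤ F.1 := by
      have := List.rel_of_pairwise_cons hanti (a' := G) (by simp)
      exact this
    have hn : (n : ℝ) = (F.2 : ℝ) + G.2 + (((ρ.map Prod.snd).sum : ℕ) : ℝ) := by
      have : n = F.2 + (G.2 + (ρ.map Prod.snd).sum) := by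
        simpa using hsum.symm
      rw [this]; push_cast; ring
    -- the structure of the list of successors
    have e1 : succ (F :: G :: ρ) = (F.2, (F.1 + 1, F.2 + 1) :: G :: ρ) ::
        (G.2, glue F ((G.1 + 1, G.2 + 1) :: ρ)) ::
          (succ ρ).map fun x => (x.1, glue F (glue G x.2)) := by
      simp [succ, List.map_map, Function.comp_def]
    have htopρ : top ρ ≤ G.1 := by
      cases ρ with
      | nil => simp [top]
      | cons H ρ =>
        have h2 := (List.pairwise_cons.1 hanti).2
        exact List.rel_of_pairwise_cons h2 (a' := H) (by simp)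
    -- first term
    have t1 : vpot S ((F.1 + 1, F.2 + 1) :: G :: ρ) =
        (F.2 : ℝ) + 1 + (G.2 : ℝ) * ee S (F.2 + 1) G.2 (F.1 - G.1 + 2) := by
      rw [vpot_cons]
      simp only [front, top]
      rw [show F.1 + 1 - G.1 + 1 = F.1 - G.1 + 2 by omega]
      push_cast; ring
    -- second term
    have t2 : (F.2 : ℝ) + ((G.2 : ℝ) + 1) * ee S F.2 (G.2 + 1) (F.1 - G.1) ≤
        vpot S (glue F ((G.1 + 1, G.2 + 1) :: ρ)) := by
      have := glue_vpot S F ((G.1 + 1, G.2 + 1) :: ρ) (G.1 + 1) (G.2 + 1) (by omega)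
        (by simp [top]) (by simp [front]) (by simp only [top]; omega)
      rw [show F.1 + 1 - (G.1 + 1) = F.1 - G.1 by omega] at this
      push_cast at this
      exact this
    -- the other terms
    have t3 : ∀ x ∈ succ ρ, (F.2 : ℝ) + (G.2 : ℝ) * ee S F.2 G.2 (F.1 - G.1 + 1) ≤
        vpot S (glue F (glue G x.2)) := by
      intro x hx
      have hx' := succ_top ρ x hx
      have h1 : G.1 ≤ top (glue G x.2) := by
        rw [glue_top]; split_ifs <;> omega
      have h2 : G.2 ≤ front (glue G x.2) := by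
        rw [glue_front]; split_ifs <;> omega
      have h3 : top (glue G x.2) ≤ F.1 + 1 := by
        rw [glue_top]; split_ifs <;> omega
      have := glue_vpot S F (glue G x.2) G.1 G.2 (by omega) h1 h2 h3
      rwa [show F.1 + 1 - G.1 = F.1 - G.1 + 1 by omega] at this
    have t4 := W_map_ge (vpot S) (fun y => glue F (glue G y))
      ((F.2 : ℝ) + (G.2 : ℝ) * ee S F.2 G.2 (F.1 - G.1 + 1)) (succ ρ) t3
    rw [succ_weight] at t4
    have t5 := ee_le S F.2 G.2 (F.1 - G.1)
    rw [e1, W_cons, W_cons, t1]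
    have e0 : vpot S (F :: G :: ρ) = (F.2 : ℝ) + (G.2 : ℝ) * ee S F.2 G.2 (F.1 - G.1 + 1) := rfl
    rw [e0, hn]
    push_cast at t4 ⊢
    have hG0 : (0 : ℝ) ≤ (G.2 : ℝ) := Nat.cast_nonneg _
    have t6 := mul_le_mul_of_nonneg_left t5 hG0
    have t7 := mul_le_mul_of_nonneg_left t2 hG0
    nlinarith [t4, t6, t7]

end Pool.Agent.Lib.MP_ad84ff_co
end

section

/-!
The kernel computation `runK` is a lower bound for the two body potential.
-/

set_option autoImplicit false

namespace Pool.Agent.Lib.MP_ad84ff_co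

/-- Plain version of `rowK`. -/
def rowP (a : ℕ) : List ℕ → ℕ → List ℕ → List ℕ
  | [], _, _ => []
  | _ :: _, _, [] => []
  | u :: up, c, x :: left => ((a * u + (c + 1) * x) / (a + (c + 1))) :: rowP a up (c + 1) left

theorem rowK_eq {α : Type} (a : ℕ) (up : List ℕ) (c : ℕ) (left : List ℕ) (K : List ℕ → α) :
    rowK a up c left K = K (rowP a up c left) := by
  induction up generalizing c left K with
  | nil => rfl
  | cons u up ih =>
    cases left with
    | nil => rfl
    | cons x left =>
      change fN (Nat.div (Nat.add (Nat.mul a u) (Nat.mul (Nat.succ c) x)) (Nat.add a (Nat.succ c)))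
        (fun v => fN (Nat.succ c) fun c' => rowK a up c' left fun rest => K (v :: rest)) = _
      rw [fN_eq, fN_eq, ih]
      rfl

/-- Plain version of `tabK`. -/
def tabP (a : ℕ) : List (List ℕ) → List ℕ → List (List ℕ)
  | [], _ => []
  | up :: V, left => rowP a up 0 left.tail :: tabP a V (rowP a up 0 left.tail)

theorem tabK_eq {α : Type} (a : ℕ) (V : List (List ℕ)) (left : List ℕ) (K : List (List ℕ) → α) :
    tabK a V left K = K (tabP a V left) := by
  induction V generalizing left K with
  | nil => rfl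
  | cons up V ih =>
    change rowK a up 0 (left.tail) (fun row => tabK a V row fun rest => K (row :: rest)) = _
    rw [rowK_eq, ih]
    rfl

theorem nthN_eq (l : List ℕ) (n : ℕ) : nthN l n = l[n]?.getD 0 := by
  induction l generalizing n with
  | nil => rfl
  | cons x l ih =>
    cases n with
    | zero => rfl
    | succ n =>
      change nthN l n = _
      rw [ih, List.getElem?_cons_succ]

theorem nthL_eq (l : List (List ℕ)) (n : ℕ) : nthL l n = l[n]?.getD [] := by
  induction l generalizing n with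
  | nil => rfl
  | cons x l ih =>
    cases n with
    | zero => rfl
    | succ n =>
      change nthL l n = _
      rw [ih, List.getElem?_cons_succ]

/-- The entries of a row (offset `c`) are lower bounds for `10^9 * ee S a · g`. -/
def RowOK (S a g c : ℕ) (row : List ℕ) : Prop :=
  ∀ i v : ℕ, row[i]? = some v → (v : ℝ) ≤ 1000000000 * ee S a (c + i) g

/-- All rows are OK; the first one has gap `g`. -/
def TabOK (S a g : ℕ) (V : List (List ℕ)) : Prop :=
  ∀ (i : ℕ) (row : List ℕ), V[i]? = some row → RowOK S a (g + i) 0 row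

/-- Induction on `up` generalizing `c`, `left`: floor division is at most the quotient, and
`ee_rec`. -/
theorem rowP_ok (S a g : ℕ) (ha : a < S) (up : List ℕ) (c : ℕ) (left : List ℕ)
    (h1 : RowOK S (a + 1) (g + 2) c up) (h2 : RowOK S a g (c + 1) left) :
    RowOK S a (g + 1) c (rowP a up c left) := by
  induction up generalizing c left with
  | nil =>
    intro i v hi
    simp [rowP] at hi
  | cons u up ih =>
    cases left with
    | nil =>
      intro i v hi
      simp [rowP] at hi
    | cons x left =>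
      intro i v hi
      cases i with
      | zero =>
        have hv : (a * u + (c + 1) * x) / (a + (c + 1)) = v := by
          have h3 : (rowP a (u :: up) c (x :: left))[0]? =
              some ((a * u + (c + 1) * x) / (a + (c + 1))) := rfl
          rw [h3] at hi
          exact Option.some.inj hi
        have hu : (u : ℝ) ≤ 1000000000 * ee S (a + 1) (c + 0) (g + 2) := h1 0 u rfl
        have hx : (x : ℝ) ≤ 1000000000 * ee S a (c + 1 + 0) g := h2 0 x rfl
        rw [add_zero] at hu hx
        rw [add_zero]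
        have hr := ee_rec S a c g ha
        have hpos : (0 : ℝ) < (a : ℝ) + c + 1 := by positivity
        have hdiv : (v : ℝ) * ((a : ℝ) + c + 1) ≤ (a : ℝ) * u + ((c : ℝ) + 1) * x := by
          have h4 : v * (a + (c + 1)) ≤ a * u + (c + 1) * x := by
            rw [← hv]
            exact Nat.div_mul_le_self _ _
          have h5 : ((v * (a + (c + 1)) : ℕ) : ℝ) ≤ ((a * u + (c + 1) * x : ℕ) : ℝ) := by
            exact_mod_cast h4
          push_cast at h5
          linarith
        have ha0 : (0 : ℝ) ≤ (a : ℝ) := Nat.cast_nonneg _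
        have hc0 : (0 : ℝ) ≤ (c : ℝ) + 1 := by positivity
        have h6 := mul_le_mul_of_nonneg_left hu ha0
        have h7 := mul_le_mul_of_nonneg_left hx hc0
        have h8 : (v : ℝ) * ((a : ℝ) + c + 1) ≤
            (1000000000 * ee S a c (g + 1)) * ((a : ℝ) + c + 1) := by
          nlinarith
        exact le_of_mul_le_mul_right h8 hpos
      | succ i =>
        have h3 : (rowP a (u :: up) c (x :: left))[i + 1]? = (rowP a up (c + 1) left)[i]? := rfl
        rw [h3] at hi
        have h1' : RowOK S (a + 1) (g + 2) (c + 1) up := by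
          intro j w hj
          have := h1 (j + 1) w hj
          rwa [show c + (j + 1) = c + 1 + j by omega] at this
        have h2' : RowOK S a g (c + 1 + 1) left := by
          intro j w hj
          have := h2 (j + 1) w hj
          rwa [show c + 1 + (j + 1) = c + 1 + 1 + j by omega] at this
        have := ih (c + 1) left h1' h2' i v hi
        rwa [show c + 1 + i = c + (i + 1) by omega] at this

/-- Induction on `V` generalizing `g`, `left`. -/
theorem tabP_ok (S a g : ℕ) (ha : a < S) (V : List (List ℕ)) (left : List ℕ)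
    (h1 : TabOK S (a + 1) (g + 2) V) (h2 : RowOK S a g 0 left) :
    TabOK S a (g + 1) (tabP a V left) := by
  induction V generalizing g left with
  | nil =>
    intro i row hi
    simp [tabP] at hi
  | cons up V ih =>
    have hrow : RowOK S a (g + 1) 0 (rowP a up 0 left.tail) := by
      apply rowP_ok S a g ha
      · exact h1 0 up rfl
      · intro i v hi
        rw [List.getElem?_tail] at hi
        have := h2 (i + 1) v hi
        rwa [show 0 + (i + 1) = 0 + 1 + i by omega] at this
    intro i row hi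
    cases i with
    | zero =>
      have h3 : (tabP a (up :: V) left)[0]? = some (rowP a up 0 left.tail) := rfl
      rw [h3] at hi
      have h4 := Option.some.inj hi
      rw [← h4]
      exact hrow
    | succ i =>
      have h3 : (tabP a (up :: V) left)[i + 1]? = (tabP a V (rowP a up 0 left.tail))[i]? := rfl
      rw [h3] at hi
      have h1' : TabOK S (a + 1) (g + 1 + 2) V := by
        intro j r hj
        have := h1 (j + 1) r hj
        rwa [show g + 2 + (j + 1) = g + 1 + 2 + j by omega] at this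
      have := ih (g + 1) (rowP a up 0 left.tail) h1' hrow i row hi
      rwa [show g + 1 + 1 + i = g + 1 + (i + 1) by omega] at this

/-- Induction on `t` generalizing `acc`. -/
theorem contr_le (S a : ℕ) (V : List (List ℕ)) (hV : TabOK S a 0 V) (t : List (ℕ × St)) (acc : ℕ) :
    (contr a V t acc : ℝ) ≤ acc + 1000000000 *
      W t (onPr fun a' c g => if a' = a then (a' : ℝ) + c * ee S a' c (g + 1) else 0) := by
  induction t generalizing acc with
  | nil =>
    rw [W_nil]
    change (acc : ℝ) ≤ _
    linarith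
  | cons x t ih =>
    rw [W_cons]
    obtain ⟨m, s⟩ := x
    have hm : (0 : ℝ) ≤ (m : ℝ) := Nat.cast_nonneg _
    cases s with
    | nil =>
      change (contr a V t acc : ℝ) ≤ _
      have := ih acc
      simp only [onPr] at this ⊢
      linarith
    | cons F τ =>
      have hbr : (contr a V ((m, F :: τ) :: t) acc) = bif Nat.beq F.1 a then
          (List.rec (contr a V t acc) (fun G _ _ =>
            fN (Nat.add acc (Nat.mul m (Nat.add (Nat.mul a 1000000000)
              (Nat.mul F.2 (nthN (nthL V (Nat.succ G.1)) F.2))))) fun acc' =>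
                contr a V t acc') τ : ℕ) else contr a V t acc := rfl
      cases hb : Nat.beq F.1 a with
      | false =>
        have hne : F.1 ≠ a := Nat.ne_of_beq_eq_false hb
        rw [hbr, hb, cond_false]
        have := ih acc
        have h0 : onPr (fun a' c g => if a' = a then (a' : ℝ) + c * ee S a' c (g + 1) else 0)
            (F :: τ) = 0 := by
          simp only [onPr, if_neg hne]
        rw [h0]
        linarith
      | true =>
        have heq : F.1 = a := Nat.eq_of_beq_eq_true hb
        rw [hbr, hb, cond_true]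
        have h0 : onPr (fun a' c g => if a' = a then (a' : ℝ) + c * ee S a' c (g + 1) else 0)
            (F :: τ) = (a : ℝ) + F.2 * ee S a F.2 (top τ + 1) := by
          simp only [onPr, heq, if_true]
        rw [h0]
        have hF : (0 : ℝ) ≤ (F.2 : ℝ) := Nat.cast_nonneg _
        have ha0 : (0 : ℝ) ≤ (a : ℝ) := Nat.cast_nonneg _
        cases τ with
        | nil =>
          change (contr a V t acc : ℝ) ≤ _
          have h1 := ih acc
          have h2 := ee_nonneg S a F.2 (top [] + 1)
          have h3 : 0 ≤ (m : ℝ) * ((a : ℝ) + F.2 * ee S a F.2 (top [] + 1)) := by positivity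
          linarith
        | cons G ρ =>
          change ((fN (Nat.add acc (Nat.mul m (Nat.add (Nat.mul a 1000000000)
              (Nat.mul F.2 (nthN (nthL V (Nat.succ G.1)) F.2))))) fun acc' =>
                contr a V t acc' : ℕ) : ℝ) ≤ _
          rw [fN_eq]
          have h1 := ih (Nat.add acc (Nat.mul m (Nat.add (Nat.mul a 1000000000)
              (Nat.mul F.2 (nthN (nthL V (Nat.succ G.1)) F.2)))))
          have h2 : (nthN (nthL V (Nat.succ G.1)) F.2 : ℝ) ≤
              1000000000 * ee S a F.2 (G.1 + 1) := by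
            have hnn : (0 : ℝ) ≤ 1000000000 * ee S a F.2 (G.1 + 1) :=
              mul_nonneg (by norm_num) (ee_nonneg _ _ _ _)
            rw [nthN_eq, nthL_eq]
            cases hrow : V[Nat.succ G.1]? with
            | none => simpa using hnn
            | some row =>
              rw [Option.getD_some]
              cases hv : row[F.2]? with
              | none => simpa using hnn
              | some v =>
                rw [Option.getD_some]
                have := hV _ row hrow F.2 v hv
                rwa [zero_add, zero_add] at this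
          have h3 : ((Nat.add acc (Nat.mul m (Nat.add (Nat.mul a 1000000000)
              (Nat.mul F.2 (nthN (nthL V (Nat.succ G.1)) F.2)))) : ℕ) : ℝ) =
              acc + m * (a * 1000000000 + F.2 * (nthN (nthL V (Nat.succ G.1)) F.2 : ℝ)) := by
            have h4 : Nat.add acc (Nat.mul m (Nat.add (Nat.mul a 1000000000)
              (Nat.mul F.2 (nthN (nthL V (Nat.succ G.1)) F.2)))) =
              acc + m * (a * 1000000000 + F.2 * (nthN (nthL V (Nat.succ G.1)) F.2)) := rfl
            rw [h4]
            push_cast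
            ring
          rw [h3] at h1
          have h5 : top (G :: ρ) = G.1 := rfl
          rw [h5]
          have h6 := mul_le_mul_of_nonneg_left h2 hF
          have h7 : (m : ℝ) * (a * 1000000000 +
              F.2 * (nthN (nthL V (Nat.succ G.1)) F.2 : ℝ)) ≤
              m * (1000000000 * (a + F.2 * ee S a F.2 (G.1 + 1))) := by
            apply mul_le_mul_of_nonneg_left _ hm
            linarith
          linarith

/-- Induction on `a` generalizing `U`, `acc`; the contribution of level `a + 1` and the one of the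
levels `≤ a` add up to the one of the levels `≤ a + 1`. -/
theorem runK_le (S z a : ℕ) (ha : a < S) (U : List (List ℕ)) (hU : TabOK S (a + 1) 0 U) (acc : ℕ) :
    (runK z a U acc : ℝ) ≤ acc + 1000000000 *
      W tbl (onPr fun a' c g => if a' ≤ a then (a' : ℝ) + c * ee S a' c (g + 1) else 0) := by
  have hnn : ∀ (P : ℕ → Prop) [DecidablePred P] (σ : St),
      0 ≤ onPr (fun a' c g => if P a' then (a' : ℝ) + c * ee S a' c (g + 1) else 0) σ := by
    intro P _ σ
    cases σ with
    | nil => exact le_refl _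
    | cons F τ =>
      simp only [onPr]
      split_ifs
      · have := ee_nonneg S F.1 F.2 (top τ + 1)
        positivity
      · exact le_refl _
  induction a generalizing U acc with
  | zero =>
    change (acc : ℝ) ≤ _
    have h1 := W_mono tbl (fun _ => 0)
      (onPr fun a' c g => if a' ≤ 0 then (a' : ℝ) + c * ee S a' c (g + 1) else 0)
      (fun x _ => hnn (fun a' => a' ≤ 0) x.2)
    have h2 : W tbl (fun _ => (0 : ℝ)) = 0 := by
      have := W_mul tbl 0 (fun _ => (0 : ℝ))
      simpa using this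
    rw [h2] at h1
    linarith
  | succ a ih =>
    obtain ⟨R0, hR0⟩ : ∃ R0 : List ℕ, R0 = List.replicate (Nat.add z a) 1000000000 := ⟨_, rfl⟩
    have hrun : runK z (a + 1) U acc = tabK (Nat.succ a) U.tail.tail R0 fun V =>
        bif Nat.ble a 14 then
          fN (contr (Nat.succ a) (R0 :: V) tbl acc) fun acc' => runK z a (R0 :: V) acc'
        else runK z a (R0 :: V) acc := by
      rw [hR0]
      rfl
    rw [hrun, tabK_eq]
    obtain ⟨V, hV⟩ : ∃ V : List (List ℕ), V = tabP (Nat.succ a) U.tail.tail R0 := ⟨_, rfl⟩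
    rw [← hV]
    have hrow0 : RowOK S (a + 1) 0 0 R0 := by
      intro i v hi
      rw [hR0] at hi
      have h3 : v = 1000000000 := by
        rw [List.getElem?_replicate] at hi
        split_ifs at hi
        exact (Option.some.inj hi).symm
      rw [h3, ee_zero]
      norm_num
    have htab : TabOK S (a + 1) 0 (R0 :: V) := by
      have h4 : TabOK S (a + 1) (0 + 1) V := by
        rw [hV]
        apply tabP_ok S (a + 1) 0 ha
        · intro i row hi
          rw [List.getElem?_tail, List.getElem?_tail] at hi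
          have := hU (i + 1 + 1) row hi
          rwa [show 0 + (i + 1 + 1) = 0 + 2 + i by omega] at this
        · exact hrow0
      intro i row hi
      cases i with
      | zero =>
        have h5 : some R0 = some row := hi
        rw [← Option.some.inj h5]
        exact hrow0
      | succ i =>
        have h5 : V[i]? = some row := hi
        have := h4 i row h5
        rwa [show 0 + 1 + i = 0 + (i + 1) by omega] at this
    cases hb : Nat.ble a 14 with
    | false =>
      rw [cond_false]
      have h6 := ih (by omega) (R0 :: V) htab acc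
      have h7 := W_mono tbl
        (onPr fun a' c g => if a' ≤ a then (a' : ℝ) + c * ee S a' c (g + 1) else 0)
        (onPr fun a' c g => if a' ≤ a + 1 then (a' : ℝ) + c * ee S a' c (g + 1) else 0)
        (fun x _ => by
          cases hx : x.2 with
          | nil => exact le_refl _
          | cons F τ =>
            simp only [onPr]
            by_cases h8 : F.1 ≤ a
            · rw [if_pos h8, if_pos (by omega)]
            · rw [if_neg h8]
              exact hnn (fun a' => a' ≤ a + 1) (F :: τ))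
      linarith
    | true =>
      rw [cond_true, fN_eq]
      have h6 := ih (by omega) (R0 :: V) htab (contr (Nat.succ a) (R0 :: V) tbl acc)
      have h7 := contr_le S (a + 1) (R0 :: V) htab tbl acc
      have h8 := W_add tbl
        (onPr fun a' c g => if a' ≤ a then (a' : ℝ) + c * ee S a' c (g + 1) else 0)
        (onPr fun a' c g => if a' = a + 1 then (a' : ℝ) + c * ee S a' c (g + 1) else 0)
      have h9 := W_mono tbl
        (fun σ => onPr (fun a' c g => if a' ≤ a then (a' : ℝ) + c * ee S a' c (g + 1) else 0) σ +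
          onPr (fun a' c g => if a' = a + 1 then (a' : ℝ) + c * ee S a' c (g + 1) else 0) σ)
        (onPr fun a' c g => if a' ≤ a + 1 then (a' : ℝ) + c * ee S a' c (g + 1) else 0)
        (fun x _ => by
          cases hx : x.2 with
          | nil =>
            simp only [onPr]
            norm_num
          | cons F τ =>
            simp only [onPr]
            by_cases h10 : F.1 ≤ a
            · rw [if_pos h10, if_neg (by omega), if_pos (by omega), add_zero]
            · by_cases h11 : F.1 = a + 1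
              · rw [if_neg h10, if_pos h11, if_pos (by omega), zero_add]
              · rw [if_neg h10, if_neg h11, if_neg (by omega), add_zero])
      rw [h8] at h9
      change ((contr (a + 1) (R0 :: V) tbl acc : ℕ) : ℝ) ≤ _ at h7
      change ((runK z a (R0 :: V) (contr (a + 1) (R0 :: V) tbl acc) : ℕ) : ℝ) ≤ _
      change ((runK z a (R0 :: V) (contr (a + 1) (R0 :: V) tbl acc) : ℕ) : ℝ) ≤ _ at h6
      linarith

theorem startK_ok (S z n : ℕ) : TabOK S S 0 (startK z n) := by
  intro i row hi
  cases i with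
  | zero =>
    have h1 : some (List.replicate z 1000000000) = some row := hi
    rw [← Option.some.inj h1]
    intro j v hj
    rw [List.getElem?_replicate] at hj
    split_ifs at hj
    rw [← Option.some.inj hj, add_zero, ee_zero]
    norm_num
  | succ i =>
    have h1 : (List.replicate n (List.replicate z 0))[i]? = some row := hi
    rw [List.getElem?_replicate] at h1
    split_ifs at h1
    rw [← Option.some.inj h1]
    intro j v hj
    rw [List.getElem?_replicate] at hj
    split_ifs at hj
    rw [← Option.some.inj hj]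
    have := ee_nonneg S S (0 + j) (0 + (i + 1))
    push_cast
    linarith

private theorem kernel_low_le : 16332824976670561961763 ≤ runK 17 99 (startK 117 103) 0 := by
  have h := kernel_low
  revert h
  generalize runK 17 99 (startK 117 103) 0 = x
  intro h
  exact Nat.le_of_ble_eq_true h

/-- `kernel_low`, `runK_le` with `S = 100`, `a = 99`, then `M_tbl`. -/
theorem low_bound : (0.7806 : ℝ) ≤ M 15 (vpot 100) / (((15 : ℕ) : ℝ) + 1) := by
  have h1 : M 15 (vpot 100) = W tbl (onPr fun a' c g => (a' : ℝ) + c * ee 100 a' c (g + 1)) /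
      ((Nat.factorial 15 : ℕ) : ℝ) :=
    M_tbl (fun a' c g => (a' : ℝ) + c * ee 100 a' c (g + 1))
  have h2 := runK_le 100 17 99 (by norm_num) (startK 117 103) (startK_ok 100 117 103) 0
  have h3 := W_mono tbl
    (onPr fun a' c g => if a' ≤ 99 then (a' : ℝ) + c * ee 100 a' c (g + 1) else 0)
    (onPr fun a' c g => (a' : ℝ) + c * ee 100 a' c (g + 1))
    (fun x _ => by
      cases hx : x.2 with
      | nil => exact le_refl _
      | cons F τ =>
        simp only [onPr]
        split_ifs
        · exact le_refl _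
        · have := ee_nonneg 100 F.1 F.2 (top τ + 1)
          positivity)
  have h4 : 16332824976670561961763 ≤ runK 17 99 (startK 117 103) 0 := kernel_low_le
  revert h2 h4
  generalize runK 17 99 (startK 117 103) 0 = y
  intro h2 h4
  have h5 : (16332824976670561961763 : ℝ) ≤ (y : ℝ) := by
    exact_mod_cast h4
  have h6 : ((Nat.factorial 15 : ℕ) : ℝ) = 1307674368000 := by
    norm_num [Nat.factorial]
  rw [h1, h6]
  rw [Nat.cast_zero, zero_add] at h2
  obtain ⟨w, hw⟩ : ∃ w : ℝ, w = W tbl (onPr fun a' c g => (a' : ℝ) + c * ee 100 a' c (g + 1)) :=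
    ⟨_, rfl⟩
  rw [← hw] at h3 ⊢
  have h7 : (16332824976670561961763 : ℝ) ≤ 1000000000 * w := by linarith
  have h8 : (0.7806 : ℝ) * (1307674368000 * 16) ≤ w := by linarith
  rw [div_div, le_div_iff₀ (by norm_num)]
  norm_num at h8 ⊢
  linarith

end Pool.Agent.Lib.MP_ad84ff_co
end

section

set_option autoImplicit false

namespace Pool.Agent.Lib.MP_ad84ff_co

private theorem good_ne_nil {n : ℕ} (hn : 1 ≤ n) {σ : St} (h : Good n σ) : σ ≠ [] := by
  rintro rfl
  have := h.sum
  simp at this
  omega

private theorem sec_le {n : ℕ} {σ : St} (h : Good n σ) : sec σ ≤ n := by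
  have h1 := h.sum
  rcases σ with _ | ⟨F, _ | ⟨G, ρ⟩⟩
  · simp [sec]
  · simp [sec, front]
  · simp only [List.map_cons, List.sum_cons] at h1
    simp only [sec, front]
    omega

/-- `M_n(v) / (n+1)` is nondecreasing. -/
theorem M_vpot_mono (S n m : ℕ) (hn : 1 ≤ n) (h : n ≤ m) :
    M n (vpot S) / ((n : ℝ) + 1) ≤ M m (vpot S) / ((m : ℝ) + 1) := by
  induction m, h using Nat.le_induction with
  | base => exact le_rfl
  | succ m hm ih =>
    refine ih.trans ?_
    have hm1 : 1 ≤ m := le_trans hn hm
    have h0 : (0 : ℝ) < (m : ℝ) + 1 := by positivity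
    have h2 : (0 : ℝ) < (m : ℝ) + 2 := by positivity
    have h1 : M m (fun σ => (((m : ℝ) + 2) / ((m : ℝ) + 1)) * vpot S σ) ≤ M (m + 1) (vpot S) := by
      rw [M_succ]
      refine M_mono m _ _ fun σ hσ => ?_
      rw [div_mul_eq_mul_div]
      exact div_le_div_of_nonneg_right (W_succ_vpot S m σ hσ (good_ne_nil hm1 hσ)) h0.le
    rw [M_mul] at h1
    push_cast
    rw [div_le_div_iff₀ h0 (by positivity)]
    rw [div_mul_eq_mul_div, div_le_iff₀ h0] at h1
    calc M m (vpot S) * ((m : ℝ) + 1 + 1) = ((m : ℝ) + 2) * M m (vpot S) := by ring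
      _ ≤ M (m + 1) (vpot S) * ((m : ℝ) + 1) := h1

/-- `v ≤ s₁ + n * (S + 1) / (s₁ + 1)`: the second term of `v` is `0` if `s₁ ≥ S`. -/
theorem M_vpot_le (S n : ℕ) (hn : 1 ≤ n) :
    M n (vpot S) / ((n : ℝ) + 1) ≤ sig n + ((S : ℝ) + 1) * M n (fun σ => 1 / ((front σ : ℝ) + 1)) := by
  have h0 : (0 : ℝ) < (n : ℝ) + 1 := by positivity
  have h1 : M n (vpot S) ≤ M n (fun σ => (front σ : ℝ) +
      ((n : ℝ) * ((S : ℝ) + 1)) * (1 / ((front σ : ℝ) + 1))) := by
    refine M_mono n _ _ fun σ hσ => ?_
    unfold vpot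
    have hsec : (sec σ : ℝ) ≤ n := by exact_mod_cast sec_le hσ
    have hf : (0 : ℝ) < (front σ : ℝ) + 1 := by positivity
    refine add_le_add le_rfl ?_
    by_cases hS : S ≤ front σ
    · rw [ee_top S _ _ _ (by omega) hS, mul_zero]
      positivity
    · have h2 : (1 : ℝ) ≤ ((S : ℝ) + 1) * (1 / ((front σ : ℝ) + 1)) := by
        rw [mul_one_div, le_div_iff₀ hf, one_mul]
        have h3 : front σ ≤ S := by omega
        have h4 : (front σ : ℝ) ≤ S := by exact_mod_cast h3
        linarith
      calc (sec σ : ℝ) * ee S (front σ) (sec σ) (gap σ + 1) ≤ (n : ℝ) * 1 :=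
            mul_le_mul hsec (ee_le_one _ _ _ _) (ee_nonneg _ _ _ _) (by positivity)
        _ ≤ (n : ℝ) * (((S : ℝ) + 1) * (1 / ((front σ : ℝ) + 1))) :=
            mul_le_mul_of_nonneg_left h2 (by positivity)
        _ = ((n : ℝ) * ((S : ℝ) + 1)) * (1 / ((front σ : ℝ) + 1)) := by ring
  rw [M_add, M_mul] at h1
  have hM : 0 ≤ M n (fun σ => 1 / ((front σ : ℝ) + 1)) :=
    M_nonneg n _ fun σ _ => by positivity
  unfold sig
  rw [div_add' _ _ _ h0.ne']
  refine div_le_div_of_nonneg_right (h1.trans ?_) h0.le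
  have h5 : (n : ℝ) * ((S : ℝ) + 1) * M n (fun σ => 1 / ((front σ : ℝ) + 1)) ≤
      ((S : ℝ) + 1) * M n (fun σ => 1 / ((front σ : ℝ) + 1)) * ((n : ℝ) + 1) := by
    have h6 : 0 ≤ ((S : ℝ) + 1) * M n (fun σ => 1 / ((front σ : ℝ) + 1)) := by positivity
    nlinarith
  linarith

/-- Hence every `M_n(v)/(n+1)` is a lower bound for the limit of `σ`. -/
theorem vpot_le_lim (S n : ℕ) (hn : 1 ≤ n) (L : ℝ)
    (hL : Filter.Tendsto sig Filter.atTop (nhds L)) : M n (vpot S) / ((n : ℝ) + 1) ≤ L := by
  have h1 : Filter.Tendsto (fun m => sig m +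
      ((S : ℝ) + 1) * M m (fun σ => 1 / ((front σ : ℝ) + 1))) Filter.atTop (nhds L) := by
    have h2 := hL.add (M_inv_tendsto.const_mul ((S : ℝ) + 1))
    simpa using h2
  refine ge_of_tendsto h1 ?_
  filter_upwards [Filter.eventually_ge_atTop n] with m hm
  exact (M_vpot_mono S n m hn hm).trans (M_vpot_le S m (le_trans hn hm))

end Pool.Agent.Lib.MP_ad84ff_co
end

section

set_option autoImplicit false

namespace Pool.Agent.Lib.MP_ad84ff_co

private theorem pot_nonneg' (σ : St) : 0 ≤ pot σ := by
  unfold pot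
  split_ifs
  · positivity
  · exact le_refl _

/-- All cases together (`pot_one`, `pot_zero`, `pot_flat`, `pot_gap`). -/
theorem pot_ineq (n : ℕ) (σ : St) (h : Good n σ) (hσ : σ ≠ []) :
    heavy σ + W (succ σ) pot ≤ ((n : ℝ) + 1) * pot σ + (1 / 4) * tie σ := by
  match σ, h, hσ with
  | [], _, hσ => exact absurd rfl hσ
  | [F], h, _ =>
    obtain ⟨D, a⟩ := F
    have hs : a = n := by simpa using h.sum
    have hp := h.pos (D, a) (by simp)
    have := pot_one D a hp.1 hp.2
    rw [← hs]
    exact this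
  | F :: G :: ρ, h, hσ =>
    have hGF : G.1 ≤ F.1 := (List.pairwise_cons.1 h.anti).1 G (by simp)
    rcases Nat.lt_or_ge (front (F :: G :: ρ))
      (2 * (sec (F :: G :: ρ) + gap (F :: G :: ρ))) with h0 | h0
    · have h1 := pot_zero n _ h hσ h0
      have h2 : 0 ≤ pot (F :: G :: ρ) := pot_nonneg' _
      have h3 : (0 : ℝ) ≤ ((n : ℝ) + 1) * pot (F :: G :: ρ) := by positivity
      linarith
    · have h0' : 2 * (G.2 + (F.1 - G.1)) ≤ F.2 := h0
      rcases Nat.lt_or_ge G.1 F.1 with hlt | hge
      · exact pot_gap n F G ρ h hlt h0'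
      · have he : G.1 = F.1 := le_antisymm hGF hge
        refine pot_flat n F G ρ h he ?_
        omega

private theorem pot_step (n : ℕ) (hn : 1 ≤ n) :
    M n heavy / ((n : ℝ) + 1) + M (n + 1) pot ≤ M n pot + (1 / 4) * eps n := by
  have hpos : (0 : ℝ) < (n : ℝ) + 1 := by positivity
  have h1 : M n (fun σ => (1 / ((n : ℝ) + 1)) * heavy σ + W (succ σ) pot / ((n : ℝ) + 1)) ≤
      M n (fun σ => pot σ + (1 / 4 * (1 / ((n : ℝ) + 1))) * tie σ) := by
    refine M_mono n _ _ fun σ hσ => ?_
    have hne : σ ≠ [] := by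
      rintro rfl
      have := hσ.sum
      simp at this
      omega
    have h2 := pot_ineq n σ hσ hne
    have h3 : (heavy σ + W (succ σ) pot) / ((n : ℝ) + 1) ≤
        (((n : ℝ) + 1) * pot σ + (1 / 4) * tie σ) / ((n : ℝ) + 1) :=
      div_le_div_of_nonneg_right h2 hpos.le
    have h4 : (((n : ℝ) + 1) * pot σ + (1 / 4) * tie σ) / ((n : ℝ) + 1) =
        pot σ + (1 / 4 * (1 / ((n : ℝ) + 1))) * tie σ := by
      field_simp
    have h5 : (heavy σ + W (succ σ) pot) / ((n : ℝ) + 1) =
        (1 / ((n : ℝ) + 1)) * heavy σ + W (succ σ) pot / ((n : ℝ) + 1) := by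
      field_simp
    rw [h4, h5] at h3
    exact h3
  rw [M_add, M_add, M_mul, M_mul] at h1
  have h6 : M (n + 1) pot = M n (fun σ => W (succ σ) pot / ((n : ℝ) + 1)) := M_succ n pot
  rw [h6]
  have h7 : eps n = M n tie / ((n : ℝ) + 1) := rfl
  rw [h7]
  have h8 : (1 / ((n : ℝ) + 1)) * M n heavy = M n heavy / ((n : ℝ) + 1) := by ring
  have h9 : (1 / 4 * (1 / ((n : ℝ) + 1))) * M n tie = (1 / 4) * (M n tie / ((n : ℝ) + 1)) := by ring
  linarith

/-- Sum of `pot_ineq` over `n`; `pot ≥ 0` and `M 1 pot = 0`. -/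
theorem heavy_sum (N : ℕ) :
    ∑ n ∈ Finset.Icc 1 N, M n heavy / ((n : ℝ) + 1) ≤ (1 / 4) * ∑ n ∈ Finset.Icc 1 N, eps n := by
  have key : ∀ N : ℕ, ∑ n ∈ Finset.Icc 1 N, M n heavy / ((n : ℝ) + 1) ≤
      (1 / 4) * ∑ n ∈ Finset.Icc 1 N, eps n - M (N + 1) pot := by
    intro N
    induction N with
    | zero =>
      simp only [Nat.zero_add]
      have h1 : M 1 pot = 0 := by
        rw [M_succ, M_zero]
        simp [succ, W, pot, sec, gap, top, front]
      rw [h1]
      simp
    | succ N ih =>
      rw [Finset.sum_Icc_succ_top (by omega), Finset.sum_Icc_succ_top (by omega)]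
      have hstep := pot_step (N + 1) (by omega)
      have : (1 / 4 : ℝ) * (∑ n ∈ Finset.Icc 1 N, eps n + eps (N + 1)) =
        (1 / 4) * ∑ n ∈ Finset.Icc 1 N, eps n + (1 / 4) * eps (N + 1) := by ring
      rw [this]
      linarith
  have h1 := key N
  have h2 : 0 ≤ M (N + 1) pot := M_nonneg _ _ fun σ _ => pot_nonneg' σ
  linarith

end Pool.Agent.Lib.MP_ad84ff_co
end

section

set_option autoImplicit false

namespace Pool.Agent.Lib.MP_ad84ff_co

/-- The potential `w` along the chain.  Choice of `F`: size and gap increase by one.  A successor of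
the tail which is no merge: the first packet is unchanged, `b` increases by one and the gap decreases
by at most one (`succ_cases`; if there is no second packet then the gap goes from `D` to `D - 1`).
Merge: `w ≥ 0`, and a merge is possible only if the gap is `0`, where `w(a, b+1, 0) = 0`. -/
theorem W_succ_wpot (n : ℕ) (σ : St) (h : Good n σ) (hσ : σ ≠ []) :
    ((n : ℝ) + 1) * wpot (front σ) (n + 1 - front σ) (gap σ + 1) ≤
      W (succ σ) (fun σ => wpot (front σ) (n + 2 - front σ) (gap σ + 1)) := by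
  obtain ⟨F, τ, rfl⟩ := List.exists_cons_of_ne_nil hσ
  have hsum : F.2 + (τ.map Prod.snd).sum = n := by simpa using h.sum
  have hF := h.pos F (by simp)
  have hanti := List.pairwise_cons.1 h.anti
  have hgood : Good (n - F.2) τ :=
    ⟨by omega, fun G hG => h.pos G (by simp [hG]), hanti.2⟩
  have htop : top τ ≤ F.1 := by
    cases τ with
    | nil => simp [top]
    | cons G ρ => exact hanti.1 G (by simp)
  set f : St → ℝ := fun σ => wpot (front σ) (n + 2 - front σ) (gap σ + 1) with hf
  have hsucc : succ (F :: τ) = (F.2, (F.1 + 1, F.2 + 1) :: τ) ::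
      (succ τ).map fun x => (x.1, glue F x.2) := by simp [succ]
  have hfront : front (F :: τ) = F.2 := rfl
  have hgap : gap (F :: τ) = F.1 - top τ := rfl
  have hWmap : W ((succ τ).map fun x => (x.1, glue F x.2)) f = W (succ τ) (fun σ => f (glue F σ)) := by
    simp [W, List.map_map, Function.comp_def]
  rw [hsucc, W_cons, hWmap]
  have hlow : W (succ τ) (fun _ => wpot F.2 (n + 2 - F.2) (F.1 - top τ)) ≤
      W (succ τ) (fun σ => f (glue F σ)) := by
    apply W_mono
    intro x hx
    have ht := succ_top τ x hx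
    have hg := succ_good _ τ hgood x hx
    have hfx : front x.2 ≤ (n - F.2) + 1 := by
      have h1 := hg.sum
      cases hx2 : x.2 with
      | nil => simp [front]
      | cons G ρ =>
        rw [hx2] at h1
        simp only [List.map_cons, List.sum_cons] at h1
        show G.2 ≤ _
        omega
    by_cases hm : top x.2 = F.1 + 1
    · have h0 : F.1 - top τ = 0 := by omega
      rw [h0, wpot_zero]
      simp only [hf]
      rw [glue_front, if_pos hm]
      apply wpot_nonneg
      · omega
      · omega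
    · simp only [hf]
      rw [glue_front, if_neg hm]
      have hgl : gap (glue F x.2) = F.1 - top x.2 := by
        cases hx2 : x.2 with
        | nil => simp [glue, gap, top]
        | cons G ρ =>
          rw [hx2] at hm
          simp only [top] at hm
          simp only [glue, if_neg hm, gap]
      rw [hgl]
      apply wpot_mono
      · omega
      · omega
      · omega
  rw [W_const (n - F.2) τ hgood] at hlow
  have hharm := wpot_harm F.2 (n + 1 - F.2) (F.1 - top τ + 1) (by omega) (by omega) (by omega)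
  have hcast : (((n + 1 - F.2 : ℕ)) : ℝ) = (n : ℝ) + 1 - F.2 := by
    rw [Nat.cast_sub (by omega)]; push_cast; ring
  have hcast2 : (((n - F.2 : ℕ)) : ℝ) = (n : ℝ) - F.2 := by
    rw [Nat.cast_sub (by omega)]
  have hf1 : f ((F.1 + 1, F.2 + 1) :: τ) = wpot (F.2 + 1) (n + 1 - F.2) (F.1 - top τ + 1 + 1) := by
    simp only [hf, front, gap]
    congr 1
    · omega
    · omega
  rw [hfront, hgap, hf1]
  have e1 : n + 1 - F.2 + 1 = n + 2 - F.2 := by omega
  have e2 : F.1 - top τ + 1 - 1 = F.1 - top τ := by omega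
  rw [e1, e2, hcast] at hharm
  rw [hcast2] at hlow
  have e3 : (F.2 : ℝ) + ((n : ℝ) + 1 - F.2) = (n : ℝ) + 1 := by ring
  rw [e3] at hharm
  have e4 : ((n : ℝ) - F.2 + 1) = (n : ℝ) + 1 - F.2 := by ring
  rw [e4] at hlow
  linarith

end Pool.Agent.Lib.MP_ad84ff_co
end

section

set_option autoImplicit false

namespace Pool.Agent.Lib.MP_ad84ff_co

/-- The potential of the upper bound as a function on states. -/
noncomputable def wst (n : ℕ) (σ : St) : ℝ := wpot (front σ) (n + 1 - front σ) (gap σ + 1)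

private theorem ne_nil_of_good (n : ℕ) (hn : 1 ≤ n) (σ : St) (h : Good n σ) : σ ≠ [] := by
  rintro rfl
  have := h.sum
  simp at this
  omega

private theorem front_bds (n : ℕ) (hn : 1 ≤ n) (σ : St) (h : Good n σ) :
    1 ≤ front σ ∧ front σ ≤ n := by
  cases σ with
  | nil => exact absurd rfl (ne_nil_of_good n hn _ h)
  | cons F τ =>
    have h1 := h.sum
    have h2 := h.pos F (by simp)
    simp only [List.map_cons, List.sum_cons] at h1
    show 1 ≤ F.2 ∧ F.2 ≤ n
    omega

private theorem M_wst_succ (n : ℕ) (hn : 1 ≤ n) : M n (wst n) ≤ M (n + 1) (wst (n + 1)) := by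
  rw [M_succ]
  apply M_mono
  intro σ hσ
  have h := W_succ_wpot n σ hσ (ne_nil_of_good n hn σ hσ)
  have hpos : (0 : ℝ) < (n : ℝ) + 1 := by positivity
  rw [le_div_iff₀ hpos]
  have e : (fun σ : St => wpot (front σ) (n + 2 - front σ) (gap σ + 1)) = wst (n + 1) := rfl
  rw [e] at h
  unfold wst
  unfold wst at h
  linarith

theorem M_wst_mono (n m : ℕ) (hn : 1 ≤ n) (h : n ≤ m) : M n (wst n) ≤ M m (wst m) := by
  induction m, h using Nat.le_induction with
  | base => exact le_refl _
  | succ m hm ih => exact ih.trans (M_wst_succ m (hn.trans hm))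

/-- `wpot ≤ b / (a + b)` with `a = front σ`, `a + b = n + 1`. -/
theorem M_wst_le (n : ℕ) (hn : 1 ≤ n) : M n (wst n) ≤ 1 - sig n := by
  have hpos : (0 : ℝ) < (n : ℝ) + 1 := by positivity
  have h1 : M n (wst n) ≤ M n (fun σ => (1 : ℝ) + (-1 / ((n : ℝ) + 1)) * (front σ : ℝ)) := by
    apply M_mono
    intro σ hσ
    obtain ⟨ha, hb⟩ := front_bds n hn σ hσ
    have h2 := wpot_le (front σ) (n + 1 - front σ) (gap σ + 1) ha (by omega)
    have h3 : ((n + 1 - front σ : ℕ) : ℝ) = (n : ℝ) + 1 - front σ := by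
      rw [Nat.cast_sub (by omega)]
      push_cast
      ring
    rw [h3] at h2
    have h4 : ((n : ℝ) + 1 - front σ) / ((front σ : ℝ) + ((n : ℝ) + 1 - front σ)) =
        (1 : ℝ) + (-1 / ((n : ℝ) + 1)) * (front σ : ℝ) := by
      have : (front σ : ℝ) + ((n : ℝ) + 1 - front σ) = (n : ℝ) + 1 := by ring
      rw [this]
      field_simp
      ring
    rw [h4] at h2
    exact h2
  refine h1.trans (le_of_eq ?_)
  rw [M_add, M_const, M_mul]
  unfold sig
  ring

theorem sig_le_of_wst (n : ℕ) (hn : 1 ≤ n) (m : ℕ) : sig m ≤ 1 - M n (wst n) := by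
  rcases le_total n m with h | h
  · have h1 := M_wst_mono n m hn h
    have h2 := M_wst_le m (hn.trans h)
    linarith
  · have h1 := sig_mono h
    have h2 := M_wst_le n hn
    linarith

end Pool.Agent.Lib.MP_ad84ff_co
end

section

set_option autoImplicit false

namespace Pool.Agent.Lib.MP_ad84ff_co

theorem tie_eq (σ : St) : tie σ = light σ + heavy σ := by
  unfold tie light heavy
  rw [← ms_add]
  congr 1
  funext k
  by_cases h : front σ < 2 * k
  · rw [if_pos h, if_neg (by omega)]; norm_num
  · rw [if_neg h, if_pos (by omega)]; norm_num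

private theorem po9_eps_eq (n : ℕ) :
    eps n = M n light / ((n : ℝ) + 1) + M n heavy / ((n : ℝ) + 1) := by
  have h : M n tie = M n light + M n heavy := by
    rw [← M_add]
    congr 1
    funext σ
    exact tie_eq σ
  unfold eps
  rw [h, add_div]

/-- `∑ ε ≤ 3 + (1/4) ∑ ε`. -/
theorem eps_sum (N : ℕ) : ∑ n ∈ Finset.Icc 1 N, eps n ≤ 4 := by
  have h1 : ∑ n ∈ Finset.Icc 1 N, eps n =
      ∑ n ∈ Finset.Icc 1 N, M n light / ((n : ℝ) + 1) +
        ∑ n ∈ Finset.Icc 1 N, M n heavy / ((n : ℝ) + 1) := by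
    rw [← Finset.sum_add_distrib]
    exact Finset.sum_congr rfl fun n _ => po9_eps_eq n
  have h2 := light_sum N
  have h3 := heavy_sum N
  linarith

private theorem po9_range (N : ℕ) : ∑ i ∈ Finset.range N, eps (i + 1) ≤ 4 := by
  have h : ∑ i ∈ Finset.range N, eps (i + 1) = ∑ n ∈ Finset.Icc 1 N, eps n := by
    induction N with
    | zero => simp
    | succ N ih => rw [Finset.sum_range_succ, ih, Finset.sum_Icc_succ_top (by omega)]
  rw [h]
  exact eps_sum N

theorem eps_summable : Summable (fun n => eps (n + 1)) :=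
  summable_of_sum_range_le (fun n => eps_nonneg (n + 1)) po9_range

theorem eps_tsum : ∑' n, eps (n + 1) ≤ 4 :=
  Real.tsum_le_of_sum_range_le (fun n => eps_nonneg (n + 1)) po9_range

end Pool.Agent.Lib.MP_ad84ff_co
end

section

set_option autoImplicit false

open Nat

namespace Pool.Agent.Lib.MP_ad84ff_co

private theorem Nu8_pascal (m n : ℕ) :
    (∑ i ∈ Finset.range (n + 1), ((m + 1).choose i : ℝ)) =
      2 * (∑ i ∈ Finset.range (n + 1), (m.choose i : ℝ)) - (m.choose n : ℝ) := by
  induction n with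
  | zero => simp; norm_num
  | succ n ih =>
    rw [Finset.sum_range_succ, ih, Finset.sum_range_succ (fun i => (m.choose i : ℝ)) (n + 1),
      Nat.choose_succ_succ]
    push_cast
    ring

private theorem Nu8_J (a b : ℕ) : J (a + 1) (b + 1) =
    (a.factorial : ℝ) * (b.factorial : ℝ) / ((a + b + 1).factorial : ℝ) *
      ((∑ i ∈ Finset.range (a + 1), ((a + b + 1).choose i : ℝ)) / 2 ^ (a + b + 1)) := by
  induction a generalizing b with
  | zero =>
    rw [zero_add, J_one _ (by omega)]
    have h1 : ((0 + b + 1).factorial : ℝ) = ((b : ℝ) + 1) * (b.factorial : ℝ) := by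
      rw [zero_add, Nat.factorial_succ]
      push_cast
      ring
    have h2 : (b.factorial : ℝ) ≠ 0 := by positivity
    have h3 : ((b : ℝ) + 1) ≠ 0 := by positivity
    rw [h1]
    simp
    field_simp
  | succ a ih =>
    have h0 : J (a + 1 + 1) (b + 1) = J (a + 1) (b + 1) - J (a + 1) (b + 1 + 1) := by
      rw [J_rec (a + 1) (b + 1) (by omega) (by omega)]
      ring
    rw [h0, ih b, ih (b + 1)]
    have e1 : a + (b + 1) + 1 = a + b + 1 + 1 := by ring
    have e2 : a + 1 + b + 1 = a + b + 1 + 1 := by ring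
    rw [e1, e2]
    have hS := Nu8_pascal (a + b + 1) a
    have hS2 : (∑ i ∈ Finset.range (a + 1 + 1), ((a + b + 1 + 1).choose i : ℝ)) =
        (∑ i ∈ Finset.range (a + 1), ((a + b + 1 + 1).choose i : ℝ)) +
          ((a + b + 1 + 1).choose (a + 1) : ℝ) := Finset.sum_range_succ _ _
    have hC : ((a : ℝ) + b + 1 + 1) * ((a + b + 1).choose a : ℝ) =
        ((a + b + 1 + 1).choose (a + 1) : ℝ) * ((a : ℝ) + 1) := by
      have := Nat.add_one_mul_choose_eq (a + b + 1) a
      exact_mod_cast this
    rw [hS2]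
    have f1 : ((a + b + 1 + 1).factorial : ℝ) = ((a : ℝ) + b + 1 + 1) *
        ((a + b + 1).factorial : ℝ) := by
      rw [Nat.factorial_succ]
      push_cast
      ring
    have f2 : ((a + 1).factorial : ℝ) = ((a : ℝ) + 1) * (a.factorial : ℝ) := by
      rw [Nat.factorial_succ]
      push_cast
      ring
    have f3 : ((b + 1).factorial : ℝ) = ((b : ℝ) + 1) * (b.factorial : ℝ) := by
      rw [Nat.factorial_succ]
      push_cast
      ring
    rw [f1, f2, f3]
    have g1 : ((a + b + 1).factorial : ℝ) ≠ 0 := by positivity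
    have g2 : ((a : ℝ) + b + 1 + 1) ≠ 0 := by positivity
    have g3 : (2 : ℝ) ^ (a + b + 1) ≠ 0 := by positivity
    rw [pow_succ (2 : ℝ) (a + b + 1)]
    generalize (2 : ℝ) ^ (a + b + 1) = P at g3 ⊢
    generalize (∑ i ∈ Finset.range (a + 1), ((a + b + 1).choose i : ℝ)) = s1 at hS ⊢
    generalize (∑ i ∈ Finset.range (a + 1), ((a + b + 1 + 1).choose i : ℝ)) = s2 at hS ⊢
    generalize ((a + b + 1).choose a : ℝ) = c1 at hS hC
    generalize ((a + b + 1 + 1).choose (a + 1) : ℝ) = c2 at hC ⊢
    generalize ((a + b + 1).factorial : ℝ) = F at g1 ⊢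
    have hs1 : s1 = (s2 + c1) / 2 := by linarith
    have hc2 : c2 = ((a : ℝ) + b + 1 + 1) * c1 / ((a : ℝ) + 1) := by
      rw [eq_div_iff (by positivity)]
      linarith
    rw [hs1, hc2]
    have g4 : ((a : ℝ) + 1) ≠ 0 := by positivity
    field_simp
    ring

/-- Closed form of the half beta integral: induction on `a` for all `b`, with `J_one`
(`∑_{i<1} C(b, i) = 1`) and `J (a+1) b = J a b - J a (b+1)` (`J_rec`); the binomial identity is
`(a+b) ∑_{i<a} C(a+b-1, i) * 2 - b ∑_{i<a} C(a+b, i) = a ∑_{i<a+1} C(a+b, i)`, which follows from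
`∑_{i<a} C(m+1, i) = 2 ∑_{i<a} C(m, i) - C(m, a-1)` and `a C(a+b, a) = (a+b) C(a+b-1, a-1)`. -/
theorem J_formula (a b : ℕ) (ha : 1 ≤ a) (hb : 1 ≤ b) :
    J a b = ((a - 1).factorial : ℝ) * ((b - 1).factorial : ℝ) / ((a + b - 1).factorial : ℝ) *
      ((∑ i ∈ Finset.range a, ((a + b - 1).choose i : ℝ)) / 2 ^ (a + b - 1)) := by
  obtain ⟨a, rfl⟩ : ∃ a', a = a' + 1 := ⟨a - 1, by omega⟩
  obtain ⟨b, rfl⟩ : ∃ b', b = b' + 1 := ⟨b - 1, by omega⟩
  have e1 : a + 1 + (b + 1) - 1 = a + b + 1 := by omega
  rw [Nu8_J, e1, Nat.add_sub_cancel, Nat.add_sub_cancel]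

theorem tnl_eq (a : ℕ) (ha : a ≤ 17) :
    tnl.getD a 0 = ∑ i ∈ Finset.range a, (16).choose i := by
  have h : ∀ a ≤ 17, tnl.getD a 0 = ∑ i ∈ Finset.range a, (16).choose i := by
    decide +kernel
  exact h a ha

/-- `wN` is a lower bound (`a ≤ 15`): `J_formula` at `(a, 17 - a)` and at
`(a - m, 17 - a + m)`, `m = min g (a-1)`; the difference in `wN` is nonnegative because `wpot` is. -/
theorem wN_le (a g : ℕ) (ha : 1 ≤ a) (ha' : a ≤ 15) :
    (wN a g : ℝ) ≤ 1000000000 * wpot a (16 - a) g := by
  have hm : min g (a - 1) ≤ a - 1 := min_le_right _ _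
  have hw := wpot_nonneg a (16 - a) g ha (by omega)
  have h1 := J_formula a (16 - a + 1) ha (by omega)
  have h2 := J_formula (a - min g (a - 1)) (16 - a + 1 + min g (a - 1)) (by omega) (by omega)
  have t1 : (∑ i ∈ Finset.range a, ((16).choose i : ℝ)) = (tnl.getD a 0 : ℝ) := by
    rw [tnl_eq a (by omega)]
    push_cast
    rfl
  have t2 : (∑ i ∈ Finset.range (a - min g (a - 1)), ((16).choose i : ℝ)) =
      (tnl.getD (a - min g (a - 1)) 0 : ℝ) := by
    rw [tnl_eq (a - min g (a - 1)) (by omega)]
    push_cast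
    rfl
  have e1 : a + (16 - a + 1) - 1 = 16 := by omega
  have e2 : 16 - a + 1 - 1 = 16 - a := by omega
  have e3 : a - min g (a - 1) + (16 - a + 1 + min g (a - 1)) - 1 = 16 := by omega
  have e4 : 16 - a + 1 + min g (a - 1) - 1 = 16 - a + min g (a - 1) := by omega
  have e5 : a + (16 - a) - 1 = 15 := by omega
  rw [e1, e2, t1] at h1
  rw [e3, e4, t2] at h2
  unfold wpot at hw ⊢
  rw [h1, h2] at hw ⊢
  unfold Binv at hw ⊢
  rw [e5] at hw ⊢
  unfold wN
  generalize tnl.getD a 0 = ta at hw ⊢
  generalize tnl.getD (a - min g (a - 1)) 0 = tb at hw ⊢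
  generalize min g (a - 1) = m at hw hm ⊢
  have hf1 : (0 : ℝ) < ((a - 1).factorial : ℝ) := by positivity
  have hf2 : (0 : ℝ) < ((16 - a - 1).factorial : ℝ) := by positivity
  have hx : ∀ A B : ℝ, ((15).factorial : ℝ) / (((a - 1).factorial : ℝ) *
      ((16 - a - 1).factorial : ℝ)) * (A / ((16).factorial : ℝ) * ((ta : ℝ) / 2 ^ 16) -
        B / ((16).factorial : ℝ) * ((tb : ℝ) / 2 ^ 16)) =
      (A * ta - B * tb) / (((a - 1).factorial : ℝ) * ((16 - a - 1).factorial : ℝ) * 16 * 2 ^ 16) := by
    intro A B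
    have h16 : ((16).factorial : ℝ) = 16 * ((15).factorial : ℝ) := by
      rw [Nat.factorial_succ 15]
      push_cast
      ring
    have h15 : ((15).factorial : ℝ) ≠ 0 := by positivity
    rw [h16]
    field_simp
  rw [hx] at hw ⊢
  set A := factorial (16 - a) * factorial (a - 1) * ta with hA
  set B := factorial (a - m - 1) * factorial (16 - a + m) * tb with hB
  have hAr : ((a - 1).factorial : ℝ) * ((16 - a).factorial : ℝ) * (ta : ℝ) = (A : ℝ) := by
    rw [hA]
    push_cast
    ring
  have hBr : ((a - m - 1).factorial : ℝ) * ((16 - a + m).factorial : ℝ) * (tb : ℝ) = (B : ℝ) := by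
    rw [hB]
    push_cast
    ring
  rw [hAr, hBr] at hw ⊢
  have hD : (0 : ℝ) < ((a - 1).factorial : ℝ) * ((16 - a - 1).factorial : ℝ) * 16 * 2 ^ 16 := by
    positivity
  have hBA : (B : ℝ) ≤ A := by
    by_contra hcon
    push Not at hcon
    have : ((A : ℝ) - B) / (((a - 1).factorial : ℝ) * ((16 - a - 1).factorial : ℝ) * 16 * 2 ^ 16)
        < 0 := div_neg_of_neg_of_pos (by linarith) hD
    linarith
  have hBA' : B ≤ A := by exact_mod_cast hBA
  refine (Nat.cast_div_le).trans (le_of_eq ?_)
  push_cast [Nat.cast_sub hBA']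
  ring

/-- The shape of the entries of `tbl`. -/
private def Nu8_ok (x : ℕ × St) : Bool :=
  match x.2 with
  | F :: _ :: _ => Nat.ble 1 F.1 && Nat.ble F.1 15
  | _ => false

private theorem Nu8_tbl : (tbl.all Nu8_ok) = true := by
  decide +kernel

private theorem Nu8_sum (l : List (ℕ × St)) (hl : ∀ x ∈ l, Nu8_ok x = true) :
    (((l.map fun x => x.1 * (match x.2 with
      | F :: G :: _ => wN F.1 (G.1 + 1)
      | _ => 0)).sum : ℕ) : ℝ) ≤
      1000000000 * W l (onPr fun a _ g => wpot a (16 - a) (g + 1)) := by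
  induction l with
  | nil => simp [W]
  | cons x l ih =>
    have ih' := ih fun y hy => hl y (List.mem_cons_of_mem _ hy)
    have hx := hl x List.mem_cons_self
    have hW : W (x :: l) (onPr fun a _ g => wpot a (16 - a) (g + 1)) =
        (x.1 : ℝ) * onPr (fun a _ g => wpot a (16 - a) (g + 1)) x.2 +
          W l (onPr fun a _ g => wpot a (16 - a) (g + 1)) := by
      unfold W
      rw [List.map_cons, List.sum_cons]
    rw [hW, List.map_cons, List.sum_cons, Nat.cast_add, mul_add]
    refine add_le_add ?_ ih'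
    obtain ⟨c, σ⟩ := x
    match σ, hx with
    | F :: G :: τ, hx =>
      have h1 : 1 ≤ F.1 ∧ F.1 ≤ 15 := by
        simpa [Nu8_ok] using hx
      have h2 := wN_le F.1 (G.1 + 1) h1.1 h1.2
      have h3 : (0 : ℝ) ≤ c := Nat.cast_nonneg _
      have h4 := mul_le_mul_of_nonneg_left h2 h3
      have h5 : onPr (fun a _ g => wpot a (16 - a) (g + 1)) (F :: G :: τ) =
          wpot F.1 (16 - F.1) (G.1 + 1) := rfl
      simp only [h5]
      push_cast
      linarith
    | [], hx => simp [Nu8_ok] at hx
    | [F], hx => simp [Nu8_ok] at hx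

/-- `kernel_high`, `wN_le`, `M_tbl`.  (For `x ∈ tbl` with first size `a` we have `1 ≤ a ≤ 15`: check
by `decide`.) -/
theorem high_bound : (0.1626 : ℝ) ≤ M 15 (wst 15) := by
  have h1 : M 15 (wst 15) =
      W tbl (onPr fun a _ g => wpot a (16 - a) (g + 1)) / ((Nat.factorial 15 : ℕ) : ℝ) :=
    M_tbl fun a _ g => wpot a (16 - a) (g + 1)
  rw [h1]
  have h2 := Nu8_sum tbl (List.all_eq_true.1 Nu8_tbl)
  have h3 : ((212658474254740000782 : ℕ) : ℝ) ≤ (highK : ℝ) := by exact_mod_cast kernel_high
  have h4 : (highK : ℝ) ≤ 1000000000 * W tbl (onPr fun a _ g => wpot a (16 - a) (g + 1)) := h2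
  have h5 : ((Nat.factorial 15 : ℕ) : ℝ) = 1307674368000 := by
    have : Nat.factorial 15 = 1307674368000 := by decide +kernel
    rw [this]
    norm_num
  rw [h5, le_div_iff₀ (by norm_num)]
  push_cast at h3
  linarith

end Pool.Agent.Lib.MP_ad84ff_co
end

section

set_option autoImplicit false

open Filter Topology

namespace Pool.Agent.Lib.MP_ad84ff_co

theorem eps_zero : eps 0 = 0 := by
  simp [eps, M, tie, ms]

theorem summable_eps : Summable eps :=
  (summable_nat_add_iff 1).1 eps_summable

theorem tsum_eps_le : ∑' n, eps n ≤ 4 := by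
  rw [summable_eps.tsum_eq_zero_add, eps_zero, zero_add]
  exact eps_tsum

theorem Dp_incr (n : ℕ) (hn : 1 ≤ n) : Dp (n + 1) - Dp n = sig n + eps n := by
  rw [Dp_eq, Dp_eq]
  exact M_top_succ n hn

/-- If the increments converge then so do the averages. -/
theorem avg_tendsto (u : ℕ → ℝ) (L : ℝ) (h : Tendsto (fun n => u (n + 1) - u n) atTop (𝓝 L)) :
    Tendsto (fun n => u n / (n : ℝ)) atTop (𝓝 L) := by
  have h1 := h.cesaro
  have h2 : Tendsto (fun n : ℕ => (n : ℝ)⁻¹ * ∑ i ∈ Finset.range n, (u (i + 1) - u i) +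
      u 0 / (n : ℝ)) atTop (𝓝 (L + 0)) :=
    h1.add (tendsto_const_nhds.div_atTop tendsto_natCast_atTop_atTop)
  rw [add_zero] at h2
  refine h2.congr fun n => ?_
  rw [Finset.sum_range_sub]
  ring

theorem sig_tendsto : Tendsto sig atTop (𝓝 (⨆ n, sig n)) :=
  tendsto_atTop_ciSup sig_mono ⟨1, by rintro x ⟨n, rfl⟩; exact sig_le_one n⟩

theorem Dp_incr_tendsto : Tendsto (fun n => Dp (n + 1) - Dp n) atTop (𝓝 (⨆ n, sig n)) := by
  have h1 : Tendsto (fun n => sig n + eps n) atTop (𝓝 ((⨆ n, sig n) + 0)) :=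
    sig_tendsto.add summable_eps.tendsto_atTop_zero
  rw [add_zero] at h1
  refine h1.congr' ?_
  filter_upwards [eventually_ge_atTop 1] with n hn
  exact (Dp_incr n hn).symm

theorem near_monotone :
    ∃ sigma eps : ℕ → ℝ,
      (∀ n : ℕ, 1 ≤ n → Dp (n + 1) - Dp n = sigma n + eps n) ∧
      Monotone sigma ∧ (∀ n, 0 ≤ eps n) ∧ Summable eps ∧ ∑' n, eps n ≤ 4 ∧
      ∃ L : ℝ, Tendsto (fun n => Dp (n + 1) - Dp n) atTop (𝓝 L) :=
  ⟨sig, eps, Dp_incr, sig_mono, eps_nonneg, summable_eps, tsum_eps_le, _, Dp_incr_tendsto⟩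

theorem limit_bounds :
    ∃ L : ℝ, Tendsto (fun n => Dp n / (n : ℝ)) atTop (𝓝 L) ∧ 0.7806 ≤ L ∧ L ≤ 0.8374 := by
  refine ⟨_, avg_tendsto Dp _ Dp_incr_tendsto, ?_, ?_⟩
  · exact le_trans low_bound (vpot_le_lim 100 15 (by norm_num) _ sig_tendsto)
  · have h1 : (⨆ n, sig n) ≤ 1 - M 15 (wst 15) :=
      ciSup_le fun m => sig_le_of_wst 15 (by norm_num) m
    have h2 := high_bound
    norm_num at h2 ⊢
    linarith

end Pool.Agent.Lib.MP_ad84ff_co
end
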