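import Pool.Agent.Lib.MP_ad84ff_co.Defs

/-!
# Word level: profiles, levels, keys, enriched packets

`LL a t q` is the length of `T^t` of the prefix of length `q` of `a`.  The numbers `LL a t q`
(the profile) determine the levels and the keys, and they have a closed dynamics under the
insertion of a new minimum (`Ins`).
-/

set_option autoImplicit false

namespace Pool.Agent.Lib.MP_ad84ff_co

/-- The length of `T^t` of the prefix of length `q`. -/
def LL (a : List ℕ) (t q : ℕ) : ℕ := (T^[t] (a.take q)).length

/-- Abstract profiles of words of length `n`. -/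
structure Prof (n : ℕ) (L : ℕ → ℕ → ℕ) : Prop where
  /-- `T^0` is the identity -/
  zero : ∀ q ≤ n, L 0 q = q
  /-- prefixes go to prefixes -/
  mono : ∀ t q q', q ≤ q' → q' ≤ n → L t q ≤ L t q'
  /-- equality of prefixes is preserved -/
  up : ∀ t q q', q ≤ q' → q' ≤ n → L t q = L t q' → L (t + 1) q = L (t + 1) q'
  /-- everything is empty after `n` steps -/
  fin : L n n = 0

/-- The profile `L'` comes from the profile `L` by insertion of a new minimum at slot `p`. -/
structure Ins (n p : ℕ) (L L' : ℕ → ℕ → ℕ) : Prop where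
  /-- `T^0` is the identity -/
  zero : ∀ q ≤ n + 1, L' 0 q = q
  /-- the prefixes before the new letter -/
  low : ∀ t q, q ≤ p → L' t q = L t q
  /-- the prefixes which contain the new letter -/
  high : ∀ t q, p ≤ q → q ≤ n →
    L' (t + 1) (q + 1) = L (t + 1) q + if L t p < L t q then 1 else 0

/-- The level of slot `q`. -/
noncomputable def lev (n : ℕ) (L : ℕ → ℕ → ℕ) (q : ℕ) : ℕ := sInf {t : ℕ | L t q = L t n}

/-- The key of slot `q`. -/
noncomputable def key (n : ℕ) (L : ℕ → ℕ → ℕ) (q : ℕ) : ℕ := L (lev n L q - 1) q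

/-- The list of (level, key) of the slots `0, …, n - 1`. -/
noncomputable def LK (n : ℕ) (L : ℕ → ℕ → ℕ) : List (ℕ × ℕ) :=
  (List.range n).map fun q => (lev n L q, key n L q)

/-- Update of (level, key) at the slots before the new letter; `l` is the level of the slot of the
insertion and `K = |T^l|`. -/
def g1 (l K : ℕ) (x : ℕ × ℕ) : ℕ × ℕ := if x.1 = l then (l + 1, K) else x

/-- Update of (level, key) at the slots behind the new letter; `(l, k)` is the (level, key) of the
slot of the insertion and `K = |T^l|`. -/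
def g2 (l k K : ℕ) (x : ℕ × ℕ) : ℕ × ℕ := if x = (l, k) then (l + 1, K) else (x.1, x.2 + 1)

/-- Enriched packets: `((level, key), size)`. -/
abbrev EP := List ((ℕ × ℕ) × ℕ)

/-- The list of (level, key) of the slots. -/
def flat (E : EP) : List (ℕ × ℕ) := E.flatMap fun e => List.replicate e.2 e.1

/-- The number of slots. -/
def total (E : EP) : ℕ := (E.map Prod.snd).sum

/-- Forget the keys. -/
def proj (E : EP) : St := E.map fun e => (e.1.1, e.2)

/-- Shift of the key by one. -/
def shift (e : (ℕ × ℕ) × ℕ) : (ℕ × ℕ) × ℕ := ((e.1.1, e.1.2 + 1), e.2)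

/-- `glue` with keys. -/
def glueE (F : (ℕ × ℕ) × ℕ) : EP → EP
  | [] => [F]
  | G :: ρ => if G.1.1 = F.1.1 + 1 then (G.1, F.2 + G.2) :: ρ else F :: G :: ρ

/-- `step` with keys; `K t` is the length of `T^t` of the word and `n` is the length of the
word. -/
def stepE (n : ℕ) (K : ℕ → ℕ) : EP → ℕ → EP
  | [], _ => [((1, n), 1)]
  | F :: τ, p =>
    if p < F.2 then ((F.1.1 + 1, K F.1.1), F.2 + 1) :: τ.map shift
    else glueE F (stepE n K τ (p - F.2))

/-- Admissible lists of enriched packets. -/
structure GoodE (K : ℕ → ℕ) (E : EP) : Prop where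
  /-- levels and sizes are positive -/
  pos : ∀ e ∈ E, 1 ≤ e.1.1 ∧ 1 ≤ e.2
  /-- levels are nonincreasing, keys are increasing inside a level -/
  sorted : E.Pairwise fun e f => f.1.1 < e.1.1 ∨ (f.1.1 = e.1.1 ∧ e.1.2 < f.1.2)
  /-- the key of a packet of level `l` is less than `|T^{l-1}|` -/
  bound : ∀ e ∈ E, e.1.2 < K (e.1.1 - 1)

/-- Group equal consecutive elements. -/
def grp : List (ℕ × ℕ) → EP
  | [] => []
  | x :: X =>
    match grp X with
    | [] => [(x, 1)]
    | e :: E => if x = e.1 then (e.1, e.2 + 1) :: E else (x, 1) :: e :: E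

/-- The state of a word. -/
noncomputable def st (a : List ℕ) : St := proj (grp (LK a.length (LL a)))

/-- Insertion of `v` at slot `p`. -/
def insAt (a : List ℕ) (p v : ℕ) : List ℕ := a.take p ++ v :: a.drop p

end Pool.Agent.Lib.MP_ad84ff_co
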